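import Pool.Agent.H192R2.CW.Defs

set_option autoImplicit false

namespace Pool.Agent.H192R2.CW

variable {W W' V V' : Type}

/-- Induced topological minors of `G` are closed under taking induced subgraphs. -/
theorem ITM.of_embedding {F : SimpleGraph W'} {H : SimpleGraph W} {G : SimpleGraph V}
    (φ : F ↪g H) (h : ITM H G) : ITM F G := by
  classical
  obtain ⟨f, P, hf, hpath, hrev, hbr, hdisj, hind⟩ := h
  have hadj : ∀ {u v : W'}, F.Adj u v → H.Adj (φ u) (φ v) := fun h => φ.map_rel_iff.2 h
  refine ⟨fun w => f (φ w), fun u v h => P (φ u) (φ v) (hadj h), ?_, ?_, ?_, ?_, ?_, ?_⟩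
  · exact hf.comp φ.injective
  · intro u v h; exact hpath _ _ _
  · intro u v h; exact hrev _ _ _
  · intro u v h w hw
    rcases hbr _ _ _ _ hw with h1 | h1
    · exact Or.inl (φ.injective h1)
    · exact Or.inr (φ.injective h1)
  · intro u v h u' v' h' hne x hx hx'
    have hne' : s(φ u, φ v) ≠ s(φ u', φ v') := by
      intro h2
      apply hne
      have : Sym2.map φ s(u, v) = Sym2.map φ s(u', v') := by simpa using h2
      exact Sym2.map.injective φ.injective this
    obtain ⟨w, hw⟩ := hdisj _ _ _ _ _ _ hne' x hx hx'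
    subst hw
    rcases hbr _ _ _ _ hx with h1 | h1
    · exact ⟨u, by rw [h1]⟩
    · exact ⟨v, by rw [h1]⟩
  · intro x y hx hy hxy
    have toU : ∀ z, ((∃ w, z = f (φ w)) ∨ ∃ u v h, z ∈ (P (φ u) (φ v) (hadj h)).support) →
        ((∃ w, z = f w) ∨ ∃ u v h, z ∈ (P u v h).support) := by
      rintro z (⟨w, hw⟩ | ⟨u, v, h, hz⟩)
      · exact Or.inl ⟨_, hw⟩
      · exact Or.inr ⟨_, _, _, hz⟩
    obtain ⟨a, b, hab, he⟩ := hind x y (toU x hx) (toU y hy) hxy
    have key : ∀ z, ((∃ w, z = f (φ w)) ∨ ∃ u v h, z ∈ (P (φ u) (φ v) (hadj h)).support) →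
        z ∈ (P a b hab).support → (∃ w, z = f (φ w) ∧ (φ w = a ∨ φ w = b)) ∨
          ∃ (u v : W') (h : F.Adj u v), s(a, b) = s(φ u, φ v) := by
      rintro z (⟨w, hw⟩ | ⟨u, v, h, hz⟩) hz'
      · left
        refine ⟨w, hw, ?_⟩
        subst hw
        exact hbr _ _ _ _ hz'
      · by_cases heq : s(a, b) = s(φ u, φ v)
        · exact Or.inr ⟨u, v, h, heq⟩
        · left
          obtain ⟨w, hw⟩ := hdisj _ _ _ _ _ _ heq z hz' hz
          subst hw
          have h1 := hbr _ _ _ _ hz'
          rcases hbr _ _ _ _ hz with h2 | h2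
          · subst h2; exact ⟨u, rfl, h1⟩
          · subst h2; exact ⟨v, rfl, h1⟩
    have fin : (∃ (u v : W') (h : F.Adj u v), s(a, b) = s(φ u, φ v)) →
        ∃ u v h, s(x, y) ∈ (P (φ u) (φ v) (hadj (u := u) (v := v) h)).edges := by
      rintro ⟨u, v, h, heq⟩
      rw [Sym2.eq_iff] at heq
      rcases heq with ⟨h1, h2⟩ | ⟨h1, h2⟩
      · subst h1; subst h2
        exact ⟨u, v, h, he⟩
      · subst h1; subst h2
        refine ⟨u, v, h, ?_⟩
        have := hrev _ _ (hadj h)
        rw [this] at he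
        simpa using he
    have hx' := (P a b hab).fst_mem_support_of_mem_edges he
    have hy' := (P a b hab).snd_mem_support_of_mem_edges he
    rcases key x hx hx' with ⟨w1, e1, h1⟩ | h1
    · rcases key y hy hy' with ⟨w2, e2, h2⟩ | h2
      · apply fin
        have hne : w1 ≠ w2 := by
          rintro rfl
          exact hxy.ne (e1.trans e2.symm)
        have hne' : φ w1 ≠ φ w2 := fun h => hne (φ.injective h)
        have hA : H.Adj (φ w1) (φ w2) := by
          rcases h1 with h1 | h1 <;> rcases h2 with h2 | h2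
          · exact absurd (h1.trans h2.symm) hne'
          · rw [h1, h2]; exact hab
          · rw [h1, h2]; exact hab.symm
          · exact absurd (h1.trans h2.symm) hne'
        refine ⟨w1, w2, φ.map_rel_iff.1 hA, ?_⟩
        rw [Sym2.eq_iff]
        rcases h1 with h1 | h1 <;> rcases h2 with h2 | h2
        · exact absurd (h1.trans h2.symm) hne'
        · exact Or.inl ⟨h1.symm, h2.symm⟩
        · exact Or.inr ⟨h2.symm, h1.symm⟩
        · exact absurd (h1.trans h2.symm) hne'
      · exact fin h2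
    · exact fin h1

/-- An induced subgraph is an induced topological minor. -/
theorem ITM.of_induced {H : SimpleGraph W} {G : SimpleGraph V} (φ : H ↪g G) : ITM H G := by
  refine ⟨φ, fun u v h => SimpleGraph.Walk.cons (φ.map_rel_iff.2 h) SimpleGraph.Walk.nil,
    φ.injective, ?_, ?_, ?_, ?_, ?_⟩
  · intro u v h
    have : φ u ≠ φ v := fun h' => h.ne (φ.injective h')
    simp [this]
  · intro u v h
    rfl
  · intro u v h w hw
    simp only [SimpleGraph.Walk.support_cons, SimpleGraph.Walk.support_nil, List.mem_cons,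
      List.not_mem_nil, or_false] at hw
    rcases hw with h1 | h1
    · exact Or.inl (φ.injective h1)
    · exact Or.inr (φ.injective h1)
  · intro u v h u' v' h' _ x hx _
    simp only [SimpleGraph.Walk.support_cons, SimpleGraph.Walk.support_nil, List.mem_cons,
      List.not_mem_nil, or_false] at hx
    rcases hx with h1 | h1
    · exact ⟨u, h1⟩
    · exact ⟨v, h1⟩
  · intro x y hx hy hxy
    have key : ∀ z, ((∃ w, z = φ w) ∨ ∃ (u v : W) (h : H.Adj u v),
        z ∈ (SimpleGraph.Walk.cons (φ.map_rel_iff.2 h) SimpleGraph.Walk.nil :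
          G.Walk (φ u) (φ v)).support) → ∃ w, z = φ w := by
      rintro z (h | ⟨u, v, h, hz⟩)
      · exact h
      · simp only [SimpleGraph.Walk.support_cons, SimpleGraph.Walk.support_nil, List.mem_cons,
          List.not_mem_nil, or_false] at hz
        rcases hz with h1 | h1
        · exact ⟨u, h1⟩
        · exact ⟨v, h1⟩
    obtain ⟨u, rfl⟩ := key x hx
    obtain ⟨v, rfl⟩ := key y hy
    refine ⟨u, v, φ.map_rel_iff.1 hxy, ?_⟩
    simp

theorem BoundedCliqueWidth.of_embedding {F : SimpleGraph W'} {H : SimpleGraph W} (φ : F ↪g H)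
    (h : BoundedCliqueWidth H) : BoundedCliqueWidth F := by
  obtain ⟨k, hk⟩ := h
  exact ⟨k, fun V _ _ G hG => hk V G (fun h => hG (h.of_embedding φ))⟩

/-- Connectedness of a vertex set: no proper nonempty subset is closed under adjacency. -/
def Conn (G : SimpleGraph V) (S : Set V) : Prop :=
  ∀ T ⊆ S, T.Nonempty → (∀ x ∈ T, ∀ y ∈ S, G.Adj x y → y ∈ T) → T = S

/-- A connected set which meets both `A` and its complement contains an edge leaving `A`. -/
lemma Conn.exists_edge {G : SimpleGraph V} {S : Set V} (h : Conn G S) (A : Set V)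
    (h1 : ∃ x ∈ S, x ∈ A) (h2 : ∃ x ∈ S, x ∉ A) :
    ∃ x ∈ S, ∃ y ∈ S, x ∈ A ∧ y ∉ A ∧ G.Adj x y := by
  by_contra hcon
  push Not at hcon
  obtain ⟨a, ha, haA⟩ := h1
  obtain ⟨b, hb, hbA⟩ := h2
  have := h (S ∩ A) Set.inter_subset_left ⟨a, ha, haA⟩ (by
    intro x hx y hy hxy
    refine ⟨hy, ?_⟩
    by_contra hyA
    exact hcon x hx.1 y hy hx.2 hyA hxy)
  rw [← this] at hb
  exact hbA hb.2

end Pool.Agent.H192R2.CW
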