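import Pool.Agent.H192R2.CW.Theta2

set_option autoImplicit false

namespace Pool.Agent.H192R2.CW

open Classical

variable {V : Type} {G : SimpleGraph V}

/-! ### Connected sets -/

lemma Conn.single (G : SimpleGraph V) (r : V) : Conn G {r} := by
  intro T hT ⟨x, hx⟩ _
  apply Set.Subset.antisymm hT
  rintro y rfl
  have := hT hx
  rw [Set.mem_singleton_iff] at this
  exact this ▸ hx

lemma Conn.empty (G : SimpleGraph V) : Conn G ∅ := by
  intro T hT ⟨x, hx⟩ _
  exact absurd (hT hx) (Set.notMem_empty x)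

lemma Conn.union {X Y : Set V} (hX : Conn G X) (hY : Conn G Y)
    (h : ∃ x ∈ X, ∃ y ∈ Y, G.Adj x y) : Conn G (X ∪ Y) := by
  obtain ⟨x, hx, y, hy, hxy⟩ := h
  intro T hT hne hcl
  have hTX : (T ∩ X).Nonempty → X ⊆ T := by
    intro h1
    have := hX (T ∩ X) Set.inter_subset_right h1 (by
      rintro u ⟨hu1, hu2⟩ v hv huv
      exact ⟨hcl u hu1 v (Or.inl hv) huv, hv⟩)
    rw [← this]
    exact Set.inter_subset_left
  have hTY : (T ∩ Y).Nonempty → Y ⊆ T := by
    intro h1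
    have := hY (T ∩ Y) Set.inter_subset_right h1 (by
      rintro u ⟨hu1, hu2⟩ v hv huv
      exact ⟨hcl u hu1 v (Or.inr hv) huv, hv⟩)
    rw [← this]
    exact Set.inter_subset_left
  apply Set.Subset.antisymm hT
  obtain ⟨z, hz⟩ := hne
  rcases hT hz with h1 | h1
  · have h2 := hTX ⟨z, hz, h1⟩
    have h3 := hTY ⟨y, hcl x (h2 hx) y (Or.inr hy) hxy, hy⟩
    exact Set.union_subset h2 h3
  · have h2 := hTY ⟨z, hz, h1⟩
    have h3 := hTX ⟨x, hcl y (h2 hy) x (Or.inl hx) hxy.symm, hx⟩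
    exact Set.union_subset h3 h2

/-- The vertices `p i, …, p j`. -/
def Seg (p : ℕ → V) (i j : ℕ) : Set V := {x | ∃ t, i ≤ t ∧ t ≤ j ∧ x = p t}

lemma Conn.seg (p : ℕ → V) (i j : ℕ) (h : ∀ t, i ≤ t → t < j → G.Adj (p t) (p (t + 1))) :
    Conn G (Seg p i j) := by
  rcases Nat.lt_or_ge j i with hij | hij
  · have : Seg p i j = ∅ := by
      ext x
      simp only [Seg, Set.mem_ofPred_eq, Set.mem_empty_iff_false, iff_false]
      rintro ⟨t, h1, h2, _⟩
      omega
    rw [this]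
    exact Conn.empty G
  · obtain ⟨d, rfl⟩ := Nat.exists_eq_add_of_le hij
    induction d with
    | zero =>
      have : Seg p i (i + 0) = {p i} := by
        ext x
        simp only [Seg, Set.mem_ofPred_eq, Set.mem_singleton_iff]
        constructor
        · rintro ⟨t, h1, h2, rfl⟩
          have : t = i := by omega
          rw [this]
        · rintro rfl
          exact ⟨i, le_rfl, by omega, rfl⟩
      rw [this]
      exact Conn.single G _
    | succ d ih =>
      have hU : Seg p i (i + (d + 1)) = Seg p i (i + d) ∪ {p (i + (d + 1))} := by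
        ext x
        simp only [Seg, Set.mem_ofPred_eq, Set.mem_union, Set.mem_singleton_iff]
        constructor
        · rintro ⟨t, h1, h2, rfl⟩
          rcases Nat.lt_or_ge t (i + (d + 1)) with h3 | h3
          · exact Or.inl ⟨t, h1, by omega, rfl⟩
          · right
            have : t = i + (d + 1) := by omega
            rw [this]
        · rintro (⟨t, h1, h2, rfl⟩ | rfl)
          · exact ⟨t, h1, by omega, rfl⟩
          · exact ⟨_, by omega, le_rfl, rfl⟩
      rw [hU]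
      refine (ih (fun t h1 h2 => h t h1 (by omega)) (by omega)).union (Conn.single G _) ?_
      exact ⟨p (i + d), ⟨i + d, by omega, le_rfl, rfl⟩, _, rfl, h (i + d) (by omega) (by omega)⟩

/-! ### Walks in a set -/

/-- A walk of length `m` inside `Y`. -/
def WalkIn (G : SimpleGraph V) (Y : Set V) (m : ℕ) (p : ℕ → V) : Prop :=
  (∀ t, t < m → G.Adj (p t) (p (t + 1))) ∧ ∀ t, t ≤ m → p t ∈ Y

lemma WalkIn.shortcut_eq {Y : Set V} {m : ℕ} {p : ℕ → V} (h : WalkIn G Y m p) {i j : ℕ}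
    (hij : i < j) (hj : j ≤ m) (heq : p i = p j) :
    ∃ q, WalkIn G Y (m - (j - i)) q ∧ q 0 = p 0 ∧ q (m - (j - i)) = p m := by
  refine ⟨cut p i (j - i), ⟨?_, ?_⟩, ?_, ?_⟩
  · intro t ht
    unfold cut
    by_cases h1 : t + 1 ≤ i
    · rw [if_pos (by omega), if_pos h1]; exact h.1 t (by omega)
    · rw [if_neg h1]
      by_cases h2 : t ≤ i
      · have : t = i := by omega
        subst this
        rw [if_pos le_rfl, heq]
        have h3 : t + 1 + (j - t) = j + 1 := by omega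
        rw [h3]
        exact h.1 j (by omega)
      · rw [if_neg h2]
        have h3 : t + 1 + (j - i) = t + (j - i) + 1 := by omega
        rw [h3]
        exact h.1 _ (by omega)
  · intro t ht
    unfold cut
    split_ifs with h1
    · exact h.2 t (by omega)
    · exact h.2 _ (by omega)
  · simp only [cut, Nat.zero_le, if_true]
  · unfold cut
    split_ifs with h1
    · have : m = j := by omega
      have h3 : m - (j - i) = i := by omega
      rw [h3, heq, ← this]
    · have : m - (j - i) + (j - i) = m := by omega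
      rw [this]

lemma WalkIn.shortcut_adj {Y : Set V} {m : ℕ} {p : ℕ → V} (h : WalkIn G Y m p) {i j : ℕ}
    (hij : i + 1 < j) (hj : j ≤ m) (hadj : G.Adj (p i) (p j)) :
    ∃ q, WalkIn G Y (m - (j - i) + 1) q ∧ q 0 = p 0 ∧ q (m - (j - i) + 1) = p m := by
  refine ⟨cut p i (j - i - 1), ⟨?_, ?_⟩, ?_, ?_⟩
  · intro t ht
    unfold cut
    by_cases h1 : t + 1 ≤ i
    · rw [if_pos (by omega), if_pos h1]; exact h.1 t (by omega)
    · rw [if_neg h1]
      by_cases h2 : t ≤ i
      · have : t = i := by omega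
        subst this
        rw [if_pos le_rfl]
        have h3 : t + 1 + (j - t - 1) = j := by omega
        rw [h3]
        exact hadj
      · rw [if_neg h2]
        have h3 : t + 1 + (j - i - 1) = t + (j - i - 1) + 1 := by omega
        rw [h3]
        exact h.1 _ (by omega)
  · intro t ht
    unfold cut
    split_ifs with h1
    · exact h.2 t (by omega)
    · exact h.2 _ (by omega)
  · simp only [cut, Nat.zero_le, if_true]
  · unfold cut
    rw [if_neg (by omega)]
    have : m - (j - i) + 1 + (j - i - 1) = m := by omega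
    rw [this]

/-- The data of an induced cycle through `v`, the other vertices being `p 0, …, p m`. -/
structure Hole (G : SimpleGraph V) (S : Set V) (v : V) (m : ℕ) (p : ℕ → V) : Prop where
  two : 2 ≤ m
  mem : ∀ t, t ≤ m → p t ∈ S
  ne : ∀ t, t ≤ m → p t ≠ v
  inj : ∀ s t, s < t → t ≤ m → p s ≠ p t
  adj : ∀ t, t < m → G.Adj (p t) (p (t + 1))
  nadj : ∀ s t, s + 1 < t → t ≤ m → ¬ G.Adj (p s) (p t)
  vadj0 : G.Adj v (p 0)
  vadjm : G.Adj v (p m)
  vnadj : ∀ t, 0 < t → t < m → ¬ G.Adj v (p t)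

lemma exists_hole {S : Set V} (hno : ¬ ITM diamond G) {v : V} (hv : Conn G (S \ {v}))
    {x y : V} (hx : x ∈ S) (hy : y ∈ S) (hvx : G.Adj v x) (hvy : G.Adj v y) (hxy : x ≠ y)
    (hnadj : ¬ G.Adj x y) : ∃ m p, Hole G S v m p := by
  have hex : ∃ m, ∃ p, WalkIn G (S \ {v}) m p ∧ G.Adj v (p 0) ∧ G.Adj v (p m) ∧ p 0 ≠ p m ∧
      ¬ G.Adj (p 0) (p m) := by
    obtain ⟨m, p, h1, h2, h3, h4⟩ := hv.exists_walk (a := x) (b := y) ⟨hx, hvx.ne.symm⟩
      ⟨hy, hvy.ne.symm⟩
    exact ⟨m, p, ⟨h3, h4⟩, by rw [h1]; exact hvx, by rw [h2]; exact hvy, by rw [h1, h2]; exact hxy,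
      by rw [h1, h2]; exact hnadj⟩
  obtain ⟨m, ⟨p, hw, h0, hm, hne, hna⟩, hmin⟩ : ∃ m, (∃ p, WalkIn G (S \ {v}) m p ∧ G.Adj v (p 0) ∧
      G.Adj v (p m) ∧ p 0 ≠ p m ∧ ¬ G.Adj (p 0) (p m)) ∧ ∀ m' < m, ¬ ∃ p, WalkIn G (S \ {v}) m' p ∧
      G.Adj v (p 0) ∧ G.Adj v (p m') ∧ p 0 ≠ p m' ∧ ¬ G.Adj (p 0) (p m') :=
    ⟨Nat.find hex, Nat.find_spec hex, fun m' hm' => Nat.find_min hex hm'⟩
  have hm2 : 2 ≤ m := by
    by_contra hcon
    have : m = 0 ∨ m = 1 := by omega
    rcases this with rfl | rfl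
    · exact hne rfl
    · exact hna (hw.1 0 (by omega))
  refine ⟨m, p, hm2, fun t ht => (hw.2 t ht).1, fun t ht => (hw.2 t ht).2, ?_, hw.1, ?_, h0, hm, ?_⟩
  · intro s t hst ht heq
    obtain ⟨q, hq, e0, em⟩ := hw.shortcut_eq hst ht heq
    exact hmin _ (by omega) ⟨q, hq, by rw [e0]; exact h0, by rw [em]; exact hm,
      by rw [e0, em]; exact hne, by rw [e0, em]; exact hna⟩
  · intro s t hst ht hadj
    obtain ⟨q, hq, e0, em⟩ := hw.shortcut_adj hst ht hadj
    exact hmin _ (by omega) ⟨q, hq, by rw [e0]; exact h0, by rw [em]; exact hm,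
      by rw [e0, em]; exact hne, by rw [e0, em]; exact hna⟩
  · intro t ht1 ht2 hadj
    have c1 : p 0 = p t ∨ G.Adj (p 0) (p t) := by
      by_contra hcon
      rw [not_or] at hcon
      exact hmin t ht2 ⟨p, ⟨fun s hs => hw.1 s (by omega), fun s hs => hw.2 s (by omega)⟩, h0,
        hadj, hcon.1, hcon.2⟩
    have c2 : p t = p m ∨ G.Adj (p t) (p m) := by
      by_contra hcon
      rw [not_or] at hcon
      have e : m - t + t = m := by omega
      refine hmin (m - t) (by omega) ⟨fun s => p (s + t), ⟨?_, ?_⟩, ?_, ?_, ?_, ?_⟩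
      · intro s hs
        show G.Adj (p (s + t)) (p (s + 1 + t))
        have e2 : s + 1 + t = s + t + 1 := by omega
        rw [e2]
        exact hw.1 (s + t) (by omega)
      · intro s hs
        exact hw.2 (s + t) (by omega)
      · show G.Adj v (p (0 + t))
        rw [Nat.zero_add]; exact hadj
      · show G.Adj v (p (m - t + t))
        rw [e]; exact hm
      · show p (0 + t) ≠ p (m - t + t)
        rw [Nat.zero_add, e]; exact hcon.1
      · show ¬ G.Adj (p (0 + t)) (p (m - t + t))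
        rw [Nat.zero_add, e]; exact hcon.2
    rcases c1 with c1 | c1
    · rcases c2 with c2 | c2
      · exact hne (c1.trans c2)
      · exact hna (c1 ▸ c2)
    · rcases c2 with c2 | c2
      · exact hna (c2 ▸ c1)
      · apply hno
        refine theta_adj (a := v) (b := p t) hadj (X1 := {p 0}) (X2 := {p m}) ?_ ?_ ?_
        · refine ⟨Conn.single G _, ?_, ?_, ⟨_, rfl, h0⟩, ⟨_, rfl, c1.symm⟩⟩
          · intro h; exact h0.ne h
          · intro h; exact c1.ne h.symm
        · refine ⟨Conn.single G _, ?_, ?_, ⟨_, rfl, hm⟩, ⟨_, rfl, c2⟩⟩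
          · intro h; exact hm.ne h
          · intro h; exact c2.ne h
        · rintro a rfl b rfl
          exact ⟨hne, hna⟩

lemma Hole.inj' {S : Set V} {v : V} {m : ℕ} {p : ℕ → V} (h : Hole G S v m p) {s t : ℕ}
    (hs : s ≤ m) (ht : t ≤ m) (heq : p s = p t) : s = t := by
  rcases lt_trichotomy s t with h1 | h1 | h1
  · exact absurd heq (h.inj s t h1 ht)
  · exact h1
  · exact absurd heq.symm (h.inj t s h1 hs)

lemma Hole.nadj' {S : Set V} {v : V} {m : ℕ} {p : ℕ → V} (h : Hole G S v m p) {s t : ℕ}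
    (hs : s ≤ m) (ht : t ≤ m) (h1 : s ≠ t) (h2 : s ≠ t + 1) (h3 : t ≠ s + 1) :
    p s ≠ p t ∧ ¬ G.Adj (p s) (p t) := by
  refine ⟨fun h4 => h1 (h.inj' hs ht h4), ?_⟩
  rcases lt_or_gt_of_ne h1 with h4 | h4
  · exact h.nadj s t (by omega) ht
  · intro h5
    exact h.nadj t s (by omega) hs h5.symm

/-- The degree of `v` is two. -/
lemma Hole.degree {S : Set V} (hno : ¬ ITM diamond G) {v : V} (hv : Conn G (S \ {v}))
    {m : ℕ} {p : ℕ → V} (h : Hole G S v m p) {w : V} (hw : w ∈ S) (hvw : G.Adj v w) :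
    w = p 0 ∨ w = p m := by
  by_contra hcon
  rw [not_or] at hcon
  have hm := h.two
  let P : Set V := {x | ∃ t, t ≤ m ∧ x = p t}
  let Y : Set V := {x | x ∈ S ∧ x ≠ v ∧ x ∉ P}
  have hwP : w ∉ P := by
    rintro ⟨t, ht, rfl⟩
    have h1 : t ≠ 0 := fun h => hcon.1 (by rw [h])
    have h2 : t ≠ m := fun h => hcon.2 (by rw [h])
    exact h.vnadj t (by omega) (by omega) hvw
  have hex : ∃ t, ∃ q, WalkIn G Y t q ∧ G.Adj v (q 0) ∧ ∃ j, j ≤ m ∧ G.Adj (q t) (p j) := by
    let R : Set V := {y | ∃ t q, WalkIn G Y t q ∧ G.Adj v (q 0) ∧ q t = y}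
    by_contra hcon2
    have hR : R = S \ {v} := by
      apply hv R
      · rintro y ⟨t, q, h1, h2, rfl⟩
        have := h1.2 t le_rfl
        exact ⟨this.1, this.2.1⟩
      · exact ⟨w, 0, fun _ => w, ⟨fun t ht => by omega, fun t _ => ⟨hw, hvw.ne.symm, hwP⟩⟩, hvw, rfl⟩
      · rintro x ⟨t, q, h1, h2, rfl⟩ y ⟨hyS, hyv⟩ hxy
        by_cases hyP : y ∈ P
        · exfalso
          obtain ⟨j, hj, rfl⟩ := hyP
          exact hcon2 ⟨t, q, h1, h2, j, hj, hxy⟩
        · refine ⟨t + 1, fun s => if s ≤ t then q s else y, ⟨?_, ?_⟩, ?_, ?_⟩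
          · intro i hi
            by_cases h5 : i + 1 ≤ t
            · simp only [h5, if_true, (by omega : i ≤ t)]
              exact h1.1 i (by omega)
            · have : i = t := by omega
              subst this
              simp only [le_rfl, if_true, h5, if_false]
              exact hxy
          · intro i hi
            by_cases h5 : i ≤ t
            · simp only [h5, if_true]; exact h1.2 i h5
            · simp only [h5, if_false]; exact ⟨hyS, hyv, hyP⟩
          · simpa using h2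
          · simp
    have h0 : p 0 ∈ R := by
      rw [hR]; exact ⟨h.mem 0 (Nat.zero_le _), h.ne 0 (Nat.zero_le _)⟩
    obtain ⟨t, q, h1, _, h3⟩ := h0
    exact (h1.2 t le_rfl).2.2 ⟨0, Nat.zero_le _, h3⟩
  obtain ⟨t, ⟨q, hq, hvq, hjex⟩, hmin⟩ : ∃ t, (∃ q, WalkIn G Y t q ∧ G.Adj v (q 0) ∧
      ∃ j, j ≤ m ∧ G.Adj (q t) (p j)) ∧ ∀ t' < t, ¬ ∃ q, WalkIn G Y t' q ∧ G.Adj v (q 0) ∧
      ∃ j, j ≤ m ∧ G.Adj (q t') (p j) :=
    ⟨Nat.find hex, Nat.find_spec hex, fun m' hm' => Nat.find_min hex hm'⟩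
  have hqP : ∀ i, i ≤ t → ∀ s, s ≤ m → q i ≠ p s := by
    intro i hi s hs heq
    exact (hq.2 i hi).2.2 ⟨s, hs, heq⟩
  have hqv : ∀ i, i ≤ t → q i ≠ v := fun i hi => (hq.2 i hi).2.1
  have hq1 : ∀ i, 0 < i → i ≤ t → ¬ G.Adj v (q i) := by
    intro i hi1 hi2 hadj
    refine hmin (t - i) (by omega) ⟨fun s => q (s + i), ⟨?_, ?_⟩, ?_, ?_⟩
    · intro s hs
      show G.Adj (q (s + i)) (q (s + 1 + i))
      have e2 : s + 1 + i = s + i + 1 := by omega
      rw [e2]
      exact hq.1 (s + i) (by omega)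
    · intro s hs
      exact hq.2 (s + i) (by omega)
    · show G.Adj v (q (0 + i))
      rw [Nat.zero_add]; exact hadj
    · show ∃ j, j ≤ m ∧ G.Adj (q (t - i + i)) (p j)
      have : t - i + i = t := by omega
      rw [this]
      exact hjex
  have hq2 : ∀ i, i < t → ∀ s, s ≤ m → ¬ G.Adj (q i) (p s) := by
    intro i hi s hs hadj
    exact hmin i hi ⟨q, ⟨fun s hs => hq.1 s (by omega), fun s hs => hq.2 s (by omega)⟩, hvq, s, hs,
      hadj⟩
  -- first and last neighbours of `q t` on the path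
  obtain ⟨i₀, ⟨hi₀m, hi₀⟩, hi₀min⟩ : ∃ i, (i ≤ m ∧ G.Adj (q t) (p i)) ∧
      ∀ j < i, ¬ (j ≤ m ∧ G.Adj (q t) (p j)) :=
    ⟨Nat.find hjex, Nat.find_spec hjex, fun m' hm' => Nat.find_min hjex hm'⟩
  have hjex' : ∃ d, d ≤ m ∧ G.Adj (q t) (p (m - d)) :=
    ⟨m - i₀, by omega, by
      have : m - (m - i₀) = i₀ := by omega
      rw [this]; exact hi₀⟩
  obtain ⟨d, ⟨hdm, hd⟩, hdmin⟩ : ∃ i, (i ≤ m ∧ G.Adj (q t) (p (m - i))) ∧
      ∀ j < i, ¬ (j ≤ m ∧ G.Adj (q t) (p (m - j))) :=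
    ⟨Nat.find hjex', Nat.find_spec hjex', fun m' hm' => Nat.find_min hjex' hm'⟩
  obtain ⟨j₀, hj₀⟩ : ∃ j₀, j₀ = m - d := ⟨_, rfl⟩
  rw [← hj₀] at hd
  have hj₀m : j₀ ≤ m := by omega
  have hlow : ∀ s, s < i₀ → ¬ G.Adj (q t) (p s) := fun s hs h' =>
    hi₀min s hs ⟨by omega, h'⟩
  have hhigh : ∀ s, j₀ < s → s ≤ m → ¬ G.Adj (q t) (p s) := fun s hs hs2 h' =>
    hdmin (m - s) (by omega) ⟨by omega, by
      have : m - (m - s) = s := by omega
      rw [this]; exact h'⟩
  have hij : i₀ ≤ j₀ := by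
    by_contra hlt
    exact hhigh i₀ (by omega) hi₀m hi₀
  -- basic facts on sets
  have connP : ∀ i j, j ≤ m → Conn G (Seg p i j) := fun i j hj =>
    Conn.seg p i j (fun t _ ht => h.adj t (by omega))
  have connQ : ∀ j, j ≤ t → Conn G (Seg q 0 j) := fun j hj =>
    Conn.seg q 0 j (fun s _ hs => hq.1 s (by omega))
  have vP : ∀ i j, j ≤ m → v ∉ Seg p i j := by
    rintro i j hj ⟨s, _, hs, h1⟩
    exact h.ne s (by omega) h1.symm
  have vQ : ∀ j, j ≤ t → v ∉ Seg q 0 j := by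
    rintro j hj ⟨s, _, hs, h1⟩
    exact hqv s (by omega) h1.symm
  have antiPP : ∀ i j i' j', j' ≤ m → j + 1 < i' → Anti G (Seg p i j) (Seg p i' j') := by
    rintro i j i' j' hj' hlt _ ⟨s, hs1, hs2, rfl⟩ _ ⟨s', hs1', hs2', rfl⟩
    exact ⟨h.inj s s' (by omega) (by omega), h.nadj s s' (by omega) (by omega)⟩
  have antiPQ : ∀ i j, j ≤ m → (∀ s, i ≤ s → s ≤ j → ¬ G.Adj (q t) (p s)) →
      Anti G (Seg p i j) (Seg q 0 t) := by
    rintro i j hj hnone _ ⟨s, hs1, hs2, rfl⟩ _ ⟨s', hs1', hs2', rfl⟩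
    refine ⟨(hqP s' hs2' s (by omega)).symm, ?_⟩
    intro hadj
    rcases Nat.lt_or_ge s' t with h1 | h1
    · exact hq2 s' h1 s (by omega) hadj.symm
    · have : s' = t := le_antisymm hs2' h1
      subst this
      exact hnone s hs1 hs2 hadj.symm
  apply hno
  rcases Nat.lt_or_ge i₀ j₀ with hlt | hge
  swap
  · -- a single neighbour
    have hji : j₀ = i₀ := le_antisymm hge hij
    subst hji
    rcases Nat.eq_zero_or_pos j₀ with h0 | hpos
    · subst h0
      refine theta_adj h.vadj0 (X1 := Seg p 1 m) (X2 := Seg q 0 t) ?_ ?_ ?_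
      · refine ⟨connP _ _ le_rfl, vP _ _ le_rfl, ?_, ⟨p m, ⟨m, by omega, le_rfl, rfl⟩, h.vadjm⟩,
          ⟨p 1, ⟨1, le_rfl, by omega, rfl⟩, h.adj 0 (by omega)⟩⟩
        rintro ⟨s, hs1, hs2, h1⟩
        exact h.inj 0 s (by omega) hs2 h1
      · refine ⟨connQ _ le_rfl, vQ _ le_rfl, ?_, ⟨q 0, ⟨0, le_rfl, Nat.zero_le _, rfl⟩, hvq⟩,
          ⟨q t, ⟨t, Nat.zero_le _, le_rfl, rfl⟩, hi₀.symm⟩⟩
        rintro ⟨s, hs1, hs2, h1⟩
        exact hqP s hs2 0 (Nat.zero_le _) h1.symm
      · exact antiPQ 1 m le_rfl (fun s hs1 hs2 => hhigh s (by omega) hs2)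
    · rcases Nat.lt_or_ge j₀ m with hjm | hjm
      · refine theta_nonadj (a := v) (b := p j₀) (h.ne j₀ hj₀m).symm (h.vnadj j₀ hpos hjm)
          (X1 := Seg p 0 (j₀ - 1)) (X2 := Seg p (j₀ + 1) m) (X3 := Seg q 0 t) ?_ ?_ ?_ ?_ ?_ ?_
        · refine ⟨connP _ _ (by omega), vP _ _ (by omega), ?_,
            ⟨p 0, ⟨0, le_rfl, by omega, rfl⟩, h.vadj0⟩,
            ⟨p (j₀ - 1), ⟨j₀ - 1, by omega, le_rfl, rfl⟩, ?_⟩⟩
          · rintro ⟨s, hs1, hs2, h1⟩
            exact h.inj s j₀ (by omega) hj₀m h1.symm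
          · have := h.adj (j₀ - 1) (by omega)
            rw [Nat.sub_add_cancel hpos] at this
            exact this.symm
        · refine ⟨connP _ _ le_rfl, vP _ _ le_rfl, ?_,
            ⟨p m, ⟨m, by omega, le_rfl, rfl⟩, h.vadjm⟩,
            ⟨p (j₀ + 1), ⟨j₀ + 1, le_rfl, by omega, rfl⟩, h.adj j₀ hjm⟩⟩
          rintro ⟨s, hs1, hs2, h1⟩
          exact h.inj j₀ s (by omega) hs2 h1
        · refine ⟨connQ _ le_rfl, vQ _ le_rfl, ?_, ⟨q 0, ⟨0, le_rfl, Nat.zero_le _, rfl⟩, hvq⟩,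
            ⟨q t, ⟨t, Nat.zero_le _, le_rfl, rfl⟩, hi₀.symm⟩⟩
          rintro ⟨s, hs1, hs2, h1⟩
          exact hqP s hs2 j₀ hj₀m h1.symm
        · exact antiPP _ _ _ _ le_rfl (by omega)
        · exact antiPQ 0 _ (by omega) (fun s _ hs2 => hlow s (by omega))
        · exact antiPQ _ m le_rfl (fun s hs1 hs2 => hhigh s (by omega) hs2)
      · have hjm' : j₀ = m := le_antisymm hj₀m hjm
        subst hjm'
        refine theta_adj h.vadjm (X1 := Seg p 0 (j₀ - 1)) (X2 := Seg q 0 t) ?_ ?_ ?_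
        · refine ⟨connP _ _ (by omega), vP _ _ (by omega), ?_,
            ⟨p 0, ⟨0, le_rfl, by omega, rfl⟩, h.vadj0⟩,
            ⟨p (j₀ - 1), ⟨j₀ - 1, by omega, le_rfl, rfl⟩, ?_⟩⟩
          · rintro ⟨s, hs1, hs2, h1⟩
            exact h.inj s j₀ (by omega) le_rfl h1.symm
          · have := h.adj (j₀ - 1) (by omega)
            rw [Nat.sub_add_cancel hpos] at this
            exact this.symm
        · refine ⟨connQ _ le_rfl, vQ _ le_rfl, ?_, ⟨q 0, ⟨0, le_rfl, Nat.zero_le _, rfl⟩, hvq⟩,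
            ⟨q t, ⟨t, Nat.zero_le _, le_rfl, rfl⟩, hi₀.symm⟩⟩
          rintro ⟨s, hs1, hs2, h1⟩
          exact hqP s hs2 j₀ le_rfl h1.symm
        · exact antiPQ 0 _ (by omega) (fun s _ hs2 => hlow s (by omega))
  rcases Nat.lt_or_ge (i₀ + 1) j₀ with hlt2 | hge2
  · -- two far neighbours
    have A1 : Att G (Seg p 0 i₀) v (q t) := by
      refine ⟨connP _ _ (by omega), vP _ _ (by omega), ?_,
        ⟨p 0, ⟨0, le_rfl, Nat.zero_le _, rfl⟩, h.vadj0⟩,
        ⟨p i₀, ⟨i₀, Nat.zero_le _, le_rfl, rfl⟩, hi₀⟩⟩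
      rintro ⟨s, hs1, hs2, h1⟩
      exact hqP t le_rfl s (by omega) h1
    have A2 : Att G (Seg p j₀ m) v (q t) := by
      refine ⟨connP _ _ le_rfl, vP _ _ le_rfl, ?_,
        ⟨p m, ⟨m, by omega, le_rfl, rfl⟩, h.vadjm⟩,
        ⟨p j₀, ⟨j₀, le_rfl, by omega, rfl⟩, hd⟩⟩
      rintro ⟨s, hs1, hs2, h1⟩
      exact hqP t le_rfl s (by omega) h1
    have A12 : Anti G (Seg p 0 i₀) (Seg p j₀ m) := antiPP _ _ _ _ le_rfl hlt2
    rcases Nat.eq_zero_or_pos t with ht | ht
    · subst ht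
      exact theta_adj hvq A1 A2 A12
    · refine theta_nonadj (a := v) (b := q t) (hqv t le_rfl).symm (hq1 t ht le_rfl)
        A1 A2 (X3 := Seg q 0 (t - 1)) ?_ A12 ?_ ?_
      · refine ⟨connQ _ (by omega), vQ _ (by omega), ?_,
          ⟨q 0, ⟨0, le_rfl, Nat.zero_le _, rfl⟩, hvq⟩,
          ⟨q (t - 1), ⟨t - 1, Nat.zero_le _, le_rfl, rfl⟩, ?_⟩⟩
        · rintro ⟨s, hs1, hs2, h1⟩
          rw [h1] at hi₀
          exact hq2 s (by omega) i₀ hi₀m hi₀
        · have := hq.1 (t - 1) (by omega)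
          rw [Nat.sub_add_cancel ht] at this
          exact this.symm
      · rintro _ ⟨s, hs1, hs2, rfl⟩ _ ⟨s', hs1', hs2', rfl⟩
        exact ⟨(hqP s' (by omega) s (by omega)).symm, fun h' => hq2 s' (by omega) s (by omega) h'.symm⟩
      · rintro _ ⟨s, hs1, hs2, rfl⟩ _ ⟨s', hs1', hs2', rfl⟩
        exact ⟨(hqP s' (by omega) s (by omega)).symm, fun h' => hq2 s' (by omega) s (by omega) h'.symm⟩
  · -- two consecutive neighbours
    have hji : j₀ = i₀ + 1 := by omega
    subst hji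
    rcases Nat.eq_zero_or_pos t with ht | ht
    · subst ht
      rcases Nat.lt_or_ge (i₀ + 1) m with h1 | h1
      · refine theta_adj (a := q 0) (b := p i₀) hi₀ (X1 := {p (i₀ + 1)})
          (X2 := {v} ∪ (if i₀ = 0 then ∅ else Seg p 0 (i₀ - 1))) ?_ ?_ ?_
        · refine ⟨Conn.single G _, ?_, ?_, ⟨_, rfl, hd⟩, ⟨_, rfl, h.adj i₀ (by omega)⟩⟩
          · intro h'; exact hqP 0 le_rfl _ hj₀m h'
          · intro h'; exact h.inj i₀ (i₀ + 1) (by omega) hj₀m h'
        · by_cases h0 : i₀ = 0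
          · subst h0
            simp only [if_true, Set.union_empty]
            exact ⟨Conn.single G _, hqv 0 le_rfl, h.ne 0 (Nat.zero_le _), ⟨v, rfl, hvq.symm⟩,
              ⟨v, rfl, h.vadj0.symm⟩⟩
          · simp only [h0, if_false]
            refine ⟨(Conn.single G _).union (connP _ _ (by omega))
              ⟨v, rfl, p 0, ⟨0, le_rfl, by omega, rfl⟩, h.vadj0⟩, ?_, ?_, ⟨v, Or.inl rfl, hvq.symm⟩,
              ⟨p (i₀ - 1), Or.inr ⟨i₀ - 1, by omega, le_rfl, rfl⟩, ?_⟩⟩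
            · rintro (h' | ⟨s, hs1, hs2, h'⟩)
              · exact hqv 0 le_rfl h'
              · exact hqP 0 le_rfl s (by omega) h'
            · rintro (h' | ⟨s, hs1, hs2, h'⟩)
              · exact h.ne i₀ (by omega) h'
              · exact h.inj s i₀ (by omega) (by omega) h'.symm
            · have := h.adj (i₀ - 1) (by omega)
              rw [Nat.sub_add_cancel (by omega)] at this
              exact this.symm
        · have base : p (i₀ + 1) ≠ v ∧ ¬ G.Adj (p (i₀ + 1)) v :=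
            ⟨h.ne _ hj₀m, fun h' => h.vnadj (i₀ + 1) (by omega) h1 h'.symm⟩
          rintro _ rfl y hy
          by_cases h0 : i₀ = 0
          · subst h0
            simp only [if_true, Set.union_empty, Set.mem_singleton_iff] at hy
            subst hy
            exact base
          · simp only [h0, if_false] at hy
            rcases hy with rfl | ⟨s, hs1, hs2, rfl⟩
            · exact base
            · exact h.nadj' hj₀m (by omega) (by omega) (by omega) (by omega)
      · have him : i₀ + 1 = m := by omega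
        refine theta_adj (a := q 0) (b := p (i₀ + 1)) hd (X1 := {p i₀}) (X2 := {v}) ?_ ?_ ?_
        · refine ⟨Conn.single G _, ?_, ?_, ⟨_, rfl, hi₀⟩, ⟨_, rfl, (h.adj i₀ (by omega)).symm⟩⟩
          · intro h'; exact hqP 0 le_rfl _ hi₀m h'
          · intro h'; exact h.inj i₀ (i₀ + 1) (by omega) hj₀m h'.symm
        · refine ⟨Conn.single G _, hqv 0 le_rfl, h.ne _ hj₀m, ⟨v, rfl, hvq.symm⟩, ⟨v, rfl, ?_⟩⟩
          rw [him]
          exact h.vadjm.symm
        · rintro _ rfl _ rfl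
          exact ⟨h.ne i₀ hi₀m, fun h' => h.vnadj i₀ (by omega) (by omega) h'.symm⟩
    · -- `q t` is not adjacent to `v`
      let X2 : Set V := (if i₀ = 0 then {v} else {v} ∪ Seg p 0 (i₀ - 1)) ∪
        (if i₀ + 1 = m then ∅ else Seg p (i₀ + 2) m)
      have hX2 : ∀ y ∈ X2, y = v ∨ ∃ s, s ≤ m ∧ s ≠ i₀ ∧ s ≠ i₀ + 1 ∧ y = p s := by
        rintro y (hy | hy)
        · by_cases h0 : i₀ = 0
          · simp only [h0, if_true] at hy
            exact Or.inl hy
          · simp only [h0, if_false] at hy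
            rcases hy with hy | ⟨s, hs1, hs2, rfl⟩
            · exact Or.inl hy
            · exact Or.inr ⟨s, by omega, by omega, by omega, rfl⟩
        · by_cases h0 : i₀ + 1 = m
          · simp only [h0, if_true] at hy
            exact absurd hy (Set.notMem_empty y)
          · simp only [h0, if_false] at hy
            obtain ⟨s, hs1, hs2, rfl⟩ := hy
            exact Or.inr ⟨s, by omega, by omega, by omega, rfl⟩
      have hvX2 : v ∈ (if i₀ = 0 then ({v} : Set V) else {v} ∪ Seg p 0 (i₀ - 1)) := by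
        by_cases h0 : i₀ = 0
        · simp [h0]
        · simp [h0]
      have conn1 : Conn G (if i₀ = 0 then ({v} : Set V) else {v} ∪ Seg p 0 (i₀ - 1)) := by
        by_cases h0 : i₀ = 0
        · simp only [h0, if_true]; exact Conn.single G _
        · simp only [h0, if_false]
          exact (Conn.single G _).union (connP _ _ (by omega))
            ⟨v, rfl, p 0, ⟨0, le_rfl, by omega, rfl⟩, h.vadj0⟩
      have connX2 : Conn G X2 := by
        by_cases h0 : i₀ + 1 = m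
        · simp only [X2]
          rw [if_pos h0, Set.union_empty]
          exact conn1
        · simp only [X2]
          rw [if_neg h0]
          exact conn1.union (connP _ _ le_rfl) ⟨v, hvX2, p m, ⟨m, by omega, le_rfl, rfl⟩, h.vadjm⟩
      refine theta_adj (a := p i₀) (b := p (i₀ + 1)) (h.adj i₀ (by omega)) (X1 := {q t})
        (X2 := X2) ?_ ?_ ?_
      · refine ⟨Conn.single G _, ?_, ?_, ⟨_, rfl, hi₀.symm⟩, ⟨_, rfl, hd.symm⟩⟩
        · intro h'; exact hqP t le_rfl _ hi₀m h'.symm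
        · intro h'; exact hqP t le_rfl _ hj₀m h'.symm
      · refine ⟨connX2, ?_, ?_, ?_, ?_⟩
        · intro h'
          rcases hX2 _ h' with h' | ⟨s, hs1, hs2, hs3, h'⟩
          · exact h.ne i₀ hi₀m h'
          · exact hs2 (h.inj' hi₀m hs1 h').symm
        · intro h'
          rcases hX2 _ h' with h' | ⟨s, hs1, hs2, hs3, h'⟩
          · exact h.ne _ hj₀m h'
          · exact hs3 (h.inj' hj₀m hs1 h').symm
        · by_cases h0 : i₀ = 0
          · refine ⟨v, Or.inl hvX2, ?_⟩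
            rw [h0]; exact h.vadj0.symm
          · refine ⟨p (i₀ - 1), Or.inl ?_, ?_⟩
            · rw [if_neg h0]
              exact Or.inr ⟨i₀ - 1, by omega, le_rfl, rfl⟩
            · have := h.adj (i₀ - 1) (by omega)
              rw [Nat.sub_add_cancel (by omega)] at this
              exact this.symm
        · by_cases h0 : i₀ + 1 = m
          · refine ⟨v, Or.inl hvX2, ?_⟩
            rw [h0]; exact h.vadjm.symm
          · refine ⟨p (i₀ + 2), Or.inr ?_, h.adj (i₀ + 1) (by omega)⟩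
            rw [if_neg h0]
            exact ⟨i₀ + 2, le_rfl, by omega, rfl⟩
      · rintro _ rfl y hy
        rcases hX2 y hy with rfl | ⟨s, hs1, hs2, hs3, rfl⟩
        · exact ⟨hqv t le_rfl, fun h' => hq1 t ht le_rfl h'.symm⟩
        · refine ⟨hqP t le_rfl s hs1, ?_⟩
          rcases Nat.lt_or_ge s i₀ with h1 | h1
          · exact hlow s h1
          · exact hhigh s (by omega) hs1

end Pool.Agent.H192R2.CW
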