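import Pool.Agent.H192R2.CW.Upper

set_option autoImplicit false

namespace Pool.Agent.H192R2.CW

open Classical

variable {V : Type} {k : ℕ}

/-- Adding a vertex with a fresh label `j`, joined to the vertices whose label is in `L`. -/
lemma D.addVertex {G : SimpleGraph V} {T : Set V} {a : V} (ha : a ∉ T)
    {l : V → Option (Fin k)} (h : D k G.Adj T l) (j : Fin k) (hj : ∀ x ∈ T, l x ≠ some j)
    (L : Finset (Fin k)) (hjL : j ∉ L)
    (hadj : ∀ x ∈ T, (G.Adj a x ↔ ∃ i ∈ L, l x = some i)) :
    D k G.Adj (insert a T) (fun x => if x = a then some j else l x) := by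
  have key : ∀ L : Finset (Fin k), j ∉ L →
      D k (fun x y => (x ∈ T ∧ y ∈ T ∧ G.Adj x y) ∨ (x = a ∧ y ∈ T ∧ ∃ i ∈ L, l y = some i) ∨
        (y = a ∧ x ∈ T ∧ ∃ i ∈ L, l x = some i)) (insert a T)
        (fun x => if x = a then some j else l x) := by
    intro L
    induction L using Finset.induction_on with
    | empty =>
      intro _
      have hT : D k (fun x y => (x ∈ T ∧ y ∈ T ∧ G.Adj x y) ∨ (x = a ∧ y ∈ T ∧
          ∃ i ∈ (∅ : Finset (Fin k)), l y = some i) ∨ (y = a ∧ x ∈ T ∧
          ∃ i ∈ (∅ : Finset (Fin k)), l x = some i)) T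
          (fun x => if x = a then some j else l x) := by
        refine h.congr ?_ ?_
        · intro x hx y hy
          have hxa : x ≠ a := fun h => ha (h ▸ hx)
          have hya : y ≠ a := fun h => ha (h ▸ hy)
          simp [hx, hy]
        · intro x hx
          have hxa : x ≠ a := fun h => ha (h ▸ hx)
          simp [hxa]
      have hU : insert a T = {a} ∪ T := rfl
      rw [hU]
      refine D.union _ {a} T _ ?_ ?_ ?_ hT
      · rw [Set.disjoint_left]
        rintro x rfl hx
        exact ha hx
      · rintro x rfl y hy
        simp [ha]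
      · refine D.vertex _ a j _ ?_ ?_
        · simp [ha]
        · simp
    | insert i L hiL ih =>
      intro hj'
      rw [Finset.mem_insert, not_or] at hj'
      refine D.join _ _ _ _ i j (fun h => hj'.1 h.symm) ?_ (ih hj'.2)
      intro x hx y hy
      rcases hx with rfl | hx <;> rcases hy with rfl | hy
      · simp [ha, Ne.symm hj'.1, hj'.1]
      · have hya : y ≠ x := fun h => ha (h ▸ hy)
        have : l y ≠ some j := hj y hy
        simp only [ha, false_and, hy, true_and, Finset.mem_insert, hya, if_false, if_true,
          false_or, or_false, this, and_false, Option.some.injEq, hj'.1]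
        constructor
        · rintro ⟨t, rfl | ht, h⟩
          · exact Or.inr h
          · exact Or.inl ⟨t, ht, h⟩
        · rintro (⟨t, ht, h⟩ | h)
          · exact ⟨t, Or.inr ht, h⟩
          · exact ⟨i, Or.inl rfl, h⟩
      · have hxa : x ≠ y := fun h => ha (h ▸ hx)
        have : l x ≠ some j := hj x hx
        simp only [ha, false_and, hx, true_and, Finset.mem_insert, hxa, if_false, if_true,
          false_or, or_false, this, and_false, Option.some.injEq, hj'.1, and_true]
        constructor
        · rintro ⟨t, rfl | ht, h⟩
          · exact Or.inr h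
          · exact Or.inl ⟨t, ht, h⟩
        · rintro (⟨t, ht, h⟩ | h)
          · exact ⟨t, Or.inr ht, h⟩
          · exact ⟨i, Or.inl rfl, h⟩
      · have hxa : x ≠ a := fun h => ha (h ▸ hx)
        have hya : y ≠ a := fun h => ha (h ▸ hy)
        simp [hx, hy, hxa, hya, hj x hx, hj y hy]
  refine (key L hjL).congr ?_ (fun _ _ => rfl)
  intro x hx y hy
  rcases hx with rfl | hx <;> rcases hy with rfl | hy
  · simp [ha]
  · have hya : y ≠ x := fun h => ha (h ▸ hy)
    rw [hadj y hy]
    simp [ha, hy, hya]
  · have hxa : x ≠ y := fun h => ha (h ▸ hx)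
    rw [G.adj_comm, hadj x hx]
    simp [ha, hx, hxa]
  · have hxa : x ≠ a := fun h => ha (h ▸ hx)
    have hya : y ≠ a := fun h => ha (h ▸ hy)
    simp [hx, hy, hxa, hya]

/-- Complete graphs. -/
lemma D.complete {G : SimpleGraph V} (s : Finset V) (hs : s.Nonempty)
    (h : ∀ x ∈ s, ∀ y ∈ s, x ≠ y → G.Adj x y) :
    D 3 G.Adj (s : Set V) (fun _ => some 0) := by
  induction hs using Finset.Nonempty.cons_induction with
  | singleton a =>
    rw [Finset.coe_singleton]
    exact D.vertex _ a 0 _ (G.loopless.irrefl a) rfl
  | cons a t hat ht ih =>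
    rw [Finset.coe_cons]
    have h1 := ih (fun x hx y hy => h x (Finset.mem_cons_of_mem hx) y (Finset.mem_cons_of_mem hy))
    have h2 := h1.addVertex (a := a) (by simpa using hat) 1 (by intro x _; simp) {0} (by decide)
      (by
        intro x hx
        have hx' : x ∈ t := by simpa using hx
        have : G.Adj a x := h a (Finset.mem_cons_self a t) x (Finset.mem_cons_of_mem hx')
          (fun h => hat (h ▸ hx'))
        simp [this])
    refine D.relabel _ _ _ _ 1 (some 0) ?_ h2
    intro x hx
    by_cases hxa : x = a
    · simp [hxa]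
    · simp [hxa]

/-- Complete graphs with a root. -/
lemma D.complete_rooted {G : SimpleGraph V} (s : Finset V) {r : V} (hr : r ∈ s)
    (h : ∀ x ∈ s, ∀ y ∈ s, x ≠ y → G.Adj x y) (i : Fin 3) :
    D 3 G.Adj (s : Set V) (fun x => if x = r then some i else none) := by
  by_cases he : (s.erase r).Nonempty
  · have h1 := D.complete (G := G) (s.erase r) he (fun x hx y hy =>
      h x (Finset.mem_of_mem_erase hx) y (Finset.mem_of_mem_erase hy))
    have h2 := h1.addVertex (a := r) (by simp) 1 (by intro x _; simp) {0} (by decide)
      (by
        intro x hx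
        have hx' : x ∈ s.erase r := Finset.mem_coe.1 hx
        have : G.Adj r x := h r hr x (Finset.mem_of_mem_erase hx') (Finset.ne_of_mem_erase hx').symm
        simp [this])
    have hU : insert r ((s.erase r : Finset V) : Set V) = (s : Set V) := by
      rw [← Finset.coe_insert, Finset.insert_erase hr]
    rw [hU] at h2
    have h3 := D.relabel _ _ _ (fun x => if x = r then some 1 else none) 0 none (by
      intro x hx
      by_cases hxr : x = r
      · simp [hxr]
      · simp [hxr]) h2
    refine D.relabel _ _ _ _ 1 (some i) ?_ h3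
    intro x hx
    by_cases hxr : x = r
    · simp [hxr]
    · simp [hxr]
  · have hs : (s : Set V) = {r} := by
      ext x
      simp only [Finset.mem_coe, Set.mem_singleton_iff]
      constructor
      · intro hx
        by_contra hne
        exact he ⟨x, Finset.mem_erase.2 ⟨hne, hx⟩⟩
      · rintro rfl; exact hr
    rw [hs]
    exact D.vertex _ r i _ (G.loopless.irrefl r) (by simp)

/-- Cycles with a root: `p 0, …, p m` is the path of the vertices different from `r`. -/
lemma D.cycle_rooted {G : SimpleGraph V} {r : V} {p : ℕ → V} {m : ℕ}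
    (hinj : ∀ i ≤ m, ∀ j ≤ m, p i = p j → i = j) (hr : ∀ i ≤ m, p i ≠ r)
    (hadj : ∀ i ≤ m, ∀ j ≤ m, i < j → (G.Adj (p i) (p j) ↔ j = i + 1))
    (hradj : ∀ i ≤ m, (G.Adj r (p i) ↔ i = 0 ∨ i = m)) (i : Fin 3) :
    D 3 G.Adj {x | x = r ∨ ∃ t ≤ m, x = p t} (fun x => if x = r then some i else none) := by
  have key : ∀ j ≤ m, D 3 G.Adj {x | x = r ∨ ∃ t ≤ j, x = p t}
      (fun x => if x = r then some 0 else if x = p j then some 1 else none) := by
    intro j
    induction j with
    | zero =>
      intro _
      have h1 : D 3 G.Adj {r} (fun _ => some 0) := D.vertex _ r 0 _ (G.loopless.irrefl r) rfl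
      have h2 := h1.addVertex (a := p 0) (by simpa using hr 0 (Nat.zero_le _)) 1
        (by intro x _; simp) {0} (by decide) (by
          rintro x rfl
          have : G.Adj x (p 0) := (hradj 0 (Nat.zero_le _)).2 (Or.inl rfl)
          simp [this.symm])
      have hU : {x | x = r ∨ ∃ t ≤ 0, x = p t} = insert (p 0) {r} := by
        ext x
        simp only [Nat.le_zero_eq, exists_eq_left, Set.mem_ofPred_eq, Set.mem_insert_iff,
          Set.mem_singleton_iff]
        tauto
      rw [hU]
      refine h2.congr (fun _ _ _ _ => Iff.rfl) ?_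
      intro x hx
      have h0 := hr 0 (Nat.zero_le _)
      by_cases hxr : x = r
      · simp [hxr, h0.symm]
      · rcases hx with rfl | hx
        · simp [hxr]
        · exact absurd hx hxr
    | succ j ih =>
      intro hj
      have h1 := ih (by omega)
      have hnew : p (j + 1) ∉ {x | x = r ∨ ∃ t ≤ j, x = p t} := by
        rintro (h | ⟨t, ht, h⟩)
        · exact hr _ hj h
        · have := hinj _ hj _ (by omega) h
          omega
      have h2 := h1.addVertex (a := p (j + 1)) hnew 2
        (by
          intro x _
          by_cases h1 : x = r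
          · simp [h1]
          · by_cases h2 : x = p j
            · have h3 : p j ≠ r := hr j (by omega)
              simp [h2, h3]
            · simp [h1, h2])
        (if j + 1 = m then {0, 1} else {1}) (by split_ifs <;> decide) (by
          intro x hx
          rcases hx with rfl | ⟨t, ht, rfl⟩
          · rw [G.adj_comm, hradj _ hj]
            by_cases hjm : j + 1 = m
            · simp [hjm]
            · simp [hjm]
          · have ht' : p t ≠ r := hr t (by omega)
            rw [G.adj_comm, hadj t (by omega) (j + 1) hj (by omega)]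
            by_cases htj : t = j
            · subst htj
              by_cases hjm : t + 1 = m
              · simp [hjm, ht']
              · simp [hjm, ht']
            · have h3 : p t ≠ p j := fun h => htj (hinj _ (by omega) _ (by omega) h)
              have h4 : ¬ (j + 1 = t + 1) := by omega
              simp only [h4, ht', if_false, h3, false_iff]
              simp)
      have hU : {x | x = r ∨ ∃ t ≤ j + 1, x = p t} =
          insert (p (j + 1)) {x | x = r ∨ ∃ t ≤ j, x = p t} := by
        ext x
        simp only [Set.mem_ofPred_eq, Set.mem_insert_iff]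
        constructor
        · rintro (h | ⟨t, ht, rfl⟩)
          · exact Or.inr (Or.inl h)
          · rcases Nat.lt_or_ge t (j + 1) with h | h
            · exact Or.inr (Or.inr ⟨t, by omega, rfl⟩)
            · have : t = j + 1 := by omega
              subst this
              exact Or.inl rfl
        · rintro (rfl | h | ⟨t, ht, rfl⟩)
          · exact Or.inr ⟨j + 1, le_rfl, rfl⟩
          · exact Or.inl h
          · exact Or.inr ⟨t, by omega, rfl⟩
      rw [hU]
      have hne : p (j + 1) ≠ p j := fun h => by
        have := hinj _ hj _ (by omega) h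
        omega
      have hner := hr (j + 1) hj
      have hner' := hr j (by omega)
      have h3 := D.relabel _ _ _ (fun x => if x = p (j + 1) then some 2 else
        if x = r then some 0 else none) 1 none (by
        intro x hx
        by_cases hx1 : x = p (j + 1)
        · subst hx1; simp
        · by_cases hx2 : x = r
          · subst hx2; simp [hner.symm]
          · by_cases hx3 : x = p j
            · subst hx3; simp [hne.symm, hner']
            · simp [hx1, hx2, hx3]) h2
      refine D.relabel _ _ _ _ 2 (some 1) ?_ h3
      intro x hx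
      by_cases hx1 : x = p (j + 1)
      · subst hx1; simp [hner]
      · by_cases hx2 : x = r
        · subst hx2; simp [hner.symm]
        · simp [hx1, hx2]
  have h1 := key m le_rfl
  have h2 := D.relabel _ _ _ (fun x => if x = r then some 0 else none) 1 none (by
    intro x hx
    by_cases hx1 : x = r
    · simp [hx1]
    · by_cases hx2 : x = p m
      · have := hr m le_rfl
        simp [hx2, this]
      · simp [hx1, hx2]) h1
  refine D.relabel _ _ _ _ 0 (some i) ?_ h2
  intro x hx
  by_cases hx1 : x = r
  · simp [hx1]
  · simp [hx1]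

/-! ### Graphs without induced path on four vertices -/

/-- No induced `P₄` (for a symmetric relation `R` and distinct vertices). -/
def P4Free (R : V → V → Prop) (s : Finset V) : Prop :=
  ∀ a ∈ s, ∀ b ∈ s, ∀ c ∈ s, ∀ d ∈ s, a ≠ b → a ≠ c → a ≠ d → b ≠ c → b ≠ d → c ≠ d →
    ¬ (R a b ∧ R b c ∧ R c d ∧ ¬ R a c ∧ ¬ R b d ∧ ¬ R a d)

/-- A partition of `s` into two nonempty parts with no or all pairs in between. -/
def HCut (R : V → V → Prop) (s : Finset V) : Prop :=
  ∃ A B : Finset V, A.Nonempty ∧ B.Nonempty ∧ Disjoint A B ∧ A ∪ B = s ∧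
    ((∀ x ∈ A, ∀ y ∈ B, ¬ R x y) ∨ (∀ x ∈ A, ∀ y ∈ B, R x y))

lemma HCut.compl {R : V → V → Prop} {s : Finset V} (h : HCut (fun x y => ¬ R x y) s) :
    HCut R s := by
  obtain ⟨A, B, h1, h2, h3, h4, h5⟩ := h
  refine ⟨A, B, h1, h2, h3, h4, ?_⟩
  rcases h5 with h5 | h5
  · right
    intro x hx y hy
    exact not_not.1 (h5 x hx y hy)
  · exact Or.inl h5

lemma P4Free.compl {R : V → V → Prop} (hsymm : ∀ x y, R x y → R y x) {s : Finset V}
    (h : P4Free R s) : P4Free (fun x y => ¬ R x y) s := by
  intro a ha b hb c hc d hd hab hac had hbc hbd hcd ⟨h1, h2, h3, h4, h5, h6⟩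
  refine h c hc a ha d hd b hb hac.symm hcd hbc.symm had hab hbd.symm
    ⟨hsymm _ _ (not_not.1 h4), not_not.1 h6, hsymm _ _ (not_not.1 h5), h3, h1,
      fun h => h2 (hsymm _ _ h)⟩

lemma hcut_extend {R : V → V → Prop} (hsymm : ∀ x y, R x y → R y x) {A B : Finset V} {v : V}
    (hA : A.Nonempty) (hB : B.Nonempty) (hAB : Disjoint A B) (hv : v ∉ A ∪ B)
    (hno : ∀ x ∈ A, ∀ y ∈ B, ¬ R x y) (hP : P4Free R (insert v (A ∪ B))) :
    HCut R (insert v (A ∪ B)) := by
  have hvA : v ∉ A := fun h => hv (Finset.mem_union_left _ h)
  have hvB : v ∉ B := fun h => hv (Finset.mem_union_right _ h)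
  have step : ∀ A B : Finset V, A.Nonempty → Disjoint A B → v ∉ A → v ∉ B →
      (∀ x ∈ A, ∀ y ∈ B, ¬ R x y) → P4Free R (insert v (A ∪ B)) →
      (∃ z ∈ B, R v z) → (∃ w ∈ A, ¬ R v w) → HCut R (insert v (A ∪ B)) := by
    intro A B hA hAB hvA hvB hno hP ⟨z, hz, hvz⟩ ⟨w, hw, hvw⟩
    let K := A.filter fun x => ¬ R v x
    refine ⟨K, insert v ((A \ K) ∪ B), ⟨w, Finset.mem_filter.2 ⟨hw, hvw⟩⟩, ⟨v, by simp⟩, ?_, ?_, ?_⟩
    · rw [Finset.disjoint_left]
      intro x hx hx2
      have hxA := (Finset.mem_filter.1 hx).1
      rw [Finset.mem_insert, Finset.mem_union, Finset.mem_sdiff] at hx2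
      rcases hx2 with rfl | ⟨_, h⟩ | h
      · exact hvA hxA
      · exact h hx
      · exact Finset.disjoint_left.1 hAB hxA h
    · ext x
      simp only [K, Finset.mem_union, Finset.mem_insert, Finset.mem_sdiff, Finset.mem_filter]
      tauto
    · left
      intro x hx y hy hxy
      have hxA := (Finset.mem_filter.1 hx).1
      have hvx := (Finset.mem_filter.1 hx).2
      rw [Finset.mem_insert, Finset.mem_union, Finset.mem_sdiff] at hy
      rcases hy with rfl | ⟨hyA, hyK⟩ | hyB
      · exact hvx (hsymm _ _ hxy)
      · have hvy : R v y := by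
          by_contra hcon
          exact hyK (Finset.mem_filter.2 ⟨hyA, hcon⟩)
        have hzA : ∀ t ∈ A, z ≠ t := fun t ht h => Finset.disjoint_left.1 hAB (h ▸ ht) hz
        refine hP z (by simp [hz]) v (by simp) y (by simp [hyA]) x (by simp [hxA]) ?_ (hzA y hyA)
          (hzA x hxA) ?_ ?_ ?_ ⟨hsymm _ _ hvz, hvy, hsymm _ _ hxy,
            fun h => hno y hyA z hz (hsymm _ _ h), hvx, fun h => hno x hxA z hz (hsymm _ _ h)⟩
        · exact fun h => hvB (h ▸ hz)
        · exact fun h => hvA (h ▸ hyA)
        · exact fun h => hvA (h ▸ hxA)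
        · rintro rfl; exact hvx hvy
      · exact hno x hxA y hyB hxy
  by_cases h1 : ∃ z ∈ A, R v z
  · by_cases h2 : ∃ z ∈ B, R v z
    · by_cases h3 : ∃ w ∈ A, ¬ R v w
      · exact step A B hA hAB hvA hvB hno hP h2 h3
      · by_cases h4 : ∃ w ∈ B, ¬ R v w
        · rw [Finset.union_comm] at hP ⊢
          exact step B A hB hAB.symm hvB hvA (fun x hx y hy h => hno y hy x hx (hsymm _ _ h)) hP
            h1 h4
        · push Not at h3 h4
          refine ⟨{v}, A ∪ B, by simp, hA.mono Finset.subset_union_left, ?_, ?_, Or.inr ?_⟩
          · rw [Finset.disjoint_singleton_left]; exact hv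
          · rfl
          · intro x hx y hy
            rw [Finset.mem_singleton] at hx
            subst hx
            rcases Finset.mem_union.1 hy with hy | hy
            · exact h3 y hy
            · exact h4 y hy
    · push Not at h2
      refine ⟨insert v A, B, ⟨v, by simp⟩, hB, ?_, ?_, Or.inl ?_⟩
      · rw [Finset.disjoint_insert_left]; exact ⟨hvB, hAB⟩
      · exact Finset.insert_union _ _ _
      · intro x hx y hy
        rcases Finset.mem_insert.1 hx with rfl | hx
        · exact h2 y hy
        · exact hno x hx y hy
  · push Not at h1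
    refine ⟨A, insert v B, hA, ⟨v, by simp⟩, ?_, ?_, Or.inl ?_⟩
    · rw [Finset.disjoint_insert_right]; exact ⟨hvA, hAB⟩
    · exact Finset.union_insert _ _ _
    · intro x hx y hy
      rcases Finset.mem_insert.1 hy with rfl | hy
      · exact fun h => h1 x hx (hsymm _ _ h)
      · exact hno x hx y hy

lemma hcut_of_P4Free {R : V → V → Prop} (hsymm : ∀ x y, R x y → R y x) (s : Finset V)
    (hs : 2 ≤ s.card) (hP : P4Free R s) : HCut R s := by
  induction s using Finset.induction_on with
  | empty => simp at hs
  | insert v t hvt ih =>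
    have hmono : P4Free R t := fun a ha b hb c hc d hd =>
      hP a (Finset.mem_insert_of_mem ha) b (Finset.mem_insert_of_mem hb) c
        (Finset.mem_insert_of_mem hc) d (Finset.mem_insert_of_mem hd)
    rw [Finset.card_insert_of_notMem hvt] at hs
    rcases Nat.lt_or_ge t.card 2 with h | h
    · have : t.card = 1 := by omega
      obtain ⟨w, rfl⟩ := Finset.card_eq_one.1 this
      refine ⟨{v}, {w}, by simp, by simp, by simpa using hvt, rfl, ?_⟩
      by_cases hvw : R v w
      · right; intro x hx y hy
        rw [Finset.mem_singleton] at hx hy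
        subst hx; subst hy; exact hvw
      · left; intro x hx y hy
        rw [Finset.mem_singleton] at hx hy
        subst hx; subst hy; exact hvw
    · obtain ⟨A, B, hA, hB, hAB, hU, hcase⟩ := ih h hmono
      subst hU
      rcases hcase with hno | hall
      · exact hcut_extend hsymm hA hB hAB hvt hno hP
      · apply HCut.compl
        refine hcut_extend (R := fun x y => ¬ R x y) (fun x y h h' => h (hsymm _ _ h')) hA hB hAB
          hvt (fun x hx y hy => not_not.2 (hall x hx y hy)) (hP.compl hsymm)

/-- Graphs without induced path on four vertices. -/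
lemma D.of_P4Free {G : SimpleGraph V} (n : ℕ) : ∀ (s : Finset V), s.card = n → s.Nonempty →
    P4Free G.Adj s → D 3 G.Adj (s : Set V) (fun _ => some 0) := by
  induction n using Nat.strong_induction_on with
  | _ n ih =>
    intro s hsn hs hP
    rcases Nat.lt_or_ge s.card 2 with h | h
    · have h0 := hs.card_pos
      have : s.card = 1 := by omega
      obtain ⟨w, rfl⟩ := Finset.card_eq_one.1 this
      rw [Finset.coe_singleton]
      exact D.vertex _ w 0 _ (G.loopless.irrefl w) rfl
    · obtain ⟨A, B, hA, hB, hAB, hU, hcase⟩ := hcut_of_P4Free (fun x y h => h.symm) s h hP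
      subst hU
      have hcard := Finset.card_union_of_disjoint hAB
      have hApos := hA.card_pos
      have hBpos := hB.card_pos
      have hA' := ih A.card (by omega) A rfl hA (fun a ha b hb c hc d hd =>
        hP a (Finset.mem_union_left _ ha) b (Finset.mem_union_left _ hb) c
          (Finset.mem_union_left _ hc) d (Finset.mem_union_left _ hd))
      have hB' := ih B.card (by omega) B rfl hB (fun a ha b hb c hc d hd =>
        hP a (Finset.mem_union_right _ ha) b (Finset.mem_union_right _ hb) c
          (Finset.mem_union_right _ hc) d (Finset.mem_union_right _ hd))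
      rw [Finset.coe_union]
      have hdis : Disjoint (A : Set V) (B : Set V) := by exact_mod_cast hAB
      rcases hcase with hno | hall
      · refine D.union _ _ _ _ hdis ?_ hA' hB'
        intro x hx y hy
        exact ⟨hno x (by simpa using hx) y (by simpa using hy),
          fun h => hno x (by simpa using hx) y (by simpa using hy) h.symm⟩
      · have hB2 := D.relabel _ _ _ (fun _ => some 1) 0 (some 1) (by intro x hx; simp) hB'
        let E : V → V → Prop := fun x y => G.Adj x y ∧ ((x ∈ A ∧ y ∈ A) ∨ (x ∈ B ∧ y ∈ B))
        let l : V → Option (Fin 3) := fun x => if x ∈ B then some 1 else some 0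
        have hnB : ∀ x ∈ A, x ∉ B := fun x hx => Finset.disjoint_left.1 hAB hx
        have hnA : ∀ x ∈ B, x ∉ A := fun x hx h => Finset.disjoint_left.1 hAB h hx
        have h1 : D 3 E (A : Set V) l := by
          refine hA'.congr ?_ ?_
          · intro x hx y hy
            have hx' : x ∈ A := by simpa using hx
            have hy' : y ∈ A := by simpa using hy
            simp [E, hx', hy']
          · intro x hx
            have hx' : x ∈ A := by simpa using hx
            simp [l, hnB x hx']
        have h2 : D 3 E (B : Set V) l := by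
          refine hB2.congr ?_ ?_
          · intro x hx y hy
            have hx' : x ∈ B := by simpa using hx
            have hy' : y ∈ B := by simpa using hy
            simp [E, hx', hy']
          · intro x hx
            have hx' : x ∈ B := by simpa using hx
            simp [l, hx']
        have h3 := D.union E _ _ l hdis (by
          intro x hx y hy
          have hx' : x ∈ A := by simpa using hx
          have hy' : y ∈ B := by simpa using hy
          simp [E, hx', hy', hnB x hx', hnA y hy']) h1 h2
        have h4 := D.join E G.Adj _ l 0 1 (by decide) (by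
          intro x hx y hy
          have hx' : x ∈ A ∨ x ∈ B := by simpa using hx
          have hy' : y ∈ A ∨ y ∈ B := by simpa using hy
          rcases hx' with hx' | hx' <;> rcases hy' with hy' | hy'
          · simp [E, l, hx', hy', hnB x hx', hnB y hy']
          · simp [E, l, hx', hy', hnB x hx', hnA y hy', hall x hx' y hy']
          · simp [E, l, hx', hy', hnA x hx', hnB y hy', (hall y hy' x hx').symm]
          · simp [E, l, hx', hy', hnA x hx', hnA y hy']) h3
        refine D.relabel _ _ _ _ 1 (some 0) ?_ h4
        intro x hx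
        by_cases hxB : x ∈ B
        · simp [l, hxB]
        · simp [l, hxB]

/-- It suffices to consider connected sets. -/
lemma D.of_components {G : SimpleGraph V} (hconn : ∀ s : Finset V, s.Nonempty →
    Conn G (s : Set V) → ∃ l, D 3 G.Adj (s : Set V) l) (n : ℕ) :
    ∀ s : Finset V, s.card = n → s.Nonempty → ∃ l, D 3 G.Adj (s : Set V) l := by
  induction n using Nat.strong_induction_on with
  | _ n ih =>
    intro s hsn hs
    by_cases hc : Conn G (s : Set V)
    · exact hconn s hs hc
    · unfold Conn at hc
      push Not at hc
      obtain ⟨T, hT, hTne, hcl, hne⟩ := hc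
      let A := s.filter fun x => x ∈ T
      let B := s.filter fun x => x ∉ T
      have hAT : (A : Set V) = T := by
        ext x
        simp only [A, Finset.coe_filter, Set.mem_ofPred_eq]
        exact ⟨fun h => h.2, fun h => ⟨by simpa using hT h, h⟩⟩
      have hU : A ∪ B = s := Finset.filter_union_filter_not_eq _ _
      have hdis : Disjoint A B := Finset.disjoint_filter_filter_not _ _ _
      have hA : A.Nonempty := by
        obtain ⟨x, hx⟩ := hTne
        exact ⟨x, by rw [← Finset.mem_coe, hAT]; exact hx⟩
      have hB : B.Nonempty := by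
        by_contra hB
        rw [Finset.not_nonempty_iff_eq_empty] at hB
        rw [hB, Finset.union_empty] at hU
        apply hne
        rw [← hAT, hU]
      have hcard := Finset.card_union_of_disjoint hdis
      rw [hU] at hcard
      have hApos := hA.card_pos
      have hBpos := hB.card_pos
      obtain ⟨l1, h1⟩ := ih A.card (by omega) A rfl hA
      obtain ⟨l2, h2⟩ := ih B.card (by omega) B rfl hB
      refine ⟨fun x => if x ∈ A then l1 x else l2 x, ?_⟩
      rw [← hU, Finset.coe_union]
      have hcross : ∀ x ∈ A, ∀ y ∈ B, ¬ G.Adj x y := by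
        intro x hx y hy hxy
        have hxT : x ∈ T := (Finset.mem_filter.1 hx).2
        have hyT : y ∉ T := (Finset.mem_filter.1 hy).2
        exact hyT (hcl x hxT y (by simpa using (Finset.mem_filter.1 hy).1) hxy)
      refine D.union _ _ _ _ (by exact_mod_cast hdis) ?_ (h1.congr (fun _ _ _ _ => Iff.rfl) ?_)
        (h2.congr (fun _ _ _ _ => Iff.rfl) ?_)
      · intro x hx y hy
        exact ⟨hcross x (by simpa using hx) y (by simpa using hy),
          fun h => hcross x (by simpa using hx) y (by simpa using hy) h.symm⟩
      · intro x hx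
        have : x ∈ A := by simpa using hx
        simp [this]
      · intro x hx
        have : x ∈ B := by simpa using hx
        have h' : x ∉ A := fun h => Finset.disjoint_left.1 hdis h this
        simp [h']

end Pool.Agent.H192R2.CW
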