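import Pool.Agent.H192R2.CW.Block
import Pool.Agent.H192R2.CW.Upper2

set_option autoImplicit false

namespace Pool.Agent.H192R2.CW

open Classical

variable {V : Type} {G : SimpleGraph V}

/-- A vertex with two nonadjacent neighbours has degree two. -/
lemma nbr_two {S : Set V} (hno : ¬ ITM diamond G) {v : V} (hv : Conn G (S \ {v}))
    {x y : V} (hx : x ∈ S) (hy : y ∈ S) (hvx : G.Adj v x) (hvy : G.Adj v y) (hxy : x ≠ y)
    (hnadj : ¬ G.Adj x y) {w : V} (hw : w ∈ S) (hvw : G.Adj v w) : w = x ∨ w = y := by
  obtain ⟨m, p, h⟩ := exists_hole hno hv hx hy hvx hvy hxy hnadj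
  have h1 := h.degree hno hv hx hvx
  have h2 := h.degree hno hv hy hvy
  have h3 := h.degree hno hv hw hvw
  rcases h1 with h1 | h1 <;> rcases h2 with h2 | h2 <;> rcases h3 with h3 | h3
  · exact Or.inl (h3.trans h1.symm)
  · exact absurd (h1.trans h2.symm) hxy
  · exact Or.inl (h3.trans h1.symm)
  · exact Or.inr (h3.trans h2.symm)
  · exact Or.inr (h3.trans h2.symm)
  · exact Or.inl (h3.trans h1.symm)
  · exact absurd (h1.trans h2.symm) hxy
  · exact Or.inl (h3.trans h1.symm)

/-- The structure of a block. -/
lemma block_structure {S : Set V} (hno : ¬ ITM diamond G) (hS : Conn G S)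
    (hcut : ∀ c ∈ S, Conn G (S \ {c})) {r : V} (hr : r ∈ S) :
    (∀ x ∈ S, ∀ y ∈ S, x ≠ y → G.Adj x y) ∨
    ∃ m p, Hole G S r m p ∧ S = {x | x = r ∨ ∃ t ≤ m, x = p t} := by
  by_cases hA : ∃ x ∈ S, ∃ y ∈ S, G.Adj r x ∧ G.Adj r y ∧ x ≠ y ∧ ¬ G.Adj x y
  · right
    obtain ⟨x, hx, y, hy, hrx, hry, hxy, hnadj⟩ := hA
    obtain ⟨m, p, h⟩ := exists_hole hno (hcut r hr) hx hy hrx hry hxy hnadj
    refine ⟨m, p, h, ?_⟩
    have hm := h.two
    symm
    apply hS
    · rintro z (rfl | ⟨t, ht, rfl⟩)
      · exact hr
      · exact h.mem t ht
    · exact ⟨r, Or.inl rfl⟩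
    · rintro z (rfl | ⟨t, ht, rfl⟩) w hw hzw
      · rcases h.degree hno (hcut z hr) hw hzw with rfl | rfl
        · exact Or.inr ⟨0, Nat.zero_le _, rfl⟩
        · exact Or.inr ⟨m, le_rfl, rfl⟩
      · have hpt := h.mem t ht
        rcases Nat.eq_zero_or_pos t with rfl | hpos
        · rcases nbr_two hno (hcut _ hpt) hr (h.mem 1 (by omega)) h.vadj0.symm
            (h.adj 0 (by omega)) (h.ne 1 (by omega)).symm (h.vnadj 1 (by omega) (by omega)) hw hzw
            with rfl | rfl
          · exact Or.inl rfl
          · exact Or.inr ⟨1, by omega, rfl⟩
        · have hprev : G.Adj (p t) (p (t - 1)) := by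
            have := h.adj (t - 1) (by omega)
            rw [Nat.sub_add_cancel hpos] at this
            exact this.symm
          rcases Nat.lt_or_ge t m with hlt | hge
          · rcases nbr_two hno (hcut _ hpt) (h.mem (t - 1) (by omega)) (h.mem (t + 1) (by omega))
              hprev (h.adj t hlt) (h.inj (t - 1) (t + 1) (by omega) (by omega))
              (h.nadj (t - 1) (t + 1) (by omega) (by omega)) hw hzw with rfl | rfl
            · exact Or.inr ⟨t - 1, by omega, rfl⟩
            · exact Or.inr ⟨t + 1, by omega, rfl⟩
          · have : t = m := le_antisymm ht hge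
            subst this
            rcases nbr_two hno (hcut _ hpt) hr (h.mem (t - 1) (by omega)) h.vadjm.symm hprev
              (h.ne (t - 1) (by omega)).symm (h.vnadj (t - 1) (by omega) (by omega)) hw hzw
              with rfl | rfl
            · exact Or.inl rfl
            · exact Or.inr ⟨t - 1, by omega, rfl⟩
  · left
    push Not at hA
    by_cases hcl : ∀ w ∈ S, G.Adj r w → ∀ u ∈ S, G.Adj w u → u = r ∨ G.Adj r u
    · have hU : {x | x ∈ S ∧ (x = r ∨ G.Adj r x)} = S := by
        apply hS
        · intro x hx; exact hx.1
        · exact ⟨r, hr, Or.inl rfl⟩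
        · rintro x ⟨hx, hx2⟩ y hy hxy
          refine ⟨hy, ?_⟩
          rcases hx2 with rfl | hx2
          · exact Or.inr hxy
          · exact hcl x hx hx2 y hy hxy
      intro x hx y hy hxy
      rw [← hU] at hx hy
      rcases hx with ⟨hxS, rfl | hx2⟩
      · rcases hy with ⟨hyS, rfl | hy2⟩
        · exact absurd rfl hxy
        · exact hy2
      · rcases hy with ⟨hyS, rfl | hy2⟩
        · exact hx2.symm
        · exact hA x hxS y hyS hx2 hy2 hxy
    · exfalso
      push Not at hcl
      obtain ⟨w, hw, hrw, u, hu, hwu, hur, hru⟩ := hcl
      have hN : ∀ x ∈ S, G.Adj r x → x = w := by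
        intro x hx hrx
        by_contra hne
        have hxw := hA x hx w hw hrx hrw hne
        rcases nbr_two hno (hcut w hw) hr hu hrw.symm hwu (Ne.symm hur) hru hx hxw.symm
          with rfl | rfl
        · exact hrx.ne rfl
        · exact hru hrx
      have hT : ({r} : Set V) = S \ {w} := by
        apply hcut w hw
        · rintro _ rfl
          exact ⟨hr, hrw.ne⟩
        · exact ⟨r, rfl⟩
        · rintro _ rfl y ⟨hy, hyw⟩ hadj
          exact absurd (hN y hy hadj) hyw
      have : u ∈ ({r} : Set V) := by
        rw [hT]; exact ⟨hu, hwu.ne.symm⟩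
      exact hur this

lemma conn_side {S A : Set V} (hS : Conn G S) (hA : A ⊆ S) {c : V} (hc : c ∈ S)
    (hcl : ∀ x ∈ A, ∀ y ∈ S, G.Adj x y → y ∈ A ∨ y = c) (hcA : c ∉ A) :
    Conn G (insert c A) := by
  intro U hU hne hUcl
  by_cases hcU : c ∈ U
  · have hall : {x | x ∈ S ∧ (x ∈ A → x ∈ U)} = S := by
      apply hS
      · intro x hx; exact hx.1
      · exact ⟨c, hc, fun h => absurd h hcA⟩
      · rintro x ⟨hx, hx2⟩ y hy hxy
        refine ⟨hy, fun hyA => ?_⟩
        by_cases hxA : x ∈ A
        · exact hUcl x (hx2 hxA) y (Or.inr hyA) hxy
        · rcases hcl y hyA x hx hxy.symm with h | h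
          · exact absurd h hxA
          · subst h
            exact hUcl x hcU y (Or.inr hyA) hxy
    apply Set.Subset.antisymm hU
    rintro x (rfl | hx)
    · exact hcU
    · have : x ∈ {x | x ∈ S ∧ (x ∈ A → x ∈ U)} := by rw [hall]; exact hA hx
      exact this.2 hx
  · exfalso
    have hUA : U ⊆ A := by
      intro x hx
      rcases hU hx with h | h
      · exact absurd (h ▸ hx) hcU
      · exact h
    have hall : U = S := by
      apply hS U (hUA.trans hA) hne
      intro x hx y hy hxy
      rcases hcl x (hUA hx) y hy hxy with h | h
      · exact hUcl x hx y (Or.inr h) hxy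
      · exact hUcl x hx y (Or.inl h) hxy
    rw [hall] at hcU
    exact hcU hc

/-- Connected sets of graphs without induced topological minor diamond, with a root. -/
theorem D.of_diamondFree (hno : ¬ ITM diamond G) (n : ℕ) : ∀ s : Finset V, s.card = n →
    Conn G (s : Set V) → ∀ r ∈ s, ∀ i : Fin 3,
      D 3 G.Adj (s : Set V) (fun x => if x = r then some i else none) := by
  induction n using Nat.strong_induction_on with
  | _ n ih =>
    intro s hsn hconn r hr i
    by_cases hcut : ∀ c ∈ s, Conn G ((s : Set V) \ {c})
    · rcases block_structure hno hconn (fun c hc => hcut c (by simpa using hc))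
        (r := r) (by simpa using hr) with h | ⟨m, p, h, hs⟩
      · exact D.complete_rooted s hr (fun x hx y hy => h x (by simpa using hx) y (by simpa using hy)) i
      · rw [hs]
        apply D.cycle_rooted
        · intro a ha b hb hab
          exact h.inj' ha hb hab
        · exact h.ne
        · intro a ha b hb hab
          constructor
          · intro hadj
            by_contra hne
            exact h.nadj a b (by omega) hb hadj
          · rintro rfl
            exact h.adj a (by omega)
        · intro a ha
          constructor
          · intro hadj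
            by_contra hne
            rw [not_or] at hne
            exact h.vnadj a (by omega) (by omega) hadj
          · rintro (rfl | rfl)
            · exact h.vadj0
            · exact h.vadjm
    · push Not at hcut
      obtain ⟨c, hc, hnc⟩ := hcut
      unfold Conn at hnc
      push Not at hnc
      obtain ⟨T, hT, hTne, hcl, hne⟩ := hnc
      -- sides
      let A := s.filter fun x => x ∈ T
      let B := s.filter fun x => x ∉ T ∧ x ≠ c
      have hAT : ∀ x, x ∈ A ↔ x ∈ T := by
        intro x
        simp only [A, Finset.mem_filter]
        exact ⟨fun h => h.2, fun h => ⟨by simpa using (hT h).1, h⟩⟩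
      have hBm : ∀ x, x ∈ B ↔ x ∈ s ∧ x ∉ T ∧ x ≠ c := by
        intro x
        simp only [B, Finset.mem_filter]
      have hcA : c ∉ A := by
        rw [hAT]
        intro h
        exact (hT h).2 rfl
      have hcB : c ∉ B := by
        rw [hBm]
        intro h
        exact h.2.2 rfl
      have hA : A.Nonempty := by
        obtain ⟨x, hx⟩ := hTne
        exact ⟨x, (hAT x).2 hx⟩
      have hB : B.Nonempty := by
        by_contra hB
        apply hne
        apply Set.Subset.antisymm hT
        rintro x ⟨hx1, hx2⟩
        by_contra hxT
        exact hB ⟨x, (hBm x).2 ⟨by simpa using hx1, hxT, hx2⟩⟩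
      have hdis : Disjoint A B := by
        rw [Finset.disjoint_left]
        intro x hx hx2
        exact ((hBm x).1 hx2).2.1 ((hAT x).1 hx)
      have hAs : A ⊆ s := Finset.filter_subset _ _
      have hBs : B ⊆ s := Finset.filter_subset _ _
      have hU : insert c A ∪ insert c B = s := by
        ext x
        simp only [Finset.mem_union, Finset.mem_insert]
        constructor
        · rintro ((rfl | h) | (rfl | h))
          · exact hc
          · exact hAs h
          · exact hc
          · exact hBs h
        · intro hx
          by_cases hxc : x = c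
          · exact Or.inl (Or.inl hxc)
          · by_cases hxT : x ∈ T
            · exact Or.inl (Or.inr ((hAT x).2 hxT))
            · exact Or.inr (Or.inr ((hBm x).2 ⟨hx, hxT, hxc⟩))
      have hcross : ∀ x ∈ A, ∀ y ∈ B, ¬ G.Adj x y := by
        intro x hx y hy hxy
        have hy' := (hBm y).1 hy
        exact hy'.2.1 (hcl x ((hAT x).1 hx) y ⟨by simpa using hy'.1, hy'.2.2⟩ hxy)
      have hAcl : ∀ x ∈ (A : Set V), ∀ y ∈ (s : Set V), G.Adj x y → y ∈ (A : Set V) ∨ y = c := by
        intro x hx y hy hxy
        by_contra hcon
        rw [not_or] at hcon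
        refine hcross x (by simpa using hx) y ?_ hxy
        rw [hBm]
        exact ⟨by simpa using hy, fun h => hcon.1 (by
          rw [Finset.mem_coe, hAT]; exact h), hcon.2⟩
      have hBcl : ∀ x ∈ (B : Set V), ∀ y ∈ (s : Set V), G.Adj x y → y ∈ (B : Set V) ∨ y = c := by
        intro x hx y hy hxy
        by_contra hcon
        rw [not_or] at hcon
        have hyA : y ∈ A := by
          rw [hAT]
          by_contra hyT
          apply hcon.1
          rw [Finset.mem_coe, hBm]
          exact ⟨by simpa using hy, hyT, hcon.2⟩
        exact hcross y hyA x (by simpa using hx) hxy.symm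
      have hcs : c ∈ (s : Set V) := by simpa using hc
      have connA : Conn G ((insert c A : Finset V) : Set V) := by
        rw [Finset.coe_insert]
        exact conn_side hconn (by exact_mod_cast hAs) hcs hAcl (by simpa using hcA)
      have connB : Conn G ((insert c B : Finset V) : Set V) := by
        rw [Finset.coe_insert]
        exact conn_side hconn (by exact_mod_cast hBs) hcs hBcl (by simpa using hcB)
      have hcardU : A.card + B.card + 1 = s.card := by
        have h1 : insert c (A ∪ B) = s := by
          rw [← hU]
          ext x
          simp only [Finset.mem_union, Finset.mem_insert]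
          tauto
        rw [← h1, Finset.card_insert_of_notMem (by
          rw [Finset.mem_union, not_or]; exact ⟨hcA, hcB⟩), Finset.card_union_of_disjoint hdis]
      have hApos := hA.card_pos
      have hBpos := hB.card_pos
      have cA := Finset.card_insert_of_notMem hcA
      have cB := Finset.card_insert_of_notMem hcB
      have key : ∀ A B : Finset V, c ∉ A → c ∉ B → Disjoint A B →
          (∀ x ∈ A, ∀ y ∈ B, ¬ G.Adj x y) → r ∈ insert c A →
          D 3 G.Adj ((insert c A : Finset V) : Set V) (fun x => if x = r then some i else none) →
          (∀ j, D 3 G.Adj ((insert c B : Finset V) : Set V)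
            (fun x => if x = c then some j else none)) →
          D 3 G.Adj ((insert c A ∪ insert c B : Finset V) : Set V)
            (fun x => if x = r then some i else none) := by
        intro A B hcA hcB hdis hcross hr h1 h2
        rw [Finset.coe_union]
        refine D.glue h1 (c := c) (by simp) (by simp) ?_ h2 (fun _ _ _ _ => Iff.rfl)
          (fun _ _ _ _ => Iff.rfl) ?_ (fun _ _ => rfl) ?_
        · intro x hx hx2
          by_contra hxc
          have h3 : x ∈ A := by
            have : x ∈ insert c A := by simpa using hx
            rcases Finset.mem_insert.1 this with h | h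
            · exact absurd h hxc
            · exact h
          have h4 : x ∈ B := by
            have : x ∈ insert c B := by simpa using hx2
            rcases Finset.mem_insert.1 this with h | h
            · exact absurd h hxc
            · exact h
          exact Finset.disjoint_left.1 hdis h3 h4
        · intro x hx hxc y hy hyc
          have h3 : x ∈ A := by
            have : x ∈ insert c A := by simpa using hx
            rcases Finset.mem_insert.1 this with h | h
            · exact absurd h hxc
            · exact h
          have h4 : y ∈ B := by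
            have : y ∈ insert c B := by simpa using hy
            rcases Finset.mem_insert.1 this with h | h
            · exact absurd h hyc
            · exact h
          exact ⟨hcross x h3 y h4, fun h => hcross x h3 y h4 h.symm⟩
        · intro x hx hxc
          have h4 : x ∈ B := by
            have : x ∈ insert c B := by simpa using hx
            rcases Finset.mem_insert.1 this with h | h
            · exact absurd h hxc
            · exact h
          have hxr : x ≠ r := by
            rintro rfl
            rcases Finset.mem_insert.1 hr with h | h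
            · exact hxc h
            · exact Finset.disjoint_left.1 hdis h h4
          simp [hxr]
      have hr' : r ∈ insert c A ∪ insert c B := by rw [hU]; exact hr
      rcases Finset.mem_union.1 hr' with hrA | hrB
      · rw [← hU]
        exact key A B hcA hcB hdis hcross hrA
          (ih _ (by omega) _ rfl connA r hrA i)
          (fun j => ih _ (by omega) _ rfl connB c (Finset.mem_insert_self _ _) j)
      · rw [← hU, Finset.union_comm]
        exact key B A hcB hcA hdis.symm (fun x hx y hy h => hcross y hy x hx h.symm) hrB
          (ih _ (by omega) _ rfl connB r hrB i)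
          (fun j => ih _ (by omega) _ rfl connA c (Finset.mem_insert_self _ _) j)

end Pool.Agent.H192R2.CW
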