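import Mathlib

set_option autoImplicit false

/-!
# Induced topological minors and clique-width: definitions
-/

namespace Pool.Agent.H192R2.CW

/-- `H` is an induced topological minor of `G`: there are distinct branch vertices `f w` of `G`,
one for each vertex `w` of `H`, and for every edge `uv` of `H` a path `P u v` of `G` from `f u` to
`f v` (the path for `vu` being the path for `uv` traversed backwards), such that a path `P u v`
contains no branch vertices besides `f u` and `f v`, the paths of different edges have only branch
vertices in common, and the subgraph of `G` induced on all branch vertices and all vertices of the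
paths has no edges besides the edges of the paths. In other words this induced subgraph of `G` is
a subdivision of `H`. -/
def ITM {W V : Type} (H : SimpleGraph W) (G : SimpleGraph V) : Prop :=
  ∃ (f : W → V) (P : ∀ u v : W, H.Adj u v → G.Walk (f u) (f v)),
    Function.Injective f ∧
    (∀ u v h, (P u v h).IsPath) ∧
    (∀ u v h, P v u h.symm = (P u v h).reverse) ∧
    (∀ u v h w, f w ∈ (P u v h).support → w = u ∨ w = v) ∧
    (∀ u v h u' v' h', s(u, v) ≠ s(u', v') →
      ∀ x ∈ (P u v h).support, x ∈ (P u' v' h').support → ∃ w, x = f w) ∧
    (∀ x y, ((∃ w, x = f w) ∨ ∃ u v h, x ∈ (P u v h).support) →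
      ((∃ w, y = f w) ∨ ∃ u v h, y ∈ (P u v h).support) →
      G.Adj x y → ∃ u v h, s(x, y) ∈ (P u v h).edges)

/-- Expressions building labelled graphs with `k` labels: create a vertex with a given label, take
the disjoint union, join all vertices with label `i` to all vertices with label `j` (`i ≠ j`),
and give label `j` to all vertices with label `i`. -/
inductive Expr (k : ℕ) : Type
  | vertex (i : Fin k) : Expr k
  | union (a b : Expr k) : Expr k
  | join (i j : Fin k) (h : i ≠ j) (a : Expr k) : Expr k
  | relabel (i j : Fin k) (a : Expr k) : Expr k

namespace Expr

/-- The vertices of the graph built by an expression. -/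
def Verts {k : ℕ} : Expr k → Type
  | vertex _ => Unit
  | union a b => Verts a ⊕ Verts b
  | join _ _ _ a => Verts a
  | relabel _ _ a => Verts a

/-- The labels of the vertices of the graph built by an expression. -/
def label {k : ℕ} : (e : Expr k) → Verts e → Fin k
  | vertex i => fun _ => i
  | union a b => Sum.elim (label a) (label b)
  | join _ _ _ a => label a
  | relabel i j a => fun x => if label a x = i then j else label a x

/-- Adjacency in the graph built by an expression. -/
def Adj {k : ℕ} : (e : Expr k) → Verts e → Verts e → Prop
  | vertex _ => fun _ _ => False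
  | union a b => fun x y => match x, y with
      | Sum.inl x, Sum.inl y => Adj a x y
      | Sum.inr x, Sum.inr y => Adj b x y
      | _, _ => False
  | join i j _ a => fun x y => Adj a x y ∨ (label a x = i ∧ label a y = j) ∨
      (label a x = j ∧ label a y = i)
  | relabel _ _ a => Adj a

end Expr

/-- `G` can be built by an expression with `k` labels, that is, `G` has clique-width at
most `k`. -/
def CliqueWidthLE {V : Type} (G : SimpleGraph V) (k : ℕ) : Prop :=
  ∃ (e : Expr k) (φ : e.Verts ≃ V), ∀ x y, e.Adj x y ↔ G.Adj (φ x) (φ y)

/-- Clique-width is bounded on the class of the finite (nonempty) graphs which do not contain `H`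
as an induced topological minor. -/
def BoundedCliqueWidth {W : Type} (H : SimpleGraph W) : Prop :=
  ∃ k : ℕ, ∀ (V : Type) [Finite V] [Nonempty V] (G : SimpleGraph V),
    ¬ ITM H G → CliqueWidthLE G k

/-- The paw: a triangle `0, 1, 2` and a further vertex `3` adjacent to `0`. -/
def paw : SimpleGraph (Fin 4) := SimpleGraph.fromEdgeSet {s(0, 1), s(0, 2), s(1, 2), s(0, 3)}

/-- The diamond: `K₄` without the edge between `2` and `3`. -/
def diamond : SimpleGraph (Fin 4) :=
  SimpleGraph.fromEdgeSet {s(0, 1), s(0, 2), s(1, 2), s(0, 3), s(1, 3)}

end Pool.Agent.H192R2.CW
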