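import Pool.Agent.H192R2.CW.Lower

set_option autoImplicit false

namespace Pool.Agent.H192R2.CW

open Finset

variable {V : Type}

/-- A chain of consecutively adjacent vertices is connected. -/
lemma conn_of_chain (G : SimpleGraph V) {N : ℕ} (f : Fin N → V)
    (hf : ∀ t (h : t + 1 < N), G.Adj (f ⟨t, by omega⟩) (f ⟨t + 1, h⟩)) :
    Conn G (Set.range f) := by
  intro T hT ⟨x, hx⟩ hclosed
  apply Set.Subset.antisymm hT
  obtain ⟨⟨t₀, ht₀⟩, rfl⟩ := hT hx
  have up : ∀ t, t₀ ≤ t → ∀ (h : t < N), f ⟨t, h⟩ ∈ T := by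
    intro t ht
    induction t, ht using Nat.le_induction with
    | base => intro h; exact hx
    | succ t ht ih =>
      intro h
      exact hclosed _ (ih (by omega)) _ ⟨_, rfl⟩ (hf t h)
  have down : ∀ d t, t + d = t₀ → ∀ (h : t < N), f ⟨t, h⟩ ∈ T := by
    intro d
    induction d with
    | zero => intro t ht h; simp only [add_zero] at ht; subst ht; exact hx
    | succ d ih =>
      intro t ht h
      exact hclosed _ (ih (t + 1) (by omega) (by omega)) _ ⟨_, rfl⟩ (hf t (by omega)).symm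
  rintro _ ⟨⟨t, ht⟩, rfl⟩
  rcases le_total t₀ t with h | h
  · exact up t h ht
  · exact down (t₀ - t) t (by omega) ht

/-! ### The grid -/

/-- The `n × n` grid. -/
def grid (n : ℕ) : SimpleGraph (Fin n × Fin n) where
  Adj x y := (x.1 = y.1 ∧ (x.2.val + 1 = y.2.val ∨ y.2.val + 1 = x.2.val)) ∨
    (x.2 = y.2 ∧ (x.1.val + 1 = y.1.val ∨ y.1.val + 1 = x.1.val))
  symm := ⟨by
    rintro x y (⟨h1, h2⟩ | ⟨h1, h2⟩)
    · exact Or.inl ⟨h1.symm, h2.symm⟩
    · exact Or.inr ⟨h1.symm, h2.symm⟩⟩
  loopless := ⟨by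
    rintro x (⟨h1, h2⟩ | ⟨h1, h2⟩) <;> omega⟩

lemma grid_adj {n : ℕ} (x y : Fin n × Fin n) : (grid n).Adj x y ↔
    (x.1 = y.1 ∧ (x.2.val + 1 = y.2.val ∨ y.2.val + 1 = x.2.val)) ∨
    (x.2 = y.2 ∧ (x.1.val + 1 = y.1.val ∨ y.1.val + 1 = x.1.val)) := Iff.rfl

lemma grid_gridLike (n : ℕ) : GridLike (grid n) n n Prod.fst Prod.snd where
  row_card i := by
    have : (univ.filter fun v : Fin n × Fin n => v.1 = i) = {i} ×ˢ univ := by
      ext v
      rw [Finset.mem_product, Finset.mem_filter, Finset.mem_singleton]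
      exact ⟨fun h => ⟨h.2, Finset.mem_univ _⟩, fun h => ⟨Finset.mem_univ _, h.1⟩⟩
    rw [this, Finset.card_product]
    simp
  col_card i := by
    have : (univ.filter fun v : Fin n × Fin n => v.2 = i) = univ ×ˢ {i} := by
      ext v
      rw [Finset.mem_product, Finset.mem_filter, Finset.mem_singleton]
      exact ⟨fun h => ⟨Finset.mem_univ _, h.2⟩, fun h => ⟨Finset.mem_univ _, h.2⟩⟩
    rw [this, Finset.card_product]
    simp
  row_conn i := by
    have : {v : Fin n × Fin n | v.1 = i} = Set.range fun t : Fin n => (i, t) := by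
      ext v
      simp only [Set.mem_ofPred_eq, Set.mem_range]
      constructor
      · intro h; exact ⟨v.2, by rw [← h]⟩
      · rintro ⟨t, rfl⟩; rfl
    rw [this]
    apply conn_of_chain
    intro t h
    exact Or.inl ⟨rfl, Or.inl rfl⟩
  col_conn i := by
    have : {v : Fin n × Fin n | v.2 = i} = Set.range fun t : Fin n => (t, i) := by
      ext v
      simp only [Set.mem_ofPred_eq, Set.mem_range]
      constructor
      · intro h; exact ⟨v.1, by rw [← h]⟩
      · rintro ⟨t, rfl⟩; rfl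
    rw [this]
    apply conn_of_chain
    intro t h
    exact Or.inr ⟨rfl, Or.inl rfl⟩
  meet i j := ⟨(i, j), rfl, rfl⟩

lemma grid_degree (n : ℕ) (b : Fin n × Fin n) (S : Finset (Fin n × Fin n))
    (hS : ∀ a ∈ S, (grid n).Adj a b) : S.card ≤ 4 := by
  have : S.card ≤ (univ : Finset (Bool × Bool)).card := by
    apply Finset.card_le_card_of_injOn
      (fun y => (decide (y.1 = b.1), decide (b.1 ≤ y.1 ∧ b.2 ≤ y.2)))
    · intro _ _; simp
    · rintro ⟨y1, y2⟩ hy ⟨z1, z2⟩ hz h
      have h1 := hS _ hy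
      have h2 := hS _ hz
      rw [grid_adj] at h1 h2
      obtain ⟨b1, b2⟩ := b
      simp only [Prod.mk.injEq, decide_eq_decide, Fin.ext_iff, Fin.le_def] at h h1 h2 ⊢
      omega
  simpa using this

/-- The bipartition of the grid. -/
def gridSide (n : ℕ) (v : Fin n × Fin n) : Bool := decide ((v.1.val + v.2.val) % 2 = 0)

lemma gridSide_ne {n : ℕ} {x y : Fin n × Fin n} (h : (grid n).Adj x y) :
    gridSide n x ≠ gridSide n y := by
  rw [grid_adj] at h
  obtain ⟨x1, x2⟩ := x
  obtain ⟨y1, y2⟩ := y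
  simp only [gridSide, ne_eq, decide_eq_decide, Fin.ext_iff] at h ⊢
  omega

/-- The split graph obtained from the grid by making one side a clique. -/
def splitGrid (n : ℕ) : SimpleGraph (Fin n × Fin n) where
  Adj x y := x ≠ y ∧ ((grid n).Adj x y ∨ (gridSide n x = true ∧ gridSide n y = true))
  symm := ⟨by
    rintro x y ⟨h1, h2⟩
    exact ⟨h1.symm, h2.elim (fun h => Or.inl h.symm) (fun h => Or.inr ⟨h.2, h.1⟩)⟩⟩
  loopless := ⟨by
    rintro x ⟨h, _⟩
    exact h rfl⟩

lemma grid_lower {n k : ℕ} (hn : 2 ≤ n) (h : CliqueWidthLE (grid n)ᶜ k) : n ≤ 24 * k := by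
  have := (grid_gridLike n).lower_bound (G' := (grid n)ᶜ) (by omega) hn 4
    (fun b S hS => grid_degree n b S hS) (fun _ => true) (by
      intro a a' b _ h1 h2 h3
      simp only [SimpleGraph.compl_adj] at h3
      by_cases h4 : (grid n).Adj a b <;> by_cases h5 : (grid n).Adj a' b <;>
        simp_all) h
  omega

lemma splitGrid_lower {n k : ℕ} (hn : 2 ≤ n) (h : CliqueWidthLE (splitGrid n) k) :
    n ≤ 24 * k := by
  have := (grid_gridLike n).lower_bound (G' := splitGrid n) (by omega) hn 4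
    (fun b S hS => grid_degree n b S hS) (gridSide n) (by
      intro a a' b hs h1 h2 h3
      have h4 : (a ≠ b ∧ ((grid n).Adj a b ∨ (gridSide n a = true ∧ gridSide n b = true))) ↔
        (a' ≠ b ∧ ((grid n).Adj a' b ∨ (gridSide n a' = true ∧ gridSide n b = true))) := h3
      rw [← hs] at h4
      by_cases h5 : gridSide n a = true ∧ gridSide n b = true
      · constructor
        · intro h6
          exact absurd (h5.1.trans h5.2.symm) (gridSide_ne h6)
        · intro h6
          refine absurd ?_ (gridSide_ne h6)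
          rw [← hs]
          exact h5.1.trans h5.2.symm
      · have e1 : (a ≠ b ∧ ((grid n).Adj a b ∨ (gridSide n a = true ∧ gridSide n b = true))) ↔
            (grid n).Adj a b :=
          ⟨fun h => h.2.resolve_right h5, fun h => ⟨h1, Or.inl h⟩⟩
        have e2 : (a' ≠ b ∧ ((grid n).Adj a' b ∨ (gridSide n a = true ∧ gridSide n b = true))) ↔
            (grid n).Adj a' b :=
          ⟨fun h => h.2.resolve_right h5, fun h => ⟨h2, Or.inl h⟩⟩
        rw [e1, e2] at h4
        exact h4) h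
  omega

/-! ### The net -/

/-- The grid-like cubic graph in which every vertex lies in a triangle. In every cell the vertices
`0, 1, 2` and `3, 4, 5` form triangles. -/
def netT {n : ℕ} (x y : Fin n × Fin n × Fin 6) : Prop :=
  x.1 = y.1 ∧ x.2.1 = y.2.1 ∧ x.2.2.val / 3 = y.2.2.val / 3

/-- The remaining edges, directed. -/
def netD {n : ℕ} (x y : Fin n × Fin n × Fin 6) : Prop :=
  (x.1 = y.1 ∧ x.2.1 = y.2.1 ∧ x.2.2.val = 2 ∧ y.2.2.val = 3) ∨
  (x.1 = y.1 ∧ x.2.1.val + 1 = y.2.1.val ∧ x.2.2.val = 5 ∧ y.2.2.val = 0) ∨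
  (x.1.val + 1 = y.1.val ∧ x.2.1 = y.2.1 ∧ x.2.2.val = 1 ∧ y.2.2.val = 4)

/-- The net. -/
def net (n : ℕ) : SimpleGraph (Fin n × Fin n × Fin 6) where
  Adj x y := (netT x y ∧ x ≠ y) ∨ netD x y ∨ netD y x
  symm := ⟨by
    rintro x y (⟨h1, h2⟩ | h | h)
    · exact Or.inl ⟨⟨h1.1.symm, h1.2.1.symm, h1.2.2.symm⟩, h2.symm⟩
    · exact Or.inr (Or.inr h)
    · exact Or.inr (Or.inl h)⟩
  loopless := ⟨by
    rintro x (⟨h1, h2⟩ | h | h)
    · exact h2 rfl
    · unfold netD at h; omega
    · unfold netD at h; omega⟩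

lemma net_adj {n : ℕ} (x y : Fin n × Fin n × Fin 6) : (net n).Adj x y ↔
    (netT x y ∧ x ≠ y) ∨ netD x y ∨ netD y x := Iff.rfl

lemma netT_symm {n : ℕ} {x y : Fin n × Fin n × Fin 6} (h : netT x y) : netT y x :=
  ⟨h.1.symm, h.2.1.symm, h.2.2.symm⟩

lemma netT_trans {n : ℕ} {x y z : Fin n × Fin n × Fin 6} (h : netT x y) (h' : netT y z) :
    netT x z :=
  ⟨h.1.trans h'.1, h.2.1.trans h'.2.1, h.2.2.trans h'.2.2⟩

/-- Every vertex is on at most one edge outside the triangles. -/
lemma netD_unique {n : ℕ} {x y z : Fin n × Fin n × Fin 6} (h : netD x y ∨ netD y x)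
    (h' : netD x z ∨ netD z x) : y = z := by
  obtain ⟨x1, x2, x3⟩ := x
  obtain ⟨y1, y2, y3⟩ := y
  obtain ⟨z1, z2, z3⟩ := z
  simp only [netD, Prod.mk.injEq, Fin.ext_iff] at h h' ⊢
  omega

/-- A further vertex of a triangle is determined by two of them. -/
lemma netT_third {n : ℕ} {x y z w : Fin n × Fin n × Fin 6} (hxy : netT x y) (hxz : netT x z)
    (hxw : netT x w) (h1 : x ≠ y) (h2 : x ≠ z) (h3 : y ≠ z) (h4 : x ≠ w) (h5 : y ≠ w) :
    z = w := by
  obtain ⟨x1, x2, x3⟩ := x
  obtain ⟨y1, y2, y3⟩ := y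
  obtain ⟨z1, z2, z3⟩ := z
  obtain ⟨w1, w2, w3⟩ := w
  simp only [netT, Prod.mk.injEq, Fin.ext_iff, ne_eq, not_and] at *
  omega

lemma net_degree (n : ℕ) (b : Fin n × Fin n × Fin 6) (S : Finset (Fin n × Fin n × Fin 6))
    (hS : ∀ a ∈ S, (net n).Adj a b) : S.card ≤ 3 := by
  have : S.card ≤ (univ : Finset (Fin 3)).card := by
    classical
    apply Finset.card_le_card_of_injOn
      (fun y => if netT y b then (⟨y.2.2.val % 3, by omega⟩ : Fin 3) else ⟨b.2.2.val % 3, by omega⟩)
    · intro _ _; simp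
    · intro y hy z hz h
      have h1 := hS _ hy
      have h2 := hS _ hz
      rw [net_adj] at h1 h2
      have aux : ∀ u : Fin n × Fin n × Fin 6, netT u b → u ≠ b → u.2.2.val % 3 ≠ b.2.2.val % 3 := by
        rintro ⟨u1, u2, u3⟩ hu hub
        obtain ⟨b1, b2, b3⟩ := b
        simp only [netT, Prod.mk.injEq, Fin.ext_iff, ne_eq, not_and] at hu hub ⊢
        omega
      have hTadj : ∀ u : Fin n × Fin n × Fin 6, ((netT u b ∧ u ≠ b) ∨ netD u b ∨ netD b u) →
          netT u b → u ≠ b := by
        rintro u (h | h | h) _ rfl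
        · exact h.2 rfl
        · unfold netD at h; omega
        · unfold netD at h; omega
      by_cases ty : netT y b <;> by_cases tz : netT z b
      · simp only [ty, tz, if_true, Fin.mk.injEq] at h
        obtain ⟨y1, y2, y3⟩ := y
        obtain ⟨z1, z2, z3⟩ := z
        obtain ⟨b1, b2, b3⟩ := b
        simp only [netT, Prod.mk.injEq, Fin.ext_iff] at ty tz ⊢
        dsimp only at h
        omega
      · simp only [ty, tz, if_true, if_false, Fin.mk.injEq] at h
        exact absurd h (aux y ty (hTadj y h1 ty))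
      · simp only [ty, tz, if_true, if_false, Fin.mk.injEq] at h
        exact absurd h.symm (aux z tz (hTadj z h2 tz))
      · have h1' : netD b y ∨ netD y b := by tauto
        have h2' : netD b z ∨ netD z b := by tauto
        exact netD_unique h1' h2'
  simpa using this

/-- Among three distinct neighbours of a vertex there are two adjacent ones. -/
lemma net_nbrs {n : ℕ} {x a b c : Fin n × Fin n × Fin 6} (ha : (net n).Adj x a)
    (hb : (net n).Adj x b) (hc : (net n).Adj x c) (hab : a ≠ b) (hac : a ≠ c) (hbc : b ≠ c) :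
    (net n).Adj a b ∨ (net n).Adj a c ∨ (net n).Adj b c := by
  rw [net_adj] at ha hb hc
  rcases ha with ha | ha
  · rcases hb with hb | hb
    · exact Or.inl (Or.inl ⟨netT_trans (netT_symm ha.1) hb.1, hab⟩)
    · rcases hc with hc | hc
      · exact Or.inr (Or.inl (Or.inl ⟨netT_trans (netT_symm ha.1) hc.1, hac⟩))
      · exact absurd (netD_unique hb hc) hbc
  · rcases hb with hb | hb
    · rcases hc with hc | hc
      · exact Or.inr (Or.inr (Or.inl ⟨netT_trans (netT_symm hb.1) hc.1, hbc⟩))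
      · exact absurd (netD_unique ha hc) hac
    · exact absurd (netD_unique ha hb) hab

/-- Two adjacent vertices have at most one common neighbour. -/
lemma net_common {n : ℕ} {x y z w : Fin n × Fin n × Fin 6} (hxy : (net n).Adj x y)
    (hxz : (net n).Adj x z) (hyz : (net n).Adj y z) (hxw : (net n).Adj x w)
    (hyw : (net n).Adj y w) : z = w := by
  have nt : ∀ {u v : Fin n × Fin n × Fin 6}, netD u v ∨ netD v u → ¬ netT u v := by
    rintro ⟨u1, u2, u3⟩ ⟨v1, v2, v3⟩ h h'
    simp only [netT, netD, Fin.ext_iff] at h h'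
    omega
  -- common neighbours of adjacent vertices are in the triangle
  have key : ∀ v, (net n).Adj x v → (net n).Adj y v → netT x y ∧ netT x v := by
    intro v h1 h2
    have h2' := h2
    rw [net_adj] at hxy h1 h2
    rcases hxy with hxy | hxy
    · refine ⟨hxy.1, ?_⟩
      rcases h1 with h1 | h1
      · exact h1.1
      · exfalso
        rcases h2 with h2 | h2
        · exact nt h1 (netT_trans hxy.1 h2.1)
        · exact hxy.2 (netD_unique (x := v) h1.symm h2.symm)
    · exfalso
      rcases h1 with h1 | h1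
      · rcases h2 with h2 | h2
        · exact nt hxy (netT_trans h1.1 (netT_symm h2.1))
        · have := netD_unique (x := y) hxy.symm h2
          exact h1.2 this
      · have := netD_unique (x := x) hxy h1
        exact h2'.ne this
  obtain ⟨h1, h2⟩ := key z hxz hyz
  obtain ⟨_, h3⟩ := key w hxw hyw
  exact netT_third h1 h2 h3 hxy.ne hxz.ne hyz.ne hxw.ne hyw.ne

end Pool.Agent.H192R2.CW
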