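import Pool.Agent.H192R2.CW.Basic

set_option autoImplicit false

namespace Pool.Agent.H192R2.CW

open Finset

variable {V : Type}

instance Expr.finiteVerts {k : ℕ} : (e : Expr k) → Finite e.Verts
  | .vertex _ => inferInstanceAs (Finite Unit)
  | .union a b =>
    have := Expr.finiteVerts a
    have := Expr.finiteVerts b
    inferInstanceAs (Finite (a.Verts ⊕ b.Verts))
  | .join _ _ _ a => Expr.finiteVerts a
  | .relabel _ _ a => Expr.finiteVerts a

/-- Every expression building more than `t ≥ 1` vertices has a subexpression with more than `t`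
and at most `2 t` vertices. -/
lemma Expr.exists_cut {k : ℕ} (t : ℕ) (ht : 1 ≤ t) (e : Expr k) (he : t < Nat.card e.Verts) :
    ∃ (A : Set e.Verts) (l : e.Verts → Fin k), t < A.ncard ∧ A.ncard ≤ 2 * t ∧
      ∀ x ∈ A, ∀ y ∈ A, l x = l y → e.label x = e.label y ∧
        ∀ z, z ∉ A → (e.Adj x z ↔ e.Adj y z) := by
  induction e with
  | vertex i =>
    exfalso
    have : Nat.card (Expr.vertex i).Verts = 1 := by
      show Nat.card Unit = 1
      simp
    omega
  | union a b iha ihb =>
    by_cases ha : t < Nat.card a.Verts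
    · obtain ⟨A, l, h1, h2, h3⟩ := iha ha
      let f : a.Verts → (Expr.union a b).Verts := Sum.inl
      have hf : Function.Injective f := Sum.inl_injective
      let l' : (Expr.union a b).Verts → Fin k := Sum.elim l b.label
      refine ⟨f '' A, l', ?_, ?_, ?_⟩
      · rw [Set.ncard_image_of_injective _ hf]; exact h1
      · rw [Set.ncard_image_of_injective _ hf]; exact h2
      · rintro _ ⟨x, hx, rfl⟩ _ ⟨y, hy, rfl⟩ hl
        obtain ⟨h4, h5⟩ := h3 x hx y hy hl
        refine ⟨h4, ?_⟩
        rintro (z | z) hz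
        · exact h5 z (fun h => hz ⟨z, h, rfl⟩)
        · exact Iff.rfl
    by_cases hb : t < Nat.card b.Verts
    · obtain ⟨A, l, h1, h2, h3⟩ := ihb hb
      let f : b.Verts → (Expr.union a b).Verts := Sum.inr
      have hf : Function.Injective f := Sum.inr_injective
      let l' : (Expr.union a b).Verts → Fin k := Sum.elim a.label l
      refine ⟨f '' A, l', ?_, ?_, ?_⟩
      · rw [Set.ncard_image_of_injective _ hf]; exact h1
      · rw [Set.ncard_image_of_injective _ hf]; exact h2
      · rintro _ ⟨x, hx, rfl⟩ _ ⟨y, hy, rfl⟩ hl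
        obtain ⟨h4, h5⟩ := h3 x hx y hy hl
        refine ⟨h4, ?_⟩
        rintro (z | z) hz
        · exact Iff.rfl
        · exact h5 z (fun h => hz ⟨z, h, rfl⟩)
    · refine ⟨Set.univ, (Expr.union a b).label, ?_, ?_, ?_⟩
      · rw [Set.ncard_univ]; exact he
      · rw [Set.ncard_univ]
        have : Nat.card (Expr.union a b).Verts = Nat.card a.Verts + Nat.card b.Verts := by
          have h1 := Expr.finiteVerts a
          have h2 := Expr.finiteVerts b
          exact Nat.card_sum
        omega
      · intro x _ y _ h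
        exact ⟨h, fun z hz => absurd (Set.mem_univ z) hz⟩
  | join i j hij a iha =>
    obtain ⟨A, l, h1, h2, h3⟩ := iha he
    refine ⟨A, l, h1, h2, ?_⟩
    intro x hx y hy hl
    obtain ⟨h4, h5⟩ := h3 x hx y hy hl
    refine ⟨h4, fun z hz => ?_⟩
    show (a.Adj x z ∨ (a.label x = i ∧ a.label z = j) ∨ (a.label x = j ∧ a.label z = i)) ↔
      (a.Adj y z ∨ (a.label y = i ∧ a.label z = j) ∨ (a.label y = j ∧ a.label z = i))
    rw [h4, h5 z hz]
  | relabel i j a iha =>
    obtain ⟨A, l, h1, h2, h3⟩ := iha he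
    refine ⟨A, l, h1, h2, ?_⟩
    intro x hx y hy hl
    obtain ⟨h4, h5⟩ := h3 x hx y hy hl
    refine ⟨?_, h5⟩
    show (if a.label x = i then j else a.label x) = (if a.label y = i then j else a.label y)
    rw [h4]

/-- The same for a graph of clique-width at most `k`. -/
lemma CliqueWidthLE.exists_cut {G : SimpleGraph V} {k : ℕ} (h : CliqueWidthLE G k)
    (t : ℕ) (ht : 1 ≤ t) (hV : t < Nat.card V) :
    ∃ (A : Set V) (l : V → Fin k), t < A.ncard ∧ A.ncard ≤ 2 * t ∧
      ∀ x ∈ A, ∀ y ∈ A, l x = l y → ∀ z, z ∉ A → (G.Adj x z ↔ G.Adj y z) := by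
  obtain ⟨e, φ, hφ⟩ := h
  obtain ⟨A, l, h1, h2, h3⟩ := e.exists_cut t ht (by rw [Nat.card_congr φ]; exact hV)
  refine ⟨φ '' A, fun v => l (φ.symm v), ?_, ?_, ?_⟩
  · rw [Set.ncard_image_of_injective _ φ.injective]; exact h1
  · rw [Set.ncard_image_of_injective _ φ.injective]; exact h2
  · rintro _ ⟨x, hx, rfl⟩ _ ⟨y, hy, rfl⟩ hl z hz
    have hl' : l x = l y := by simpa using hl
    obtain ⟨_, h5⟩ := h3 x hx y hy hl'
    obtain ⟨z, rfl⟩ := φ.surjective z
    rw [← hφ, ← hφ]
    exact h5 z (fun h => hz ⟨z, h, rfl⟩)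

section grid

variable [Fintype V] [DecidableEq V]

/-- In a partition of a grid-like graph into two balanced parts, many rows or many columns contain
an edge between the parts: counting lemma for one direction. -/
lemma many_mixed {n m : ℕ} (hm : 0 < m) (r : V → Fin n)
    (hr : ∀ i, (univ.filter fun v => r v = i).card = m)
    (A : Finset V) (hA : 3 * A.card ≤ 2 * (n * m))
    (hnone : ∀ i, ∃ v, r v = i ∧ v ∈ A) :
    ∃ I : Finset (Fin n), n ≤ 3 * I.card ∧ ∀ i ∈ I, (∃ v, r v = i ∧ v ∈ A) ∧
      ∃ v, r v = i ∧ v ∉ A := by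
  classical
  let F : Finset (Fin n) := univ.filter fun i => ∀ v, r v = i → v ∈ A
  refine ⟨univ \ F, ?_, ?_⟩
  · have h1 : F.card * m ≤ A.card := by
      calc F.card * m = ∑ i ∈ F, (univ.filter fun v => r v = i).card := by
            rw [Finset.sum_congr rfl fun i _ => hr i, Finset.sum_const, smul_eq_mul]
        _ = (F.biUnion fun i => univ.filter fun v => r v = i).card := by
            rw [Finset.card_biUnion]
            intro i _ j _ hij
            rw [Function.onFun, Finset.disjoint_filter]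
            intro v _ h1 h2
            exact hij (h1.symm.trans h2)
        _ ≤ A.card := by
            apply Finset.card_le_card
            intro v hv
            rw [Finset.mem_biUnion] at hv
            obtain ⟨i, hi, hv⟩ := hv
            exact (Finset.mem_filter.1 hi).2 v (Finset.mem_filter.1 hv).2
    have h2 : (univ \ F).card = n - F.card := by
      rw [Finset.card_sdiff_of_subset (Finset.subset_univ _), Finset.card_univ, Fintype.card_fin]
    have h3 : 3 * F.card ≤ 2 * n := by
      have : 3 * (F.card * m) ≤ 2 * (n * m) := le_trans (Nat.mul_le_mul_left 3 h1) hA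
      have h4 : (3 * F.card) * m ≤ (2 * n) * m := by
        calc (3 * F.card) * m = 3 * (F.card * m) := by ring
          _ ≤ 2 * (n * m) := this
          _ = (2 * n) * m := by ring
      exact Nat.le_of_mul_le_mul_right h4 hm
    have h5 : F.card ≤ n := by
      have := Finset.card_le_univ F
      rwa [Fintype.card_fin] at this
    omega
  · intro i hi
    refine ⟨hnone i, ?_⟩
    have : i ∉ F := (Finset.mem_sdiff.1 hi).2
    simp only [F, Finset.mem_filter, Finset.mem_univ, true_and] at this
    push Not at this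
    exact this

/-- A grid-like graph: rows and columns are connected, and every row meets every column. -/
structure GridLike (G : SimpleGraph V) (n m : ℕ) (r c : V → Fin n) : Prop where
  row_card : ∀ i, (univ.filter fun v => r v = i).card = m
  col_card : ∀ i, (univ.filter fun v => c v = i).card = m
  row_conn : ∀ i, Conn G {v | r v = i}
  col_conn : ∀ i, Conn G {v | c v = i}
  meet : ∀ i j, ∃ v, r v = i ∧ c v = j

/-- A balanced set `A` in a grid-like graph has many disjoint edges leaving it. -/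
lemma GridLike.exists_crossing {G : SimpleGraph V} {n m : ℕ} {r c : V → Fin n}
    (hG : GridLike G n m r c) (hm : 0 < m)
    (A : Finset V) (hA : 3 * A.card ≤ 2 * (n * m)) (hA' : n * m ≤ 3 * A.card) :
    ∃ (ρ : V → Fin n) (I : Finset (Fin n)) (a b : Fin n → V), n ≤ 3 * I.card ∧
      ∀ i ∈ I, a i ∈ A ∧ b i ∉ A ∧ G.Adj (a i) (b i) ∧ ρ (a i) = i := by
  classical
  have hcardV : Fintype.card V = n * m := by
    have : (univ : Finset V) = (univ : Finset (Fin n)).biUnion
        fun i => univ.filter fun v => r v = i := by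
      ext v; simp
    rw [← Finset.card_univ, this, Finset.card_biUnion]
    · rw [Finset.sum_congr rfl fun i _ => hG.row_card i]
      simp
    · intro i _ j _ hij
      rw [Function.onFun, Finset.disjoint_filter]
      intro v _ h1 h2
      exact hij (h1.symm.trans h2)
  have hcompl : (Aᶜ).card = n * m - A.card := by
    rw [Finset.card_compl, hcardV]
  have hle : A.card ≤ n * m := by
    rw [← hcardV]; exact Finset.card_le_univ A
  have hAc : 3 * (Aᶜ).card ≤ 2 * (n * m) := by omega
  -- mixed lines suffice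
  have fin : ∀ (ρ : V → Fin n) (hconn : ∀ i, Conn G {v | ρ v = i}) (I : Finset (Fin n)),
      n ≤ 3 * I.card → (∀ i ∈ I, (∃ v, ρ v = i ∧ v ∈ A) ∧ ∃ v, ρ v = i ∧ v ∉ A) →
      ∃ (ρ : V → Fin n) (I : Finset (Fin n)) (a b : Fin n → V), n ≤ 3 * I.card ∧
      ∀ i ∈ I, a i ∈ A ∧ b i ∉ A ∧ G.Adj (a i) (b i) ∧ ρ (a i) = i := by
    intro ρ hconn I hI hmix
    rcases Nat.eq_zero_or_pos n with hn | hn
    · subst hn
      exact ⟨ρ, I, fun i => i.elim0, fun i => i.elim0, hI, fun i => i.elim0⟩
    have hne : Nonempty V := by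
      obtain ⟨v, _⟩ := hG.meet ⟨0, hn⟩ ⟨0, hn⟩
      exact ⟨v⟩
    have : ∀ i, ∃ p : V × V, i ∈ I → p.1 ∈ A ∧ p.2 ∉ A ∧ G.Adj p.1 p.2 ∧ ρ p.1 = i := by
      intro i
      by_cases hi : i ∈ I
      · obtain ⟨⟨v, hv1, hv2⟩, w, hw1, hw2⟩ := hmix i hi
        obtain ⟨x, hx, y, hy, hxA, hyA, hxy⟩ := (hconn i).exists_edge (A : Set V)
          ⟨v, hv1, hv2⟩ ⟨w, hw1, hw2⟩
        exact ⟨(x, y), fun _ => ⟨hxA, hyA, hxy, hx⟩⟩
      · exact ⟨(hne.some, hne.some), fun h => absurd h hi⟩
    choose p hp using this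
    exact ⟨ρ, I, fun i => (p i).1, fun i => (p i).2, hI, hp⟩
  by_cases h1 : ∀ i, ∃ v, r v = i ∧ v ∈ A
  · obtain ⟨I, hI, hmix⟩ := many_mixed hm r hG.row_card A hA h1
    exact fin r hG.row_conn I hI hmix
  by_cases h2 : ∀ i, ∃ v, r v = i ∧ v ∈ Aᶜ
  · obtain ⟨I, hI, hmix⟩ := many_mixed hm r hG.row_card Aᶜ hAc h2
    refine fin r hG.row_conn I hI fun i hi => ?_
    obtain ⟨⟨v, hv1, hv2⟩, w, hw1, hw2⟩ := hmix i hi
    rw [Finset.mem_compl] at hv2
    rw [Finset.mem_compl, not_not] at hw2
    exact ⟨⟨w, hw1, hw2⟩, v, hv1, hv2⟩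
  · push Not at h1 h2
    obtain ⟨i, hi⟩ := h1
    obtain ⟨i', hi'⟩ := h2
    refine fin c hG.col_conn univ (by rw [Finset.card_univ, Fintype.card_fin]; omega) ?_
    intro j _
    obtain ⟨v, hv1, hv2⟩ := hG.meet i j
    obtain ⟨w, hw1, hw2⟩ := hG.meet i' j
    have hw3 := hi' w hw1
    rw [Finset.mem_compl, not_not] at hw3
    exact ⟨⟨w, hw2, hw3⟩, v, hv2, hi v hv1⟩

/-- Lower bound for the clique-width of flips of grid-like graphs of bounded degree. -/
theorem GridLike.lower_bound {G G' : SimpleGraph V} {n m : ℕ} {r c : V → Fin n}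
    (hG : GridLike G n m r c) (hm : 0 < m) (hn : 2 ≤ n) (Δ : ℕ)
    (hΔ : ∀ (b : V) (S : Finset V), (∀ a ∈ S, G.Adj a b) → S.card ≤ Δ)
    (s : V → Bool)
    (hflip : ∀ a a' b, s a = s a' → a ≠ b → a' ≠ b → (G'.Adj a b ↔ G'.Adj a' b) →
      (G.Adj a b ↔ G.Adj a' b))
    {k : ℕ} (hk : CliqueWidthLE G' k) : n ≤ 6 * k * Δ := by
  classical
  have hmn : n ≤ m := by
    -- the row `0` meets every column
    rw [← hG.row_card ⟨0, by omega⟩]
    have : ∀ j : Fin n, ∃ v, r v = ⟨0, by omega⟩ ∧ c v = j := hG.meet _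
    choose v hv using this
    calc n = (univ : Finset (Fin n)).card := by simp
      _ ≤ _ := by
        apply Finset.card_le_card_of_injOn v
        · intro j _
          simp [(hv j).1]
        · intro j _ j' _ h
          rw [← (hv j).2, ← (hv j').2, h]
  have hcardV : Nat.card V = n * m := by
    rw [Nat.card_eq_fintype_card]
    have : (univ : Finset V) = (univ : Finset (Fin n)).biUnion
        fun i => univ.filter fun v => r v = i := by
      ext v; simp
    rw [← Finset.card_univ, this, Finset.card_biUnion]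
    · rw [Finset.sum_congr rfl fun i _ => hG.row_card i]
      simp
    · intro i _ j _ hij
      rw [Function.onFun, Finset.disjoint_filter]
      intro v _ h1 h2
      exact hij (h1.symm.trans h2)
  have hnm : 4 ≤ n * m := by
    calc 4 = 2 * 2 := rfl
      _ ≤ n * m := Nat.mul_le_mul hn (hn.trans hmn)
  obtain ⟨A, l, h1, h2, h3⟩ := hk.exists_cut ((n * m) / 3) (by omega) (by rw [hcardV]; omega)
  have hAcard : A.ncard = A.toFinset.card := Set.ncard_eq_toFinset_card' A
  obtain ⟨ρ, I, a, b, hI, hab⟩ := hG.exists_crossing hm A.toFinset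
    (by rw [← hAcard]; omega) (by rw [← hAcard]; omega)
  -- pigeonhole
  have hcard : I.card ≤ (2 * k) * Δ := by
    have hmaps : ∀ i ∈ I, (l (a i), s (a i)) ∈ (univ : Finset (Fin k × Bool)) :=
      fun i _ => Finset.mem_univ _
    have hbound : ∀ q ∈ (univ : Finset (Fin k × Bool)),
        (I.filter fun i => (l (a i), s (a i)) = q).card ≤ Δ := by
      intro q _
      by_cases hne : (I.filter fun i => (l (a i), s (a i)) = q).Nonempty
      · obtain ⟨i₀, hi₀⟩ := hne
        rw [Finset.mem_filter] at hi₀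
        obtain ⟨hi₀, hq₀⟩ := hi₀
        obtain ⟨ha₀, hb₀, hadj₀, hρ₀⟩ := hab i₀ hi₀
        rw [Set.mem_toFinset] at ha₀ hb₀
        have himg : ((I.filter fun i => (l (a i), s (a i)) = q).image a).card =
            (I.filter fun i => (l (a i), s (a i)) = q).card := by
          apply Finset.card_image_of_injOn
          intro i hi j hj hij
          have hi' := (hab i (Finset.mem_filter.1 hi).1).2.2.2
          have hj' := (hab j (Finset.mem_filter.1 hj).1).2.2.2
          rw [← hi', ← hj', hij]
        rw [← himg]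
        apply hΔ (b i₀)
        intro x hx
        rw [Finset.mem_image] at hx
        obtain ⟨i, hi, rfl⟩ := hx
        rw [Finset.mem_filter] at hi
        obtain ⟨hi, hq⟩ := hi
        obtain ⟨ha, hb, hadj, hρ⟩ := hab i hi
        rw [Set.mem_toFinset] at ha hb
        have hll : l (a i) = l (a i₀) := by
          rw [← hq₀] at hq
          exact (Prod.mk.inj hq).1
        have hss : s (a i) = s (a i₀) := by
          rw [← hq₀] at hq
          exact (Prod.mk.inj hq).2
        have h4 := h3 (a i) ha (a i₀) ha₀ hll (b i₀) hb₀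
        have hne1 : a i ≠ b i₀ := fun h => hb₀ (h ▸ ha)
        have hne2 : a i₀ ≠ b i₀ := fun h => hb₀ (h ▸ ha₀)
        exact (hflip (a i) (a i₀) (b i₀) hss hne1 hne2 h4).2 hadj₀
      · rw [Finset.not_nonempty_iff_eq_empty] at hne
        rw [hne]
        simp
    have := Finset.card_le_mul_card_image_of_maps_to hmaps Δ hbound
    simpa [mul_comm, mul_left_comm, mul_assoc] using this
  calc n ≤ 3 * I.card := hI
    _ ≤ 3 * ((2 * k) * Δ) := Nat.mul_le_mul_left 3 hcard
    _ = 6 * k * Δ := by ring

end grid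

end Pool.Agent.H192R2.CW
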