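import Pool.Agent.H192R2.CW.Families

set_option autoImplicit false

namespace Pool.Agent.H192R2.CW

open Finset

/-- The order in which a column path runs through a cell. -/
def colOrd : Fin 6 → Fin 6 := ![4, 5, 3, 2, 0, 1]

lemma colOrd_bij : Function.Bijective colOrd := by
  decide

lemma net_gridLike (n : ℕ) : GridLike (net n) n (n * 6) Prod.fst (fun v => v.2.1) where
  row_card i := by
    have : (univ.filter fun v : Fin n × Fin n × Fin 6 => v.1 = i) = {i} ×ˢ univ := by
      ext v
      rw [Finset.mem_product, Finset.mem_filter, Finset.mem_singleton]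
      exact ⟨fun h => ⟨h.2, Finset.mem_univ _⟩, fun h => ⟨Finset.mem_univ _, h.1⟩⟩
    rw [this, Finset.card_product]
    simp
  col_card i := by
    have : (univ.filter fun v : Fin n × Fin n × Fin 6 => v.2.1 = i) =
        univ ×ˢ ({i} ×ˢ univ) := by
      ext v
      rw [Finset.mem_product, Finset.mem_product, Finset.mem_filter, Finset.mem_singleton]
      exact ⟨fun h => ⟨Finset.mem_univ _, h.2, Finset.mem_univ _⟩,
        fun h => ⟨Finset.mem_univ _, h.2.1⟩⟩
    rw [this, Finset.card_product, Finset.card_product]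
    simp
  row_conn i := by
    have : {v : Fin n × Fin n × Fin 6 | v.1 = i} = Set.range fun t : Fin (n * 6) =>
        ((i, ⟨t.val / 6, by omega⟩, ⟨t.val % 6, by omega⟩) : Fin n × Fin n × Fin 6) := by
      ext v
      simp only [Set.mem_ofPred_eq, Set.mem_range]
      constructor
      · rintro rfl
        obtain ⟨v1, v2, v3⟩ := v
        refine ⟨⟨v2.val * 6 + v3.val, by omega⟩, ?_⟩
        simp only [Prod.mk.injEq, Fin.ext_iff, true_and]
        omega
      · rintro ⟨t, rfl⟩; rfl
    rw [this]
    apply conn_of_chain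
    intro t h
    rw [net_adj]
    by_cases h5 : t % 6 = 5
    · right; left; right; left
      refine ⟨rfl, ?_, h5, ?_⟩
      · show t / 6 + 1 = (t + 1) / 6
        omega
      · show (t + 1) % 6 = 0
        omega
    · by_cases h6 : t % 6 = 2
      · right; left; left
        refine ⟨rfl, ?_, h6, ?_⟩
        · apply Fin.ext
          show t / 6 = (t + 1) / 6
          omega
        · show (t + 1) % 6 = 3
          omega
      · left
        refine ⟨⟨rfl, ?_, ?_⟩, ?_⟩
        · apply Fin.ext
          show t / 6 = (t + 1) / 6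
          omega
        · show t % 6 / 3 = (t + 1) % 6 / 3
          omega
        · intro h7
          rw [Prod.mk.injEq, Prod.mk.injEq] at h7
          have : t % 6 = (t + 1) % 6 := congrArg Fin.val h7.2.2
          omega
  col_conn i := by
    have : {v : Fin n × Fin n × Fin 6 | v.2.1 = i} = Set.range fun t : Fin (n * 6) =>
        ((⟨t.val / 6, by omega⟩, i, colOrd ⟨t.val % 6, by omega⟩) : Fin n × Fin n × Fin 6) := by
      ext v
      simp only [Set.mem_ofPred_eq, Set.mem_range]
      constructor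
      · rintro rfl
        obtain ⟨v1, v2, v3⟩ := v
        obtain ⟨u, rfl⟩ := colOrd_bij.2 v3
        refine ⟨⟨v1.val * 6 + u.val, by omega⟩, ?_⟩
        have h1 : (v1.val * 6 + u.val) / 6 = v1.val := by omega
        have h2 : (v1.val * 6 + u.val) % 6 = u.val := by omega
        simp only [h1, h2]
      · rintro ⟨t, rfl⟩; rfl
    rw [this]
    apply conn_of_chain
    intro t h
    rw [net_adj]
    have key : ∀ a b : Fin 6, a.val + 1 = b.val →
        ((colOrd a).val / 3 = (colOrd b).val / 3 ∧ (colOrd a).val ≠ (colOrd b).val) ∨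
        ((colOrd a).val = 3 ∧ (colOrd b).val = 2) := by
      decide
    by_cases h5 : t % 6 = 5
    · have h6 : (t + 1) % 6 = 0 := by omega
      have h7 : (t + 1) / 6 = t / 6 + 1 := by omega
      right; left; right; right
      refine ⟨?_, rfl, ?_, ?_⟩
      · exact h7.symm
      · have : (⟨t % 6, by omega⟩ : Fin 6) = 5 := Fin.ext h5
        show (colOrd ⟨t % 6, _⟩).val = 1
        rw [this]; rfl
      · have : (⟨(t + 1) % 6, by omega⟩ : Fin 6) = 0 := Fin.ext h6
        show (colOrd ⟨(t + 1) % 6, _⟩).val = 4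
        rw [this]; rfl
    · have h6 : (t + 1) % 6 = t % 6 + 1 := by omega
      have h7 : (t + 1) / 6 = t / 6 := by omega
      rcases key ⟨t % 6, by omega⟩ ⟨(t + 1) % 6, by omega⟩ h6.symm with ⟨h8, h9⟩ | ⟨h8, h9⟩
      · left
        refine ⟨⟨?_, rfl, h8⟩, ?_⟩
        · exact Fin.ext h7.symm
        · intro h10
          apply h9
          rw [Prod.mk.injEq, Prod.mk.injEq] at h10
          exact congrArg Fin.val h10.2.2
      · right; right; left
        refine ⟨?_, rfl, h9, h8⟩
        exact Fin.ext h7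
  meet i j := ⟨(i, j, 0), rfl, rfl⟩

lemma net_lower {n k : ℕ} (hn : 2 ≤ n) (h : CliqueWidthLE (net n) k) : n ≤ 24 * k := by
  have := (net_gridLike n).lower_bound (G' := net n) (by omega) hn 3
    (fun b S hS => net_degree n b S hS) (fun _ => true) (by
      intro a a' b _ h1 h2 h3
      exact h3) h
  omega

lemma net_compl_lower {n k : ℕ} (hn : 2 ≤ n) (h : CliqueWidthLE (net n)ᶜ k) : n ≤ 24 * k := by
  have := (net_gridLike n).lower_bound (G' := (net n)ᶜ) (by omega) hn 3
    (fun b S hS => net_degree n b S hS) (fun _ => true) (by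
      intro a a' b _ h1 h2 h3
      simp only [SimpleGraph.compl_adj] at h3
      by_cases h4 : (net n).Adj a b <;> by_cases h5 : (net n).Adj a' b <;>
        simp_all) h
  omega

/-! ### Graphs `F` for which the class is unbounded -/

section unbounded

variable {W : Type}

lemma not_bounded_of {F : SimpleGraph W} {T : ℕ → Type} [∀ n, Finite (T n)]
    (hne : ∀ n, 2 ≤ n → Nonempty (T n)) (G : ∀ n, SimpleGraph (T n))
    (hfree : ∀ n, ¬ ITM F (G n))
    (hlow : ∀ n k, 2 ≤ n → CliqueWidthLE (G n) k → n ≤ 24 * k) :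
    ¬ BoundedCliqueWidth F := by
  rintro ⟨k, hk⟩
  have := hne (24 * k + 2) (by omega)
  have h1 := hk (T (24 * k + 2)) (G (24 * k + 2)) (hfree _)
  have h2 := hlow _ _ (by omega) h1
  omega

/-- Nonadjacent vertices of `F` have nonadjacent branch vertices; we use the data of an induced
topological minor unpacked. -/
structure Model {V : Type} (F : SimpleGraph W) (G : SimpleGraph V) where
  f : W → V
  P : ∀ u v : W, F.Adj u v → G.Walk (f u) (f v)
  inj : Function.Injective f
  isPath : ∀ u v h, (P u v h).IsPath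
  rev : ∀ u v h, P v u h.symm = (P u v h).reverse
  branch : ∀ u v h w, f w ∈ (P u v h).support → w = u ∨ w = v
  disj : ∀ u v h u' v' h', s(u, v) ≠ s(u', v') →
      ∀ x ∈ (P u v h).support, x ∈ (P u' v' h').support → ∃ w, x = f w
  ind : ∀ x y, ((∃ w, x = f w) ∨ ∃ u v h, x ∈ (P u v h).support) →
      ((∃ w, y = f w) ∨ ∃ u v h, y ∈ (P u v h).support) →
      G.Adj x y → ∃ u v h, s(x, y) ∈ (P u v h).edges

variable {V : Type} {F : SimpleGraph W} {G : SimpleGraph V}

lemma ITM.model (h : ITM F G) : Nonempty (Model F G) := by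
  obtain ⟨f, P, h1, h2, h3, h4, h5, h6⟩ := h
  exact ⟨⟨f, P, h1, h2, h3, h4, h5, h6⟩⟩

lemma Model.itm (M : Model F G) : ITM F G :=
  ⟨M.f, M.P, M.inj, M.isPath, M.rev, M.branch, M.disj, M.ind⟩

lemma Model.nonadj (M : Model F G) {u v : W} (huv : u ≠ v) (h : ¬ F.Adj u v) :
    ¬ G.Adj (M.f u) (M.f v) := by
  intro hadj
  obtain ⟨a, b, hab, he⟩ := M.ind _ _ (Or.inl ⟨u, rfl⟩) (Or.inl ⟨v, rfl⟩) hadj
  have h1 := M.branch _ _ _ _ ((M.P a b hab).fst_mem_support_of_mem_edges he)
  have h2 := M.branch _ _ _ _ ((M.P a b hab).snd_mem_support_of_mem_edges he)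
  rcases h1 with rfl | rfl <;> rcases h2 with rfl | rfl
  · exact huv rfl
  · exact h hab
  · exact h hab.symm
  · exact huv rfl

/-- A vertex on two different paths is the branch vertex of a common end. -/
lemma Model.common (M : Model F G) {u v u' v' : W} {h : F.Adj u v} {h' : F.Adj u' v'}
    (hne : s(u, v) ≠ s(u', v')) {x : V} (hx : x ∈ (M.P u v h).support)
    (hx' : x ∈ (M.P u' v' h').support) :
    ∃ w, x = M.f w ∧ (w = u ∨ w = v) ∧ (w = u' ∨ w = v') := by
  obtain ⟨w, rfl⟩ := M.disj _ _ _ _ _ _ hne x hx hx'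
  exact ⟨w, rfl, M.branch _ _ _ _ hx, M.branch _ _ _ _ hx'⟩

/-- The neighbour of `f u` on the path `P u v`. -/
def Model.nbr (M : Model F G) {u v : W} (h : F.Adj u v) : V := (M.P u v h).getVert 1

lemma Model.not_nil (M : Model F G) {u v : W} (h : F.Adj u v) : ¬ (M.P u v h).Nil := by
  intro hn
  exact h.ne (M.inj hn.eq)

lemma Model.adj_nbr (M : Model F G) {u v : W} (h : F.Adj u v) :
    G.Adj (M.f u) (M.nbr h) :=
  (M.P u v h).adj_snd (M.not_nil h)

lemma Model.nbr_mem (M : Model F G) {u v : W} (h : F.Adj u v) :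
    M.nbr h ∈ (M.P u v h).support :=
  (M.P u v h).getVert_mem_support 1

lemma Model.nbr_ne (M : Model F G) {u v v' : W} (h : F.Adj u v) (h' : F.Adj u v')
    (hne : v ≠ v') : M.nbr h ≠ M.nbr h' := by
  intro heq
  have hne' : s(u, v) ≠ s(u, v') := by
    intro h2
    rw [Sym2.eq_iff] at h2
    rcases h2 with ⟨_, h2⟩ | ⟨h2, h3⟩
    · exact hne h2
    · exact hne (h3.trans h2)
  obtain ⟨w, hw, h1, h2⟩ := M.common hne' (M.nbr_mem h) (heq ▸ M.nbr_mem h')
  have : w = u := by
    rcases h1 with h1 | h1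
    · exact h1
    · rcases h2 with h2 | h2
      · exact h2
      · exact absurd (h1.symm.trans h2) hne
  subst this
  exact (M.adj_nbr h).ne hw.symm

lemma mem_edges_of_rev (M : Model F G) {u v : W} (h : F.Adj u v) {e : Sym2 V} :
    e ∈ (M.P v u h.symm).edges ↔ e ∈ (M.P u v h).edges := by
  rw [M.rev _ _ h]
  simp

end unbounded

end Pool.Agent.H192R2.CW
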