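import Pool.Agent.H192R2.CW.Block2

set_option autoImplicit false

namespace Pool.Agent.H192R2.CW

open Classical

variable {V : Type} {G : SimpleGraph V}

/-! ### Restriction to a set -/

/-- The graph with the edges of `G` inside `s`. -/
def restr (G : SimpleGraph V) (s : Set V) : SimpleGraph V where
  Adj x y := G.Adj x y ∧ x ∈ s ∧ y ∈ s
  symm := ⟨fun _ _ h => ⟨h.1.symm, h.2.2, h.2.1⟩⟩
  loopless := ⟨fun x h => G.loopless.irrefl x h.1⟩

lemma restr_le (G : SimpleGraph V) (s : Set V) : restr G s ≤ G := fun _ _ h => h.1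

lemma restr_support {s : Set V} {a b : V} (p : (restr G s).Walk a b) (ha : a ∈ s) :
    ∀ x ∈ p.support, x ∈ s := by
  induction p with
  | nil =>
    intro x hx
    simp only [SimpleGraph.Walk.support_nil, List.mem_cons, List.not_mem_nil, or_false] at hx
    exact hx ▸ ha
  | cons h p ih =>
    intro x hx
    rw [SimpleGraph.Walk.support_cons, List.mem_cons] at hx
    rcases hx with rfl | hx
    · exact ha
    · exact ih h.2.2 x hx

lemma restr_start {s : Set V} {a b : V} (p : (restr G s).Walk a b) (hab : a ≠ b) : a ∈ s := by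
  cases p with
  | nil => exact absurd rfl hab
  | cons h p => exact h.2.1

lemma ITM.of_restr {W : Type} {H : SimpleGraph W} (hH : ∀ w, ∃ u, H.Adj w u) {s : Set V}
    (h : ITM H (restr G s)) : ITM H G := by
  obtain ⟨f, P, hf, hpath, hrev, hbr, hdisj, hind⟩ := h
  have hfs : ∀ w, f w ∈ s := by
    intro w
    obtain ⟨u, hu⟩ := hH w
    exact restr_start (P w u hu) (fun h => hu.ne (hf h))
  refine ⟨f, fun u v h => (P u v h).mapLe (restr_le G s), hf, ?_, ?_, ?_, ?_, ?_⟩
  · intro u v h
    exact (hpath u v h).mapLe _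
  · intro u v h
    show (P v u h.symm).mapLe _ = ((P u v h).mapLe _).reverse
    rw [SimpleGraph.Walk.reverse_mapLe, hrev]
  · intro u v h w hw
    rw [SimpleGraph.Walk.support_mapLe_eq_support] at hw
    exact hbr u v h w hw
  · intro u v h u' v' h' hne x hx hx'
    rw [SimpleGraph.Walk.support_mapLe_eq_support] at hx hx'
    exact hdisj u v h u' v' h' hne x hx hx'
  · intro x y hx hy hxy
    have key : ∀ z, ((∃ w, z = f w) ∨ ∃ u v h, z ∈ ((P u v h).mapLe (restr_le G s)).support) →
        ((∃ w, z = f w) ∨ ∃ u v h, z ∈ (P u v h).support) ∧ z ∈ s := by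
      rintro z (⟨w, rfl⟩ | ⟨u, v, h, hz⟩)
      · exact ⟨Or.inl ⟨w, rfl⟩, hfs w⟩
      · rw [SimpleGraph.Walk.support_mapLe_eq_support] at hz
        exact ⟨Or.inr ⟨u, v, h, hz⟩, restr_support _ (hfs u) z hz⟩
    obtain ⟨u, v, h, he⟩ := hind x y (key x hx).1 (key y hy).1 ⟨hxy, (key x hx).2, (key y hy).2⟩
    refine ⟨u, v, h, ?_⟩
    rw [SimpleGraph.Walk.edges_mapLe_eq_edges]
    exact he

/-! ### Sets of an induced topological minor -/

lemma ITM.sets {W : Type} {H : SimpleGraph W} (h : ITM H G) :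
    ∃ (f : W → V) (B : W → W → Set V), Function.Injective f ∧
      (∀ u v, B u v = B v u) ∧
      (∀ u v w, f w ∈ B u v → w = u ∨ w = v) ∧
      (∀ u v u' v', s(u, v) ≠ s(u', v') → ∀ x ∈ B u v, x ∈ B u' v' → ∃ w, x = f w) ∧
      (∀ u v u' v', ∀ x ∈ B u v, ∀ y ∈ B u' v', G.Adj x y → ∃ a b, H.Adj a b ∧ x ∈ B a b ∧
        y ∈ B a b) ∧
      (∀ u v, H.Adj u v → ∃ w : G.Walk (f u) (f v), w.IsPath ∧ (∀ x, x ∈ w.support ↔ x ∈ B u v) ∧
        ∀ x ∈ B u v, ∀ y ∈ B u v, G.Adj x y → s(x, y) ∈ w.edges) := by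
  obtain ⟨f, P, hf, hpath, hrev, hbr, hdisj, hind⟩ := h
  have hB : ∀ u v, {z | ∃ h, z ∈ (P u v h).support} = {z | ∃ h, z ∈ (P v u h).support} := by
    have : ∀ u v, {z | ∃ h, z ∈ (P u v h).support} ⊆ {z | ∃ h, z ∈ (P v u h).support} := by
      rintro u v z ⟨h, hz⟩
      refine ⟨h.symm, ?_⟩
      rw [hrev u v h, SimpleGraph.Walk.support_reverse, List.mem_reverse]
      exact hz
    exact fun u v => Set.Subset.antisymm (this u v) (this v u)
  refine ⟨f, fun u v => {z | ∃ h, z ∈ (P u v h).support}, hf, hB, ?_, ?_, ?_, ?_⟩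
  · rintro u v w ⟨h, hw⟩
    exact hbr u v h w hw
  · rintro u v u' v' hne x ⟨h, hx⟩ ⟨h', hx'⟩
    exact hdisj u v h u' v' h' hne x hx hx'
  · rintro u v u' v' x ⟨h, hx⟩ y ⟨h', hy⟩ hxy
    obtain ⟨a, b, hab, he⟩ := hind x y (Or.inr ⟨u, v, h, hx⟩) (Or.inr ⟨u', v', h', hy⟩) hxy
    exact ⟨a, b, hab, ⟨hab, (P a b hab).fst_mem_support_of_mem_edges he⟩,
      ⟨hab, (P a b hab).snd_mem_support_of_mem_edges he⟩⟩
  · intro u v h
    refine ⟨P u v h, hpath u v h, ?_, ?_⟩
    · intro x
      exact ⟨fun hx => ⟨h, hx⟩, fun ⟨_, hx⟩ => hx⟩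
    · rintro x ⟨_, hx⟩ y ⟨_, hy⟩ hxy
      obtain ⟨a, b, hab, he⟩ := hind x y (Or.inr ⟨u, v, h, hx⟩) (Or.inr ⟨u, v, h, hy⟩) hxy
      by_cases heq : s(a, b) = s(u, v)
      · rw [Sym2.eq_iff] at heq
        rcases heq with ⟨rfl, rfl⟩ | ⟨rfl, rfl⟩
        · exact he
        · rw [hrev b a h, SimpleGraph.Walk.edges_reverse, List.mem_reverse] at he
          exact he
      · exfalso
        apply heq
        have hx' := (P a b hab).fst_mem_support_of_mem_edges he
        have hy' := (P a b hab).snd_mem_support_of_mem_edges he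
        obtain ⟨w1, rfl⟩ := hdisj _ _ _ _ _ _ heq x hx' hx
        obtain ⟨w2, rfl⟩ := hdisj _ _ _ _ _ _ heq y hy' hy
        have hne : w1 ≠ w2 := fun h => hxy.ne (by rw [h])
        rw [Sym2.eq_iff]
        rcases hbr _ _ _ _ hx with h1 | h1 <;> rcases hbr _ _ _ _ hx' with h2 | h2 <;>
          rcases hbr _ _ _ _ hy with h3 | h3 <;> rcases hbr _ _ _ _ hy' with h4 | h4 <;>
          first
          | exact absurd (h1.trans h3.symm) hne
          | exact absurd (h2.trans h4.symm) hne
          | exact Or.inl ⟨h2.symm.trans h1, h4.symm.trans h3⟩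
          | exact Or.inl ⟨h4.symm.trans h3, h2.symm.trans h1⟩
          | exact Or.inr ⟨h2.symm.trans h1, h4.symm.trans h3⟩
          | exact Or.inr ⟨h4.symm.trans h3, h2.symm.trans h1⟩

/-- A path of the subdivided diamond which ends in a vertex of degree two has length one, or there
is an induced topological minor paw. -/
lemma paw_of_diamond_aux {f : Fin 4 → V} {B : Fin 4 → Fin 4 → Set V}
    (hf : Function.Injective f) (hsymm : ∀ u v, B u v = B v u)
    (hbr : ∀ u v w, f w ∈ B u v → w = u ∨ w = v)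
    (hdisj : ∀ u v u' v', s(u, v) ≠ s(u', v') → ∀ x ∈ B u v, x ∈ B u' v' → ∃ w, x = f w)
    (hind : ∀ u v u' v', ∀ x ∈ B u v, ∀ y ∈ B u' v', G.Adj x y → ∃ a b, diamond.Adj a b ∧
      x ∈ B a b ∧ y ∈ B a b)
    (hQ : ∀ u v, diamond.Adj u v → ∃ w : G.Walk (f u) (f v), w.IsPath ∧
      (∀ x, x ∈ w.support ↔ x ∈ B u v) ∧
        ∀ x ∈ B u v, ∀ y ∈ B u v, G.Adj x y → s(x, y) ∈ w.edges)
    (g : Fin 4 → Fin 4) (hg : Function.Bijective g)
    (hgadj : ∀ u v, diamond.Adj u v → diamond.Adj (g u) (g v))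
    (hnadj : ¬ G.Adj (f (g 0)) (f (g 3))) : ITM paw G := by
  have d01 : diamond.Adj 0 1 := by decide
  have d02 : diamond.Adj 0 2 := by decide
  have d12 : diamond.Adj 1 2 := by decide
  have d03 : diamond.Adj 0 3 := by decide
  -- the second vertex of the path
  obtain ⟨c, hc1, hc2⟩ : ∃ c, G.Adj (f (g 0)) c ∧ c ∈ B (g 0) (g 3) := by
    obtain ⟨w, h1, h2, h3⟩ := hQ _ _ (hgadj 0 3 d03)
    have hnil : ¬ w.Nil := by
      intro h
      have := h.eq
      have := hg.1 (hf this)
      exact absurd this (by decide)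
    refine ⟨w.snd, w.adj_snd hnil, ?_⟩
    rw [← h2]
    exact w.getVert_mem_support 1
  have hcf : ∀ w, c ≠ f w := by
    rintro w rfl
    rcases hbr _ _ _ hc2 with rfl | rfl
    · exact G.loopless.irrefl _ hc1
    · exact hnadj hc1
  have hself : ∀ u v, diamond.Adj u v → f u ∈ B u v := by
    intro u v h
    obtain ⟨w, h1, h2, h3⟩ := hQ u v h
    rw [← h2]
    exact w.start_mem_support
  have hself' : ∀ u v, diamond.Adj u v → f v ∈ B u v := by
    intro u v h
    rw [hsymm]
    exact hself v u h.symm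
  let f' : Fin 4 → V := fun w => if w = 3 then c else f (g w)
  have hf'3 : f' 3 = c := rfl
  have hf'0 : f' 0 = f (g 0) := rfl
  have hf'w : ∀ w, w ≠ 3 → f' w = f (g w) := fun w hw => by simp only [f', if_neg hw]
  let A : Fin 4 → Fin 4 → Set V := fun u v => if v = 3 then {f (g 0), c} else B (g u) (g v)
  have hA3 : ∀ u, A u 3 = {f (g 0), c} := fun u => rfl
  have hAv : ∀ u v, v ≠ 3 → A u v = B (g u) (g v) := fun u v hv => by simp only [A, if_neg hv]
  have hpair : ∀ u v : Fin 4, u < v → paw.Adj u v → (u = 0 ∧ v = 3) ∨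
      (u ≠ 3 ∧ v ≠ 3 ∧ diamond.Adj u v) := by decide
  have hpair2 : ∀ u v : Fin 4, u ≠ 3 → v ≠ 3 → u < v → paw.Adj u v := by decide
  have h33 : g 3 ≠ g 0 := fun h => absurd (hg.1 h) (by decide)
  have hs2 : ∀ u v u' v' : Fin 4, u < v → u' < v' → (u ≠ u' ∨ v ≠ v') →
      s(g u, g v) ≠ s(g u', g v') := by
    intro u v u' v' huv huv' hne heq
    rw [Sym2.eq_iff] at heq
    rcases heq with ⟨h1, h2⟩ | ⟨h1, h2⟩
    · have h3 := hg.1 h1
      have h4 := hg.1 h2
      rcases hne with h | h
      · exact h h3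
      · exact h h4
    · have h3 := hg.1 h1
      have h4 := hg.1 h2
      subst h3; subst h4
      exact absurd huv (not_lt.2 huv'.le)
  -- membership in the paths of the cycle
  have hcyc : ∀ u v, u ≠ 3 → v ≠ 3 → u ≠ v → ∀ x, x ∈ B (g u) (g v) →
      ∃ a b, a < b ∧ a ≠ 3 ∧ b ≠ 3 ∧ x ∈ B (g a) (g b) := by
    intro u v hu hv huv x hx
    rcases lt_or_gt_of_ne huv with h | h
    · exact ⟨u, v, h, hu, hv, hx⟩
    · exact ⟨v, u, h, hv, hu, by rw [hsymm]; exact hx⟩
  have hfin : ∀ z y a b, z ∈ B (g a) (g b) → y ∈ B (g a) (g b) → a ≠ 3 → b ≠ 3 → a ≠ b →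
      ∃ a' b', a' < b' ∧ paw.Adj a' b' ∧ z ∈ A a' b' ∧ y ∈ A a' b' := by
    intro z y a b hz hy ha hb hab
    rcases lt_or_gt_of_ne hab with h | h
    · exact ⟨a, b, h, hpair2 a b ha hb h, by rw [hAv _ _ hb]; exact hz, by rw [hAv _ _ hb]; exact hy⟩
    · refine ⟨b, a, h, hpair2 b a hb ha h, ?_, ?_⟩
      · rw [hAv _ _ ha, hsymm]; exact hz
      · rw [hAv _ _ ha, hsymm]; exact hy
  -- an element of a cycle path which is in a path ending in `g 3`
  have hend : ∀ z u v a', u ≠ 3 → v ≠ 3 → z ∈ B (g u) (g v) → z ∈ B (g a') (g 3) →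
      z = f (g a') := by
    intro z u v a' hu hv hz hz'
    have hne : s(g a', g 3) ≠ s(g u, g v) := by
      intro h
      rw [Sym2.eq_iff] at h
      rcases h with ⟨_, h⟩ | ⟨_, h⟩
      · exact hv (hg.1 h).symm
      · exact hu (hg.1 h).symm
    obtain ⟨w, rfl⟩ := hdisj _ _ _ _ hne z hz' hz
    rcases hbr _ _ _ hz' with rfl | rfl
    · rfl
    · rcases hbr _ _ _ hz with h | h
      · exact absurd (hg.1 h).symm hu
      · exact absurd (hg.1 h).symm hv
  have hcc : ∀ z y u v u' v', u ≠ 3 → v ≠ 3 → u' ≠ 3 → v' ≠ 3 → z ∈ B (g u) (g v) →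
      y ∈ B (g u') (g v') → G.Adj z y →
      ∃ a' b', a' < b' ∧ paw.Adj a' b' ∧ z ∈ A a' b' ∧ y ∈ A a' b' := by
    intro z y u v u' v' hu hv hu' hv' hz hy hzy
    obtain ⟨a, b, hab, h1, h2⟩ := hind _ _ _ _ z hz y hy hzy
    obtain ⟨a, rfl⟩ := hg.2 a
    obtain ⟨b, rfl⟩ := hg.2 b
    have hne : a ≠ b := fun h => hab.ne (by rw [h])
    by_cases ha : a = 3
    · subst ha
      rw [hsymm] at h1 h2
      have e1 := hend z u v b hu hv hz h1
      have e2 := hend y u' v' b hu' hv' hy h2
      exact absurd (e1.trans e2.symm) hzy.ne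
    · by_cases hb : b = 3
      · subst hb
        have e1 := hend z u v a hu hv hz h1
        have e2 := hend y u' v' a hu' hv' hy h2
        exact absurd (e1.trans e2.symm) hzy.ne
      · exact hfin z y a b h1 h2 ha hb hne
  have hccx : ∀ y u v, u ≠ 3 → v ≠ 3 → y ∈ B (g u) (g v) → G.Adj c y → y = f (g 0) := by
    intro y u v hu hv hy hcy
    obtain ⟨a, b, hab, h1, h2⟩ := hind _ _ _ _ c hc2 y hy hcy
    have heq : s(a, b) = s(g 0, g 3) := by
      by_contra hne
      obtain ⟨w, hw⟩ := hdisj _ _ _ _ hne c h1 hc2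
      exact hcf w hw
    have h3 : y ∈ B (g 0) (g 3) := by
      rw [Sym2.eq_iff] at heq
      rcases heq with ⟨rfl, rfl⟩ | ⟨rfl, rfl⟩
      · exact h2
      · rw [hsymm]; exact h2
    exact hend y u v 0 hu hv hy h3
  have hA_mem : ∀ u v, u < v → paw.Adj u v → ∀ z ∈ A u v, z = c ∨
      ∃ a b, a ≠ 3 ∧ b ≠ 3 ∧ z ∈ B (g a) (g b) := by
    intro u v huv hadj z hz
    rcases hpair u v huv hadj with ⟨rfl, rfl⟩ | ⟨hu, hv, hd⟩
    · rw [hA3] at hz
      rcases hz with rfl | hz
      · exact Or.inr ⟨0, 1, by decide, by decide, hself _ _ (hgadj _ _ d01)⟩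
      · exact Or.inl hz
    · rw [hAv _ _ hv] at hz
      exact Or.inr ⟨u, v, hu, hv, hz⟩
  refine ITM.of_lt f' ?_ A ?_ ?_ ?_ ?_ ?_
  · intro u v huv
    by_cases hu : u = 3
    · by_cases hv : v = 3
      · rw [hu, hv]
      · rw [hu, hf'3, hf'w v hv] at huv
        exact absurd huv (hcf _)
    · by_cases hv : v = 3
      · rw [hv, hf'3, hf'w u hu] at huv
        exact absurd huv.symm (hcf _)
      · rw [hf'w u hu, hf'w v hv] at huv
        exact hg.1 (hf huv)
  · decide
  · intro u v huv hadj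
    rcases hpair u v huv hadj with ⟨rfl, rfl⟩ | ⟨hu, hv, hd⟩
    · rw [hA3]
      exact exists_edge_walk hc1
    · rw [hAv _ _ hv, hf'w u hu, hf'w v hv]
      exact hQ _ _ (hgadj _ _ hd)
  · intro u v w huv hadj hw
    rcases hpair u v huv hadj with ⟨rfl, rfl⟩ | ⟨hu, hv, hd⟩
    · rw [hA3] at hw
      by_cases h3 : w = 3
      · exact Or.inr h3
      · rw [hf'w w h3] at hw
        rcases hw with hw | hw
        · exact Or.inl (hg.1 (hf hw))
        · exact absurd hw.symm (hcf _)
    · rw [hAv _ _ hv] at hw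
      by_cases h3 : w = 3
      · exfalso
        rw [h3, hf'3] at hw
        have := hend c u v 0 hu hv hw hc2
        exact hcf _ this
      · rw [hf'w w h3] at hw
        rcases hbr _ _ _ hw with h | h
        · exact Or.inl (hg.1 h)
        · exact Or.inr (hg.1 h)
  · intro u v u' v' huv hadj huv' hadj' hne x hx hx'
    rcases hpair u v huv hadj with ⟨rfl, rfl⟩ | ⟨hu, hv, hd⟩
    · rw [hA3] at hx
      rcases hx with hx | hx
      · exact ⟨0, hx⟩
      · exact ⟨3, hx⟩
    · rcases hpair u' v' huv' hadj' with ⟨rfl, rfl⟩ | ⟨hu', hv', hd'⟩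
      · rw [hA3] at hx'
        rcases hx' with hx' | hx'
        · exact ⟨0, hx'⟩
        · exact ⟨3, hx'⟩
      · rw [hAv _ _ hv] at hx
        rw [hAv _ _ hv'] at hx'
        obtain ⟨w, rfl⟩ := hdisj _ _ _ _ (hs2 u v u' v' huv huv' hne) x hx hx'
        rcases hbr _ _ _ hx with rfl | rfl
        · exact ⟨u, (hf'w u hu).symm⟩
        · exact ⟨v, (hf'w v hv).symm⟩
  · intro u v u' v' huv hadj huv' hadj' x hx y hy hxy
    have h03 : paw.Adj 0 3 := by decide
    rcases hA_mem u v huv hadj x hx with rfl | ⟨a, b, ha, hb, hx2⟩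
    · rcases hA_mem u' v' huv' hadj' y hy with rfl | ⟨a', b', ha', hb', hy2⟩
      · exact absurd hxy (G.loopless.irrefl _)
      · have := hccx y a' b' ha' hb' hy2 hxy
        refine ⟨0, 3, by decide, h03, ?_, ?_⟩
        · rw [hA3]; exact Or.inr rfl
        · rw [hA3, this]; exact Or.inl rfl
    · rcases hA_mem u' v' huv' hadj' y hy with rfl | ⟨a', b', ha', hb', hy2⟩
      · have := hccx x a b ha hb hx2 hxy.symm
        refine ⟨0, 3, by decide, h03, ?_, ?_⟩
        · rw [hA3, this]; exact Or.inl rfl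
        · rw [hA3]; exact Or.inr rfl
      · exact hcc x y a b a' b' ha hb ha' hb' hx2 hy2 hxy

/-- A graph with induced topological minor diamond has an induced topological minor paw, a
triangle or an induced cycle of length four. -/
lemma paw_or_of_diamond (h : ITM diamond G) : ITM paw G ∨
    (∃ a b c, G.Adj a b ∧ G.Adj b c ∧ G.Adj a c) ∨
    (∃ a b c d, a ≠ c ∧ b ≠ d ∧ G.Adj a b ∧ G.Adj b c ∧ G.Adj c d ∧ G.Adj d a ∧ ¬ G.Adj a c ∧
      ¬ G.Adj b d) := by
  by_contra hcon
  push Not at hcon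
  obtain ⟨h1, h2, h3⟩ := hcon
  obtain ⟨f, B, hf, hsymm, hbr, hdisj, hind, hQ⟩ := h.sets
  have key : ∀ g : Fin 4 → Fin 4, Function.Bijective g →
      (∀ u v, diamond.Adj u v → diamond.Adj (g u) (g v)) → G.Adj (f (g 0)) (f (g 3)) := by
    intro g hg hgadj
    by_contra hn
    exact h1 (paw_of_diamond_aux hf hsymm hbr hdisj hind hQ g hg hgadj hn)
  have a03 : G.Adj (f 0) (f 3) := key id Function.bijective_id (fun u v h => h)
  have a02 : G.Adj (f 0) (f 2) := key ![0, 1, 3, 2] (by decide) (by decide)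
  have a13 : G.Adj (f 1) (f 3) := key ![1, 0, 2, 3] (by decide) (by decide)
  have a12 : G.Adj (f 1) (f 2) := key ![1, 0, 3, 2] (by decide) (by decide)
  have n01 : ¬ G.Adj (f 0) (f 1) := fun h => h2 (f 0) (f 1) (f 2) h a12 a02
  have n23 : ¬ G.Adj (f 2) (f 3) := fun h => h2 (f 0) (f 2) (f 3) a02 h a03
  refine n23 (h3 (f 0) (f 2) (f 1) (f 3) ?_ ?_ a02 a12.symm a13 a03.symm n01)
  · exact fun h => absurd (hf h) (by decide)
  · exact fun h => absurd (hf h) (by decide)

/-! ### Complete multipartite sets -/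

/-- A triangle with a pendant vertex. -/
lemma paw_of_triangle {a b c d : V} (hab : G.Adj a b) (hac : G.Adj a c) (hbc : G.Adj b c)
    (had : G.Adj a d) (hbd : ¬ G.Adj b d) (hcd : ¬ G.Adj c d) : ITM paw G := by
  have hbd' : b ≠ d := by rintro rfl; exact hcd hbc.symm
  have hcd' : c ≠ d := by rintro rfl; exact hbd hbc
  have p01 : paw.Adj 0 1 := by decide
  have p02 : paw.Adj 0 2 := by decide
  have p12 : paw.Adj 1 2 := by decide
  have p03 : paw.Adj 0 3 := by decide
  have p13 : ¬ paw.Adj 1 3 := by decide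
  have p23 : ¬ paw.Adj 2 3 := by decide
  obtain ⟨φ⟩ := emb4 (H := G) (F := paw) a b c d hab.ne hac.ne hbc.ne had.ne hbd' hcd'
    (by simp only [hab, p01]) (by simp only [hac, p02]) (by simp only [hbc, p12])
    (by simp only [had, p03]) (by simp only [hbd, p13]) (by simp only [hcd, p23])
  exact ITM.of_induced φ

/-- A path of length two as a walk. -/
lemma exists_walk_two {a b c : V} (h1 : G.Adj a b) (h2 : G.Adj b c) (hac : ¬ G.Adj a c)
    (hac' : a ≠ c) : ∃ w : G.Walk a c, w.IsPath ∧ (∀ x, x ∈ w.support ↔ x ∈ ({a, b, c} : Set V)) ∧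
      (∀ x ∈ ({a, b, c} : Set V), ∀ y ∈ ({a, b, c} : Set V), G.Adj x y → s(x, y) ∈ w.edges) := by
  refine ⟨SimpleGraph.Walk.cons h1 (SimpleGraph.Walk.cons h2 SimpleGraph.Walk.nil), ?_, ?_, ?_⟩
  · simp [h1.ne, h2.ne, hac']
  · intro s
    simp
  · rintro s (rfl | rfl | rfl) s' (rfl | rfl | rfl) hadj
    · exact absurd hadj (G.loopless.irrefl _)
    · simp
    · exact absurd hadj hac
    · simp
    · exact absurd hadj (G.loopless.irrefl _)
    · simp
    · exact absurd hadj.symm hac
    · simp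
    · exact absurd hadj (G.loopless.irrefl _)

/-- A cycle of length four with a pendant vertex. -/
lemma paw_of_C4 {x y z w v : V} (hxy : G.Adj x y) (hyz : G.Adj y z) (hzw : G.Adj z w)
    (hwx : G.Adj w x) (hxz : ¬ G.Adj x z) (hxz' : x ≠ z) (hyw : ¬ G.Adj y w) (hyw' : y ≠ w)
    (hvx : G.Adj v x) (hvy : ¬ G.Adj v y) (hvz : ¬ G.Adj v z) (hvw : ¬ G.Adj v w) :
    ITM paw G := by
  have e1 : v ≠ y := by rintro rfl; exact hvz hyz
  have e2 : v ≠ z := by rintro rfl; exact hvw hzw
  have e3 : v ≠ w := by rintro rfl; exact hvz hzw.symm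
  let f' : Fin 4 → V := ![x, y, z, v]
  let A : Fin 4 → Fin 4 → Set V := fun u t =>
    if t = 3 then {x, v} else if t = 1 then {x, y} else if u = 0 then {x, w, z} else {y, z}
  have hpair : ∀ u t : Fin 4, u < t → paw.Adj u t → (u = 0 ∧ t = 3) ∨ (u = 0 ∧ t = 1) ∨
      (u = 0 ∧ t = 2) ∨ (u = 1 ∧ t = 2) := by decide
  have A03 : A 0 3 = {x, v} := rfl
  have A01 : A 0 1 = {x, y} := rfl
  have A02 : A 0 2 = {x, w, z} := rfl
  have A12 : A 1 2 = {y, z} := rfl
  have hall : ∀ u t, u < t → paw.Adj u t → ∀ s ∈ A u t, s = x ∨ s = y ∨ s = z ∨ s = w ∨ s = v := by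
    intro u t hut hadj s hs
    rcases hpair u t hut hadj with ⟨rfl, rfl⟩ | ⟨rfl, rfl⟩ | ⟨rfl, rfl⟩ | ⟨rfl, rfl⟩
    · rw [A03] at hs
      rcases hs with rfl | hs
      · exact Or.inl rfl
      · exact Or.inr (Or.inr (Or.inr (Or.inr hs)))
    · rw [A01] at hs
      rcases hs with rfl | hs
      · exact Or.inl rfl
      · exact Or.inr (Or.inl hs)
    · rw [A02] at hs
      rcases hs with rfl | rfl | hs
      · exact Or.inl rfl
      · exact Or.inr (Or.inr (Or.inr (Or.inl rfl)))
      · exact Or.inr (Or.inr (Or.inl hs))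
    · rw [A12] at hs
      rcases hs with rfl | hs
      · exact Or.inr (Or.inl rfl)
      · exact Or.inr (Or.inr (Or.inl hs))
  refine ITM.of_lt f' ?_ A ?_ ?_ ?_ ?_ ?_
  · intro a b hab
    fin_cases a <;> fin_cases b <;> first
      | rfl
      | exact absurd hab hxy.ne
      | exact absurd hab hxy.ne.symm
      | exact absurd hab hxz'
      | exact absurd hab hxz'.symm
      | exact absurd hab hvx.ne
      | exact absurd hab hvx.ne.symm
      | exact absurd hab hyz.ne
      | exact absurd hab hyz.ne.symm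
      | exact absurd hab e1
      | exact absurd hab e1.symm
      | exact absurd hab e2
      | exact absurd hab e2.symm
  · decide
  · intro u t hut hadj
    rcases hpair u t hut hadj with ⟨rfl, rfl⟩ | ⟨rfl, rfl⟩ | ⟨rfl, rfl⟩ | ⟨rfl, rfl⟩
    · rw [A03]; exact exists_edge_walk hvx.symm
    · rw [A01]; exact exists_edge_walk hxy
    · rw [A02]; exact exists_walk_two hwx.symm hzw.symm hxz hxz'
    · rw [A12]; exact exists_edge_walk hyz
  · intro u t s hut hadj hs
    have f0 : f' 0 = x := rfl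
    have f1 : f' 1 = y := rfl
    have f2 : f' 2 = z := rfl
    have f3 : f' 3 = v := rfl
    have hwx' := hwx.ne
    have hzw' := hzw.ne
    have hxy' := hxy.ne
    have hyz' := hyz.ne
    have hvx' := hvx.ne
    rcases hpair u t hut hadj with ⟨rfl, rfl⟩ | ⟨rfl, rfl⟩ | ⟨rfl, rfl⟩ | ⟨rfl, rfl⟩
    · rw [A03] at hs
      fin_cases s
      · exact Or.inl rfl
      · rcases hs with h | h
        · exact absurd h hxy'.symm
        · exact absurd h e1.symm
      · rcases hs with h | h
        · exact absurd h hxz'.symm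
        · exact absurd h e2.symm
      · exact Or.inr rfl
    · rw [A01] at hs
      fin_cases s
      · exact Or.inl rfl
      · exact Or.inr rfl
      · rcases hs with h | h
        · exact absurd h hxz'.symm
        · exact absurd h hyz'.symm
      · rcases hs with h | h
        · exact absurd h hvx'
        · exact absurd h e1
    · rw [A02] at hs
      fin_cases s
      · exact Or.inl rfl
      · rcases hs with h | h | h
        · exact absurd h hxy'.symm
        · exact absurd h hyw'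
        · exact absurd h hyz'
      · exact Or.inr rfl
      · rcases hs with h | h | h
        · exact absurd h hvx'
        · exact absurd h e3
        · exact absurd h e2
    · rw [A12] at hs
      fin_cases s
      · rcases hs with h | h
        · exact absurd h hxy'
        · exact absurd h hxz'
      · exact Or.inl rfl
      · exact Or.inr rfl
      · rcases hs with h | h
        · exact absurd h e1
        · exact absurd h e2
  · intro u t u' t' hut hadj hut' hadj' hne s hs hs'
    have hwx' := hwx.ne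
    have hzw' := hzw.ne
    by_cases hsw : s = w
    · exfalso
      subst hsw
      have h02 : ∀ u t, u < t → paw.Adj u t → s ∈ A u t → u = 0 ∧ t = 2 := by
        intro u t hut hadj hs
        rcases hpair u t hut hadj with ⟨rfl, rfl⟩ | ⟨rfl, rfl⟩ | ⟨rfl, rfl⟩ | ⟨rfl, rfl⟩
        · rcases hs with h | h
          · exact absurd h hwx'
          · exact absurd h e3.symm
        · rcases hs with h | h
          · exact absurd h hwx'
          · exact absurd h hyw'.symm
        · exact ⟨rfl, rfl⟩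
        · rcases hs with h | h
          · exact absurd h hyw'.symm
          · exact absurd h hzw'.symm
      obtain ⟨h1, h2⟩ := h02 u t hut hadj hs
      obtain ⟨h3, h4⟩ := h02 u' t' hut' hadj' hs'
      rcases hne with h | h
      · exact h (h1.trans h3.symm)
      · exact h (h2.trans h4.symm)
    · rcases hall u t hut hadj s hs with h | h | h | h | h
      · exact ⟨0, h⟩
      · exact ⟨1, h⟩
      · exact ⟨2, h⟩
      · exact absurd h hsw
      · exact ⟨3, h⟩
  · intro u t u' t' hut hadj hut' hadj' s hs s' hs' hss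
    have p01 : paw.Adj 0 1 := by decide
    have p02 : paw.Adj 0 2 := by decide
    have p12 : paw.Adj 1 2 := by decide
    have p03 : paw.Adj 0 3 := by decide
    have q01 : ∀ a b, a ∈ ({x, y} : Set V) → b ∈ ({x, y} : Set V) →
        ∃ i j, i < j ∧ paw.Adj i j ∧ a ∈ A i j ∧ b ∈ A i j :=
      fun a b ha hb => ⟨0, 1, by decide, p01, ha, hb⟩
    have q02 : ∀ a b, a ∈ ({x, w, z} : Set V) → b ∈ ({x, w, z} : Set V) →
        ∃ i j, i < j ∧ paw.Adj i j ∧ a ∈ A i j ∧ b ∈ A i j :=
      fun a b ha hb => ⟨0, 2, by decide, p02, ha, hb⟩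
    have q12 : ∀ a b, a ∈ ({y, z} : Set V) → b ∈ ({y, z} : Set V) →
        ∃ i j, i < j ∧ paw.Adj i j ∧ a ∈ A i j ∧ b ∈ A i j :=
      fun a b ha hb => ⟨1, 2, by decide, p12, ha, hb⟩
    have q03 : ∀ a b, a ∈ ({x, v} : Set V) → b ∈ ({x, v} : Set V) →
        ∃ i j, i < j ∧ paw.Adj i j ∧ a ∈ A i j ∧ b ∈ A i j :=
      fun a b ha hb => ⟨0, 3, by decide, p03, ha, hb⟩
    rcases hall u t hut hadj s hs with rfl | rfl | rfl | rfl | rfl <;>
      rcases hall u' t' hut' hadj' s' hs' with rfl | rfl | rfl | rfl | rfl <;>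
      first
      | exact absurd hss (G.loopless.irrefl _)
      | exact absurd hss hxz
      | exact absurd hss.symm hxz
      | exact absurd hss hyw
      | exact absurd hss.symm hyw
      | exact absurd hss hvy
      | exact absurd hss.symm hvy
      | exact absurd hss hvz
      | exact absurd hss.symm hvz
      | exact absurd hss hvw
      | exact absurd hss.symm hvw
      | (refine q01 _ _ ?_ ?_ <;> (simp; done))
      | (refine q02 _ _ ?_ ?_ <;> (simp; done))
      | (refine q12 _ _ ?_ ?_ <;> (simp; done))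
      | (refine q03 _ _ ?_ ?_ <;> (simp; done))

/-- Non-adjacency is transitive on `T`. -/
def MP (G : SimpleGraph V) (T : Finset V) : Prop :=
  ∀ x ∈ T, ∀ y ∈ T, ∀ z ∈ T, ¬ G.Adj x y → ¬ G.Adj y z → ¬ G.Adj x z

lemma MP.insert {T : Finset V} (hT : MP G T) {v : V}
    (h1 : ∀ y ∈ T, ∀ z ∈ T, ¬ G.Adj y z → ¬ G.Adj v y → ¬ G.Adj v z)
    (h2 : ∀ y ∈ T, ∀ z ∈ T, ¬ G.Adj v y → ¬ G.Adj v z → ¬ G.Adj y z) : MP G (insert v T) := by
  intro x hx y hy z hz hxy hyz
  rw [Finset.mem_insert] at hx hy hz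
  rcases hx with rfl | hx <;> rcases hy with rfl | hy <;> rcases hz with rfl | hz
  · exact hxy
  · exact hyz
  · exact G.loopless.irrefl _
  · exact h1 y hy z hz hyz hxy
  · exact hxy
  · exact h2 x hx z hz (fun h => hxy h.symm) hyz
  · intro h
    exact h1 y hy x hx (fun h => hxy h.symm) (fun h => hyz h.symm) h.symm
  · exact hT x hx y hy z hz hxy hyz

lemma mp_extend_triangle (hno : ¬ ITM paw G) {T : Finset V} (hT : MP G T) {a b c : V}
    (ha : a ∈ T) (hb : b ∈ T) (hc : c ∈ T) (hab : G.Adj a b) (hbc : G.Adj b c) (hac : G.Adj a c)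
    {v x : V} (hx : x ∈ T) (hvx : G.Adj v x) : MP G (insert v T) := by
  -- in each triple of a triangle and a vertex, two of the three are adjacent to the vertex
  have htwo : ∀ y ∈ T, ∃ u ∈ T, ∃ w ∈ T, G.Adj u w ∧ G.Adj u y ∧ G.Adj w y := by
    intro y hy
    by_cases h1 : G.Adj a y
    · by_cases h2 : G.Adj b y
      · exact ⟨a, ha, b, hb, hab, h1, h2⟩
      · by_cases h3 : G.Adj c y
        · exact ⟨a, ha, c, hc, hac, h1, h3⟩
        · exact absurd hbc (hT b hb y hy c hc h2 (fun h => h3 h.symm))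
    · by_cases h2 : G.Adj b y
      · by_cases h3 : G.Adj c y
        · exact ⟨b, hb, c, hc, hbc, h2, h3⟩
        · exact absurd hac (hT a ha y hy c hc h1 (fun h => h3 h.symm))
      · exact absurd hab (hT a ha y hy b hb h1 (fun h => h2 h.symm))
  have hthird : ∀ y ∈ T, ∀ z ∈ T, ∃ w ∈ T, G.Adj w y ∧ G.Adj w z := by
    intro y hy z hz
    obtain ⟨u, hu, w, hw, huw, huy, hwy⟩ := htwo y hy
    by_cases h1 : G.Adj u z
    · exact ⟨u, hu, huy, h1⟩
    · by_cases h2 : G.Adj w z
      · exact ⟨w, hw, hwy, h2⟩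
      · exact absurd huw (hT u hu z hz w hw h1 (fun h => h2 h.symm))
  have hpaw : ∀ p q r s : V, G.Adj p q → G.Adj p r → G.Adj q r → G.Adj p s → ¬ G.Adj q s →
      ¬ G.Adj r s → False := fun p q r s h1 h2 h3 h4 h5 h6 =>
    hno (paw_of_triangle h1 h2 h3 h4 h5 h6)
  have h2 : ∀ y ∈ T, ∀ z ∈ T, ¬ G.Adj v y → ¬ G.Adj v z → ¬ G.Adj y z := by
    -- a case with `x` adjacent to `z` but not to `y`
    have aux : ∀ y ∈ T, ∀ z ∈ T, ¬ G.Adj v y → ¬ G.Adj v z → G.Adj y z → ¬ G.Adj x y →
        G.Adj x z → False := by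
      intro y hy z hz hvy hvz hyz hxy hxz
      obtain ⟨w, hw, hwy, hwz⟩ := hthird y hy z hz
      have hvw : ¬ G.Adj v w := by
        intro hvw
        exact hpaw w y z v hwy hwz hyz hvw.symm (fun h => hvy h.symm) (fun h => hvz h.symm)
      have hxw : G.Adj x w := by
        by_contra h
        exact hT w hw x hx y hy (fun h' => h h'.symm) hxy hwy
      exact hpaw x z w v hxz hxw hwz.symm hvx.symm (fun h => hvz h.symm) (fun h => hvw h.symm)
    intro y hy z hz hvy hvz hyz
    by_cases hxy : G.Adj x y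
    · by_cases hxz : G.Adj x z
      · exact hpaw x y z v hxy hxz hyz hvx.symm (fun h => hvy h.symm) (fun h => hvz h.symm)
      · exact aux z hz y hy hvz hvy hyz.symm hxz hxy
    · by_cases hxz : G.Adj x z
      · exact aux y hy z hz hvy hvz hyz hxy hxz
      · exact hT y hy x hx z hz (fun h => hxy h.symm) hxz hyz
  refine hT.insert ?_ h2
  intro y hy z hz hyz hvy hvz
  obtain ⟨u, hu, w, hw, huw, huy, hwy⟩ := htwo y hy
  have hvu : G.Adj v u := by
    by_contra h
    exact h2 u hu y hy h hvy huy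
  have hzu : G.Adj z u := by
    by_contra h
    exact hT y hy z hz u hu hyz h huy.symm
  exact hpaw u v z y hvu.symm hzu.symm hvz huy hvy (fun h => hyz h.symm)

lemma mp_extend_C4 (hno : ¬ ITM paw G) {S : Set V}
    (htri : ∀ a ∈ S, ∀ b ∈ S, ∀ c ∈ S, G.Adj a b → G.Adj b c → ¬ G.Adj a c)
    {T : Finset V} (hTS : ∀ x ∈ T, x ∈ S) (hT : MP G T) {a b c d : V}
    (ha : a ∈ T) (hb : b ∈ T) (hc : c ∈ T) (hd : d ∈ T) (hac' : a ≠ c) (hbd' : b ≠ d)
    (hab : G.Adj a b) (hac : ¬ G.Adj a c) (hbd : ¬ G.Adj b d)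
    {v x : V} (hv : v ∈ S) (hx : x ∈ T) (hvx : G.Adj v x) : MP G (insert v T) := by
  have hnbr : ∀ y ∈ T, ∃ w ∈ T, G.Adj w y := by
    intro y hy
    by_cases h1 : G.Adj a y
    · exact ⟨a, ha, h1⟩
    · by_cases h2 : G.Adj b y
      · exact ⟨b, hb, h2⟩
      · exact absurd hab (hT a ha y hy b hb h1 (fun h => h2 h.symm))
  have htwin : ∀ y ∈ T, ∃ w ∈ T, w ≠ y ∧ ¬ G.Adj y w := by
    intro y hy
    by_cases h1 : G.Adj a y
    · have h2 : ¬ G.Adj b y := fun h =>
        htri a (hTS a ha) b (hTS b hb) y (hTS y hy) hab h h1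
      by_cases h3 : b = y
      · subst h3
        exact ⟨d, hd, hbd'.symm, hbd⟩
      · exact ⟨b, hb, h3, fun h => h2 h.symm⟩
    · by_cases h3 : a = y
      · subst h3
        exact ⟨c, hc, hac'.symm, hac⟩
      · exact ⟨a, ha, h3, fun h => h1 h.symm⟩
  have h2 : ∀ y ∈ T, ∀ z ∈ T, ¬ G.Adj v y → ¬ G.Adj v z → ¬ G.Adj y z := by
    have aux : ∀ y ∈ T, ∀ z ∈ T, ¬ G.Adj v y → ¬ G.Adj v z → G.Adj y z → ¬ G.Adj x y →
        G.Adj x z → False := by
      intro y hy z hz hvy hvz hyz hxy hxz
      obtain ⟨z', hz', hzz', hz'n⟩ := htwin z hz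
      have hxz' : G.Adj x z' := by
        by_contra h
        exact hT z hz z' hz' x hx hz'n (fun h' => h h'.symm) hxz.symm
      have hyz' : G.Adj y z' := by
        by_contra h
        exact hT z hz z' hz' y hy hz'n (fun h' => h h'.symm) hyz.symm
      have hvz' : ¬ G.Adj v z' := fun h =>
        htri v hv x (hTS x hx) z' (hTS z' hz') hvx hxz' h
      apply hno
      refine paw_of_C4 (x := x) (y := z) (z := y) (w := z') (v := v) hxz hyz.symm hyz' hxz'.symm
        hxy ?_ hz'n hzz'.symm hvx hvz hvy hvz'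
      rintro rfl
      exact hvy hvx
    intro y hy z hz hvy hvz hyz
    by_cases hxy : G.Adj x y
    · by_cases hxz : G.Adj x z
      · exact htri x (hTS x hx) y (hTS y hy) z (hTS z hz) hxy hyz hxz
      · exact aux z hz y hy hvz hvy hyz.symm hxz hxy
    · by_cases hxz : G.Adj x z
      · exact aux y hy z hz hvy hvz hyz hxy hxz
      · exact hT y hy x hx z hz (fun h => hxy h.symm) hxz hyz
  refine hT.insert ?_ h2
  intro y hy z hz hyz hvy hvz
  obtain ⟨w, hw, hwy⟩ := hnbr y hy
  have hwz : G.Adj w z := by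
    by_contra h
    exact hT y hy z hz w hw hyz (fun h' => h h'.symm) hwy.symm
  exact h2 y hy w hw hvy (fun h => htri v hv w (hTS w hw) z (hTS z hz) h hwz hvz) hwy.symm

/-- Growing a set inside a connected set. -/
lemma grow {s : Finset V} (hconn : Conn G (s : Set V)) (Q : Finset V → Prop) {T₀ : Finset V}
    (h0 : T₀ ⊆ s) (hne : T₀.Nonempty) (hQ0 : Q T₀)
    (hstep : ∀ T ⊆ s, T₀ ⊆ T → Q T → ∀ v ∈ s, (∃ x ∈ T, G.Adj v x) → Q (insert v T)) : Q s := by
  have hex : ((s.powerset.filter fun T => T₀ ⊆ T ∧ Q T)).Nonempty :=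
    ⟨T₀, by rw [Finset.mem_filter, Finset.mem_powerset]; exact ⟨h0, Finset.Subset.refl _, hQ0⟩⟩
  obtain ⟨T, hT, hmax⟩ := Finset.exists_max_image _ Finset.card hex
  rw [Finset.mem_filter, Finset.mem_powerset] at hT
  obtain ⟨hTs, hT0, hQT⟩ := hT
  by_cases hTeq : T = s
  · rw [← hTeq]; exact hQT
  · exfalso
    apply hTeq
    apply Finset.coe_injective
    apply hconn (T : Set V) (by exact_mod_cast hTs)
    · obtain ⟨x, hx⟩ := hne
      exact ⟨x, by simpa using hT0 hx⟩
    · intro x hx y hy hxy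
      by_contra hyT
      have hx' : x ∈ T := by simpa using hx
      have hy' : y ∈ s := by simpa using hy
      have hyT' : y ∉ T := by simpa using hyT
      have := hmax (insert y T) (by
        rw [Finset.mem_filter, Finset.mem_powerset]
        refine ⟨?_, hT0.trans (Finset.subset_insert _ _), hstep T hTs hT0 hQT y hy' ⟨x, hx', hxy.symm⟩⟩
        intro z hz
        rcases Finset.mem_insert.1 hz with rfl | hz
        · exact hy'
        · exact hTs hz)
      rw [Finset.card_insert_of_notMem hyT'] at this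
      omega

lemma MP.P4Free {s : Finset V} (h : MP G s) : P4Free G.Adj s := by
  intro a ha b hb c hc d hd _ _ _ _ _ _ ⟨_, _, h3, h4, _, h6⟩
  exact h c hc a ha d hd (fun h' => h4 h'.symm) h6 h3

/-- Connected sets of graphs without induced topological minor paw. -/
lemma P4Free_or (hno : ¬ ITM paw G) {s : Finset V} (hconn : Conn G (s : Set V))
    (hd : ITM diamond (restr G s)) : P4Free G.Adj s := by
  have hno' : ¬ ITM paw (restr G (s : Set V)) := fun h => hno (h.of_restr (by decide))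
  by_cases htri : ∃ a ∈ s, ∃ b ∈ s, ∃ c ∈ s, G.Adj a b ∧ G.Adj b c ∧ G.Adj a c
  · obtain ⟨a, ha, b, hb, c, hc, hab, hbc, hac⟩ := htri
    apply MP.P4Free
    refine grow hconn (MP G) (T₀ := {a, b, c}) ?_ ⟨a, by simp⟩ ?_ ?_
    · intro x hx
      simp only [Finset.mem_insert, Finset.mem_singleton] at hx
      rcases hx with rfl | rfl | rfl
      · exact ha
      · exact hb
      · exact hc
    · intro x hx y hy z hz hxy hyz
      simp only [Finset.mem_insert, Finset.mem_singleton] at hx hy hz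
      rcases hx with rfl | rfl | rfl <;> rcases hy with rfl | rfl | rfl <;>
        rcases hz with rfl | rfl | rfl <;>
        first
        | exact G.loopless.irrefl _
        | exact absurd hab hxy
        | exact absurd hab.symm hxy
        | exact absurd hbc hxy
        | exact absurd hbc.symm hxy
        | exact absurd hac hxy
        | exact absurd hac.symm hxy
        | exact hyz
        | exact hxy
    · intro T _ hT0 hT v _ ⟨x, hx, hvx⟩
      exact mp_extend_triangle hno hT (a := a) (b := b) (c := c) (hT0 (by simp))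
        (hT0 (by simp)) (hT0 (by simp)) hab hbc hac hx hvx
  · push Not at htri
    rcases paw_or_of_diamond hd with h | ⟨a, b, c, hab, hbc, hac⟩ |
      ⟨a, b, c, d, hac', hbd', hab, hbc, hcd, hda, hac, hbd⟩
    · exact absurd h hno'
    · exact absurd hac.1 (htri a (by simpa using hab.2.1) b (by simpa using hab.2.2) c
        (by simpa using hbc.2.2) hab.1 hbc.1)
    · have has : a ∈ s := by simpa using hab.2.1
      have hbs : b ∈ s := by simpa using hab.2.2
      have hcs : c ∈ s := by simpa using hbc.2.2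
      have hds : d ∈ s := by simpa using hda.2.1
      have hac2 : ¬ G.Adj a c := fun h => hac ⟨h, by simpa using has, by simpa using hcs⟩
      have hbd2 : ¬ G.Adj b d := fun h => hbd ⟨h, by simpa using hbs, by simpa using hds⟩
      have hca2 : ¬ G.Adj c a := fun h => hac2 h.symm
      have hdb2 : ¬ G.Adj d b := fun h => hbd2 h.symm
      apply MP.P4Free
      refine grow hconn (MP G) (T₀ := {a, b, c, d}) ?_ ⟨a, by simp⟩ ?_ ?_
      · intro x hx
        simp only [Finset.mem_insert, Finset.mem_singleton] at hx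
        rcases hx with rfl | rfl | rfl | rfl
        · exact has
        · exact hbs
        · exact hcs
        · exact hds
      · intro x hx y hy z hz hxy hyz
        simp only [Finset.mem_insert, Finset.mem_singleton] at hx hy hz
        have h1 := hab.1
        have h2 := hbc.1
        have h3 := hcd.1
        have h4 := hda.1
        have h1' := h1.symm
        have h2' := h2.symm
        have h3' := h3.symm
        have h4' := h4.symm
        rcases hx with rfl | rfl | rfl | rfl <;> rcases hy with rfl | rfl | rfl | rfl <;>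
          first
          | contradiction
          | (rcases hz with rfl | rfl | rfl | rfl <;>
              first
              | contradiction
              | assumption
              | exact G.loopless.irrefl _)
      · intro T hTs hT0 hT v hv ⟨x, hx, hvx⟩
        refine mp_extend_C4 hno (S := (s : Set V)) ?_ ?_ hT (a := a) (b := b) (c := c) (d := d)
          (hT0 (by simp)) (hT0 (by simp)) (hT0 (by simp)) (hT0 (by simp)) hac' hbd' hab.1 hac2
          hbd2 (by simpa using hv) hx hvx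
        · intro a ha b hb c hc hab hbc
          exact htri a (by simpa using ha) b (by simpa using hb) c (by simpa using hc) hab hbc
        · intro x hx
          simpa using hTs hx

end Pool.Agent.H192R2.CW
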