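import Pool.Agent.H192R2.CW.Unbounded

set_option autoImplicit false

namespace Pool.Agent.H192R2.CW

/-! ### Small graphs -/

/-- The symmetric Boolean matrix with the given entries above the diagonal. -/
def mat5 (a b c d e f g h i j : Bool) : Fin 5 → Fin 5 → Bool :=
  ![![false, a, b, c, d], ![a, false, e, f, g], ![b, e, false, h, i], ![c, f, h, false, j],
    ![d, g, i, j, false]]

def any5 (p : Fin 5 → Bool) : Bool := p 0 || p 1 || p 2 || p 3 || p 4

lemma any5_iff (p : Fin 5 → Bool) : any5 p = true ↔ ∃ x, p x = true := by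
  unfold any5
  constructor
  · intro h
    simp only [Bool.or_eq_true] at h
    rcases h with (((h | h) | h) | h) | h
    · exact ⟨_, h⟩
    · exact ⟨_, h⟩
    · exact ⟨_, h⟩
    · exact ⟨_, h⟩
    · exact ⟨_, h⟩
  · rintro ⟨x, hx⟩
    fin_cases x <;> simp_all

def ne5 (x y : Fin 5) : Bool := !(x.val == y.val)

lemma ne5_iff (x y : Fin 5) : ne5 x y = true ↔ x ≠ y := by
  unfold ne5
  simp [Fin.ext_iff]

/-- Search for one of the seven minimal graphs. -/
def search5 (M : Fin 5 → Fin 5 → Bool) : Bool :=
  (any5 fun x => any5 fun y => (ne5 x y && !M x y) && any5 fun z =>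
    (ne5 x z && ne5 y z) && (!M x z && !M y z)) ||
  (any5 fun x => any5 fun y => M x y && any5 fun z => (ne5 x z && ne5 y z) && any5 fun w =>
    (ne5 x w && ne5 y w && ne5 z w) &&
      ((M x z && M x w && M y z && M y w && M z w) ||
       (!M x z && M x w && M y z && !M y w && M z w) ||
       (!M x z && !M x w && !M y z && !M y w && M z w) ||
       (M x z && !M x w && M y z && !M y w && !M z w))) ||
  (any5 fun x => any5 fun y => M x y && any5 fun z => (ne5 x z && ne5 y z && M y z && !M x z) &&
    any5 fun w => (ne5 x w && ne5 y w && ne5 z w && M z w && !M y w) && any5 fun v =>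
      (ne5 x v && ne5 y v && ne5 z v && ne5 w v) &&
      ((!M x w && !M y v && !M z v && M w v && M x v) ||
       (!M x w && M x v && M y v && M z v && M w v) ))

set_option maxRecDepth 100000 in
lemma search5_true : ∀ a b c d e f g h i j : Bool,
    search5 (mat5 a b c d e f g h i j) = true := by
  decide +kernel

end Pool.Agent.H192R2.CW
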