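import Pool.Agent.H192R2.CW.Small

set_option autoImplicit false

namespace Pool.Agent.H192R2.CW

/-- Adjacency in the path with four vertices `0, 1, 2, 3`. -/
def p4 : SimpleGraph (Fin 4) := SimpleGraph.fromEdgeSet {s(0, 1), s(1, 2), s(2, 3)}

instance : DecidableRel p4.Adj := by unfold p4; infer_instance

lemma p4_eq : SimpleGraph.pathGraph 4 = p4 := by
  ext a b
  rw [SimpleGraph.pathGraph_adj]
  revert a b
  decide

section

variable {W : Type} {H : SimpleGraph W}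

/-- Embeddings from functions. -/
def embOf {k : ℕ} {F : SimpleGraph (Fin k)} (v : Fin k → W) (hinj : Function.Injective v)
    (h : ∀ a b, a < b → (H.Adj (v a) (v b) ↔ F.Adj a b)) : F ↪g H where
  toFun := v
  inj' := hinj
  map_rel_iff' := by
    intro a b
    show H.Adj (v a) (v b) ↔ F.Adj a b
    rcases lt_trichotomy a b with h1 | h1 | h1
    · exact h a b h1
    · subst h1
      simp
    · rw [H.adj_comm, F.adj_comm]
      exact h b a h1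

lemma emb3 {F : SimpleGraph (Fin 3)} (x y z : W) (h1 : x ≠ y) (h2 : x ≠ z) (h3 : y ≠ z)
    (a01 : H.Adj x y ↔ F.Adj 0 1) (a02 : H.Adj x z ↔ F.Adj 0 2) (a12 : H.Adj y z ↔ F.Adj 1 2) :
    Nonempty (F ↪g H) := by
  refine ⟨embOf ![x, y, z] ?_ ?_⟩
  · intro a b hab
    fin_cases a <;> fin_cases b <;> simp_all
  · intro a b hab
    fin_cases a <;> fin_cases b <;> first | exact absurd hab (by decide) | assumption

lemma emb4 {F : SimpleGraph (Fin 4)} (x y z w : W) (h1 : x ≠ y) (h2 : x ≠ z) (h3 : y ≠ z)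
    (h4 : x ≠ w) (h5 : y ≠ w) (h6 : z ≠ w)
    (a01 : H.Adj x y ↔ F.Adj 0 1) (a02 : H.Adj x z ↔ F.Adj 0 2) (a12 : H.Adj y z ↔ F.Adj 1 2)
    (a03 : H.Adj x w ↔ F.Adj 0 3) (a13 : H.Adj y w ↔ F.Adj 1 3) (a23 : H.Adj z w ↔ F.Adj 2 3) :
    Nonempty (F ↪g H) := by
  refine ⟨embOf ![x, y, z, w] ?_ ?_⟩
  · intro a b hab
    fin_cases a <;> fin_cases b <;> simp_all
  · intro a b hab
    fin_cases a <;> fin_cases b <;> first | exact absurd hab (by decide) | assumption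

lemma emb5 {F : SimpleGraph (Fin 5)} (x y z w v : W) (h1 : x ≠ y) (h2 : x ≠ z) (h3 : y ≠ z)
    (h4 : x ≠ w) (h5 : y ≠ w) (h6 : z ≠ w) (h7 : x ≠ v) (h8 : y ≠ v) (h9 : z ≠ v) (h10 : w ≠ v)
    (a01 : H.Adj x y ↔ F.Adj 0 1) (a02 : H.Adj x z ↔ F.Adj 0 2) (a12 : H.Adj y z ↔ F.Adj 1 2)
    (a03 : H.Adj x w ↔ F.Adj 0 3) (a13 : H.Adj y w ↔ F.Adj 1 3) (a23 : H.Adj z w ↔ F.Adj 2 3)
    (a04 : H.Adj x v ↔ F.Adj 0 4) (a14 : H.Adj y v ↔ F.Adj 1 4) (a24 : H.Adj z v ↔ F.Adj 2 4)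
    (a34 : H.Adj w v ↔ F.Adj 3 4) :
    Nonempty (F ↪g H) := by
  refine ⟨embOf ![x, y, z, w, v] ?_ ?_⟩
  · intro a b hab
    fin_cases a <;> fin_cases b <;> simp_all
  · intro a b hab
    fin_cases a <;> fin_cases b <;> first | exact absurd hab (by decide) | assumption

/-- `H` contains one of the seven minimal graphs. -/
def HasMin (H : SimpleGraph W) : Prop :=
  Nonempty ((⊥ : SimpleGraph (Fin 3)) ↪g H) ∨ Nonempty (twoK2 ↪g H) ∨ Nonempty (cyc4 ↪g H) ∨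
    Nonempty (triIso ↪g H) ∨ Nonempty ((⊤ : SimpleGraph (Fin 4)) ↪g H) ∨
    Nonempty (cyc5 ↪g H) ∨ Nonempty (gem ↪g H)

lemma hasMin_of_three {x y z : W} (h1 : x ≠ y) (h2 : x ≠ z) (h3 : y ≠ z)
    (a01 : ¬ H.Adj x y) (a02 : ¬ H.Adj x z) (a12 : ¬ H.Adj y z) : HasMin H :=
  Or.inl (emb3 x y z h1 h2 h3 (by simp [a01]) (by simp [a02]) (by simp [a12]))

lemma hasMin_of_four {x y z w : W} (h1 : x ≠ y) (h2 : x ≠ z) (h3 : y ≠ z)
    (h4 : x ≠ w) (h5 : y ≠ w) (h6 : z ≠ w) (hxy : H.Adj x y)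
    (h : (H.Adj x z ∧ H.Adj x w ∧ H.Adj y z ∧ H.Adj y w ∧ H.Adj z w) ∨
       (¬ H.Adj x z ∧ H.Adj x w ∧ H.Adj y z ∧ ¬ H.Adj y w ∧ H.Adj z w) ∨
       (¬ H.Adj x z ∧ ¬ H.Adj x w ∧ ¬ H.Adj y z ∧ ¬ H.Adj y w ∧ H.Adj z w) ∨
       (H.Adj x z ∧ ¬ H.Adj x w ∧ H.Adj y z ∧ ¬ H.Adj y w ∧ ¬ H.Adj z w)) : HasMin H := by
  rcases h with ⟨b1, b2, b3, b4, b5⟩ | ⟨b1, b2, b3, b4, b5⟩ | ⟨b1, b2, b3, b4, b5⟩ |
    ⟨b1, b2, b3, b4, b5⟩
  · right; right; right; right; left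
    apply emb4 x y z w h1 h2 h3 h4 h5 h6 <;>
      (simp only [hxy, b1, b2, b3, b4, b5, true_iff, false_iff]; decide)
  · right; right; left
    apply emb4 x y z w h1 h2 h3 h4 h5 h6 <;>
      (simp only [hxy, b1, b2, b3, b4, b5, true_iff, false_iff]; decide)
  · right; left
    apply emb4 x y z w h1 h2 h3 h4 h5 h6 <;>
      (simp only [hxy, b1, b2, b3, b4, b5, true_iff, false_iff]; decide)
  · right; right; right; left
    apply emb4 x y z w h1 h2 h3 h4 h5 h6 <;>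
      (simp only [hxy, b1, b2, b3, b4, b5, true_iff, false_iff]; decide)

lemma hasMin_of_five {x y z w v : W} (h1 : x ≠ y) (h2 : x ≠ z) (h3 : y ≠ z)
    (h4 : x ≠ w) (h5 : y ≠ w) (h6 : z ≠ w) (h7 : x ≠ v) (h8 : y ≠ v) (h9 : z ≠ v) (h10 : w ≠ v)
    (c1 : H.Adj x y) (c2 : H.Adj y z) (c3 : ¬ H.Adj x z) (c4 : H.Adj z w) (c5 : ¬ H.Adj y w)
    (h : (¬ H.Adj x w ∧ ¬ H.Adj y v ∧ ¬ H.Adj z v ∧ H.Adj w v ∧ H.Adj x v) ∨
      (¬ H.Adj x w ∧ H.Adj x v ∧ H.Adj y v ∧ H.Adj z v ∧ H.Adj w v)) : HasMin H := by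
  rcases h with ⟨b1, b2, b3, b4, b5⟩ | ⟨b1, b2, b3, b4, b5⟩
  · right; right; right; right; right; left
    apply emb5 x y z w v h1 h2 h3 h4 h5 h6 h7 h8 h9 h10 <;>
      (simp only [c1, c2, c3, c4, c5, b1, b2, b3, b4, b5, true_iff, false_iff]; decide)
  · right; right; right; right; right; right
    apply emb5 x y z w v h1 h2 h3 h4 h5 h6 h7 h8 h9 h10 <;>
      (simp only [c1, c2, c3, c4, c5, b1, b2, b3, b4, b5, true_iff, false_iff]; decide)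

theorem hasMin_of_five_vertices (u : Fin 5 → W) (hu : Function.Injective u) : HasMin H := by
  classical
  let M : Fin 5 → Fin 5 → Bool := fun x y => decide (H.Adj (u x) (u y))
  have hM : M = mat5 (M 0 1) (M 0 2) (M 0 3) (M 0 4) (M 1 2) (M 1 3) (M 1 4) (M 2 3) (M 2 4)
      (M 3 4) := by
    funext x y
    have hs : ∀ x y, M x y = M y x := by
      intro x y
      simp only [M, H.adj_comm]
    have hd : ∀ x, M x x = false := by
      intro x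
      simp [M]
    fin_cases x <;> fin_cases y <;> first | exact hd _ | rfl | exact hs _ _
  have h := search5_true (M 0 1) (M 0 2) (M 0 3) (M 0 4) (M 1 2) (M 1 3) (M 1 4) (M 2 3) (M 2 4)
      (M 3 4)
  rw [← hM] at h
  have hMt : ∀ x y, M x y = true ↔ H.Adj (u x) (u y) := by
    intro x y; simp [M]
  have hMf : ∀ x y, M x y = false ↔ ¬ H.Adj (u x) (u y) := by
    intro x y; simp [M]
  have hne : ∀ x y, ne5 x y = true → u x ≠ u y := by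
    intro x y h h'
    rw [ne5_iff] at h
    exact h (hu h')
  unfold search5 at h
  simp only [Bool.or_eq_true, any5_iff, Bool.and_eq_true, Bool.not_eq_true', hMt, hMf] at h
  rcases h with (⟨x, y, ⟨h1, h2⟩, z, ⟨h3, h4⟩, h5, h6⟩ |
    ⟨x, y, h1, z, ⟨h2, h3⟩, w, ⟨⟨h4, h5⟩, h6⟩, h7⟩) |
    ⟨x, y, h1, z, ⟨⟨⟨h2, h3⟩, h4⟩, h5⟩, w, ⟨⟨⟨⟨h6, h7⟩, h8⟩, h9⟩, h10⟩, v,
      ⟨⟨⟨h11, h12⟩, h13⟩, h14⟩, h15⟩
  · exact hasMin_of_three (hne _ _ h1) (hne _ _ h3) (hne _ _ h4) h2 h5 h6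
  · refine hasMin_of_four (x := u x) (y := u y) (z := u z) (w := u w) h1.ne (hne _ _ h2)
      (hne _ _ h3) (hne _ _ h4) (hne _ _ h5) (hne _ _ h6) h1 ?_
    tauto
  · refine hasMin_of_five (x := u x) (y := u y) (z := u z) (w := u w) (v := u v) h1.ne
      (hne _ _ h2) (hne _ _ h3) (hne _ _ h6) (hne _ _ h7) (hne _ _ h8) (hne _ _ h11)
      (hne _ _ h12) (hne _ _ h13) (hne _ _ h14) h1 h4 h5 h9 h10 ?_
    tauto

end

end Pool.Agent.H192R2.CW
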