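import Pool.Agent.H192R2.CW.Small2

set_option autoImplicit false

namespace Pool.Agent.H192R2.CW

def any4 (p : Fin 4 → Bool) : Bool := p 0 || p 1 || p 2 || p 3

lemma any4_iff (p : Fin 4 → Bool) : any4 p = true ↔ ∃ x, p x = true := by
  unfold any4
  constructor
  · intro h
    simp only [Bool.or_eq_true] at h
    rcases h with ((h | h) | h) | h
    · exact ⟨_, h⟩
    · exact ⟨_, h⟩
    · exact ⟨_, h⟩
    · exact ⟨_, h⟩
  · rintro ⟨x, hx⟩
    fin_cases x <;> simp_all

def ne4 (x y : Fin 4) : Bool := !(x.val == y.val)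

lemma ne4_iff (x y : Fin 4) : ne4 x y = true ↔ x ≠ y := by
  unfold ne4
  simp [Fin.ext_iff]

def mat4 (a b c d e f : Bool) : Fin 4 → Fin 4 → Bool :=
  ![![false, a, b, c], ![a, false, d, e], ![b, d, false, f], ![c, e, f, false]]

def search4 (M : Fin 4 → Fin 4 → Bool) : Bool :=
  (any4 fun x => any4 fun y => (ne4 x y && !M x y) && any4 fun z =>
    (ne4 x z && ne4 y z) && (!M x z && !M y z)) ||
  (any4 fun x => any4 fun y => M x y && any4 fun z => (ne4 x z && ne4 y z) && any4 fun w =>
    (ne4 x w && ne4 y w && ne4 z w) &&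
      ((M x z && M x w && M y z && M y w && M z w) ||
       (!M x z && M x w && M y z && !M y w && M z w) ||
       (!M x z && !M x w && !M y z && !M y w && M z w) ||
       (M x z && !M x w && M y z && !M y w && !M z w) ||
       (!M x z && !M x w && M y z && !M y w && M z w) ||
       (M x z && M x w && M y z && !M y w && !M z w) ||
       (M x z && M x w && M y z && M y w && !M z w)))

set_option maxRecDepth 100000 in
lemma search4_true : ∀ a b c d e f : Bool, search4 (mat4 a b c d e f) = true := by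
  decide +kernel

section

variable {W : Type} {H : SimpleGraph W}

/-- An embedding between finite graphs with equally many vertices can be inverted. -/
lemma emb_inv {W' : Type} [Finite W] {F : SimpleGraph W'} (hcard : Nat.card W = Nat.card W')
    [Finite W'] (h : Nonempty (F ↪g H)) : Nonempty (H ↪g F) := by
  obtain ⟨φ⟩ := h
  have hb : Function.Bijective φ :=
    (Function.Injective.bijective_of_nat_card_le φ.injective hcard.le)
  let e : W' ≃ W := Equiv.ofBijective φ hb
  have he : ∀ x, e x = φ x := fun x => rfl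
  refine ⟨⟨e.symm.toEmbedding, ?_⟩⟩
  intro a b
  show F.Adj (e.symm a) (e.symm b) ↔ H.Adj a b
  rw [← φ.map_rel_iff]
  show H.Adj (φ (e.symm a)) (φ (e.symm b)) ↔ H.Adj a b
  rw [← he, ← he, e.apply_symm_apply, e.apply_symm_apply]

/-- The three graphs for which the clique-width is bounded. -/
def Good (H : SimpleGraph W) : Prop :=
  Nonempty (H ↪g SimpleGraph.pathGraph 4) ∨ Nonempty (H ↪g paw) ∨ Nonempty (H ↪g diamond)

lemma classify4 (u : Fin 4 ≃ W) : HasMin H ∨ Good H := by
  classical
  have : Finite W := Finite.of_equiv _ u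
  have hcard : Nat.card W = Nat.card (Fin 4) := Nat.card_congr u.symm
  have hu := u.injective
  let M : Fin 4 → Fin 4 → Bool := fun x y => decide (H.Adj (u x) (u y))
  have hM : M = mat4 (M 0 1) (M 0 2) (M 0 3) (M 1 2) (M 1 3) (M 2 3) := by
    funext x y
    have hs : ∀ x y, M x y = M y x := by
      intro x y
      simp only [M, H.adj_comm]
    have hd : ∀ x, M x x = false := by
      intro x
      simp [M]
    fin_cases x <;> fin_cases y <;> first | exact hd _ | rfl | exact hs _ _
  have h := search4_true (M 0 1) (M 0 2) (M 0 3) (M 1 2) (M 1 3) (M 2 3)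
  rw [← hM] at h
  have hMt : ∀ x y, M x y = true ↔ H.Adj (u x) (u y) := by
    intro x y; simp [M]
  have hMf : ∀ x y, M x y = false ↔ ¬ H.Adj (u x) (u y) := by
    intro x y; simp [M]
  have hne : ∀ x y, ne4 x y = true → u x ≠ u y := by
    intro x y h h'
    rw [ne4_iff] at h
    exact h (hu h')
  unfold search4 at h
  simp only [Bool.or_eq_true, any4_iff, Bool.and_eq_true, Bool.not_eq_true', hMt, hMf] at h
  rcases h with ⟨x, y, ⟨h1, h2⟩, z, ⟨h3, h4⟩, h5, h6⟩ |
    ⟨x, y, h1, z, ⟨h2, h3⟩, w, ⟨⟨h4, h5⟩, h6⟩, h7⟩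
  · exact Or.inl (hasMin_of_three (hne _ _ h1) (hne _ _ h3) (hne _ _ h4) h2 h5 h6)
  · rcases h7 with (((h7 | ⟨⟨⟨⟨b1, b2⟩, b3⟩, b4⟩, b5⟩) | ⟨⟨⟨⟨b1, b2⟩, b3⟩, b4⟩, b5⟩) |
      ⟨⟨⟨⟨b1, b2⟩, b3⟩, b4⟩, b5⟩)
    · left
      refine hasMin_of_four (x := u x) (y := u y) (z := u z) (w := u w) h1.ne (hne _ _ h2)
        (hne _ _ h3) (hne _ _ h4) (hne _ _ h5) (hne _ _ h6) h1 ?_
      tauto
    · right; left
      rw [p4_eq]
      apply emb_inv hcard
      apply emb4 (u x) (u y) (u z) (u w) h1.ne (hne _ _ h2) (hne _ _ h3) (hne _ _ h4) (hne _ _ h5)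
        (hne _ _ h6) <;> (simp only [h1, b1, b2, b3, b4, b5, true_iff, false_iff]; decide)
    · right; right; left
      apply emb_inv hcard
      apply emb4 (u x) (u y) (u z) (u w) h1.ne (hne _ _ h2) (hne _ _ h3) (hne _ _ h4) (hne _ _ h5)
        (hne _ _ h6) <;> (simp only [h1, b1, b2, b3, b4, b5, true_iff, false_iff]; decide)
    · right; right; right
      apply emb_inv hcard
      apply emb4 (u x) (u y) (u z) (u w) h1.ne (hne _ _ h2) (hne _ _ h3) (hne _ _ h4) (hne _ _ h5)
        (hne _ _ h6) <;> (simp only [h1, b1, b2, b3, b4, b5, true_iff, false_iff]; decide)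

lemma good_of_fin3 (T : SimpleGraph (Fin 3)) : HasMin T ∨ Good T := by
  by_cases h1 : T.Adj 0 1 <;> by_cases h2 : T.Adj 0 2 <;> by_cases h3 : T.Adj 1 2
  · right; right; left
    refine ⟨embOf ![0, 1, 2] (by decide) ?_⟩
    intro a b hab
    fin_cases a <;> fin_cases b <;> first
      | exact absurd hab (by decide)
      | (simp [h1, h2, h3]; decide)
  · right; left
    rw [p4_eq]
    refine ⟨embOf ![1, 0, 2] (by decide) ?_⟩
    intro a b hab
    fin_cases a <;> fin_cases b <;> first
      | exact absurd hab (by decide)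
      | (simp [h1, h2, h3]; decide)
  · right; left
    rw [p4_eq]
    refine ⟨embOf ![0, 1, 2] (by decide) ?_⟩
    intro a b hab
    fin_cases a <;> fin_cases b <;> first
      | exact absurd hab (by decide)
      | (simp [h1, h2, h3]; decide)
  · right; left
    rw [p4_eq]
    refine ⟨embOf ![0, 1, 3] (by decide) ?_⟩
    intro a b hab
    fin_cases a <;> fin_cases b <;> first
      | exact absurd hab (by decide)
      | (simp [h1, h2, h3]; decide)
  · right; left
    rw [p4_eq]
    refine ⟨embOf ![0, 2, 1] (by decide) ?_⟩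
    intro a b hab
    fin_cases a <;> fin_cases b <;> first
      | exact absurd hab (by decide)
      | (simp [h1, h2, h3]; decide)
  · right; left
    rw [p4_eq]
    refine ⟨embOf ![0, 3, 1] (by decide) ?_⟩
    intro a b hab
    fin_cases a <;> fin_cases b <;> first
      | exact absurd hab (by decide)
      | (simp [h1, h2, h3]; decide)
  · right; left
    rw [p4_eq]
    refine ⟨embOf ![3, 0, 1] (by decide) ?_⟩
    intro a b hab
    fin_cases a <;> fin_cases b <;> first
      | exact absurd hab (by decide)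
      | (simp [h1, h2, h3]; decide)
  · left
    exact hasMin_of_three (x := 0) (y := 1) (z := 2) (by decide) (by decide) (by decide) h1 h2 h3

lemma good_of_fin2 (T : SimpleGraph (Fin 2)) : Good T := by
  left
  rw [p4_eq]
  by_cases h1 : T.Adj 0 1
  · refine ⟨embOf ![0, 1] (by decide) ?_⟩
    intro a b hab
    fin_cases a <;> fin_cases b <;> first
      | exact absurd hab (by decide)
      | (simp [h1]; decide)
  · refine ⟨embOf ![0, 2] (by decide) ?_⟩
    intro a b hab
    fin_cases a <;> fin_cases b <;> first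
      | exact absurd hab (by decide)
      | (simp [h1]; decide)

lemma good_of_fin1 (T : SimpleGraph (Fin 1)) : Good T := by
  left
  rw [p4_eq]
  refine ⟨embOf ![0] (by decide) ?_⟩
  intro a b hab
  exact absurd hab (by simp [Subsingleton.elim a b])

lemma good_of_fin0 (T : SimpleGraph (Fin 0)) : Good T := by
  left
  refine ⟨embOf (fun i => i.elim0) (fun i => i.elim0) (fun i => i.elim0)⟩

lemma HasMin.of_iso {W' : Type} {H' : SimpleGraph W'} (e : H' ↪g H) (h : HasMin H') :
    HasMin H := by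
  rcases h with ⟨⟨φ⟩⟩ | ⟨⟨φ⟩⟩ | ⟨⟨φ⟩⟩ | ⟨⟨φ⟩⟩ | ⟨⟨φ⟩⟩ | ⟨⟨φ⟩⟩ | ⟨⟨φ⟩⟩
  · exact Or.inl ⟨e.comp φ⟩
  · exact Or.inr (Or.inl ⟨e.comp φ⟩)
  · exact Or.inr (Or.inr (Or.inl ⟨e.comp φ⟩))
  · exact Or.inr (Or.inr (Or.inr (Or.inl ⟨e.comp φ⟩)))
  · exact Or.inr (Or.inr (Or.inr (Or.inr (Or.inl ⟨e.comp φ⟩))))
  · exact Or.inr (Or.inr (Or.inr (Or.inr (Or.inr (Or.inl ⟨e.comp φ⟩)))))
  · exact Or.inr (Or.inr (Or.inr (Or.inr (Or.inr (Or.inr ⟨e.comp φ⟩)))))

lemma Good.of_iso {W' : Type} {H' : SimpleGraph W'} (e : H ↪g H') (h : Good H') : Good H := by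
  rcases h with ⟨⟨φ⟩⟩ | ⟨⟨φ⟩⟩ | ⟨⟨φ⟩⟩
  · exact Or.inl ⟨φ.comp e⟩
  · exact Or.inr (Or.inl ⟨φ.comp e⟩)
  · exact Or.inr (Or.inr ⟨φ.comp e⟩)

/-- Every finite graph is an induced subgraph of one of the three good graphs or contains one of
the seven minimal bad graphs. -/
theorem classify [Finite W] (H : SimpleGraph W) : HasMin H ∨ Good H := by
  classical
  rcases Nat.lt_or_ge (Nat.card W) 5 with hlt | hge
  · obtain ⟨n, ⟨e⟩⟩ := Finite.exists_equiv_fin W
    have hn : Nat.card W = n := by rw [Nat.card_congr e]; simp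
    have key : ∀ T : SimpleGraph (Fin n), HasMin T ∨ Good T := by
      have : n < 5 := by omega
      interval_cases n
      · exact fun T => Or.inr (good_of_fin0 T)
      · exact fun T => Or.inr (good_of_fin1 T)
      · exact fun T => Or.inr (good_of_fin2 T)
      · exact fun T => good_of_fin3 T
      · exact fun T => classify4 (Equiv.refl _)
    let T : SimpleGraph (Fin n) := H.comap e.symm
    have i1 : T ↪g H := SimpleGraph.Embedding.comap e.symm.toEmbedding H
    have i2 : H ↪g T := by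
      refine ⟨e.toEmbedding, ?_⟩
      intro a b
      show H.Adj (e.symm (e a)) (e.symm (e b)) ↔ H.Adj a b
      rw [e.symm_apply_apply, e.symm_apply_apply]
    rcases key T with h | h
    · exact Or.inl (h.of_iso i1)
    · exact Or.inr (h.of_iso i2)
  · left
    have : Fintype W := Fintype.ofFinite W
    rw [Nat.card_eq_fintype_card] at hge
    obtain ⟨f⟩ : Nonempty (Fin 5 ↪ W) := by
      apply Function.Embedding.nonempty_of_card_le
      simpa using hge
    exact hasMin_of_five_vertices f f.injective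

/-- If clique-width is bounded for `H` then `H` is an induced subgraph of one of the three
graphs. -/
theorem good_of_bounded [Finite W] (H : SimpleGraph W) (h : BoundedCliqueWidth H) : Good H := by
  rcases classify H with h1 | h1
  · exfalso
    rcases h1 with ⟨⟨φ⟩⟩ | ⟨⟨φ⟩⟩ | ⟨⟨φ⟩⟩ | ⟨⟨φ⟩⟩ | ⟨⟨φ⟩⟩ | ⟨⟨φ⟩⟩ | ⟨⟨φ⟩⟩
    · exact not_bounded_3K1 (h.of_embedding φ)
    · exact not_bounded_twoK2 (h.of_embedding φ)
    · exact not_bounded_cyc4 (h.of_embedding φ)
    · exact not_bounded_triIso (h.of_embedding φ)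
    · exact not_bounded_K4 (h.of_embedding φ)
    · exact not_bounded_cyc5 (h.of_embedding φ)
    · exact not_bounded_gem (h.of_embedding φ)
  · exact h1

end

end Pool.Agent.H192R2.CW
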