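import Pool.Agent.H192R2.CW.Small

set_option autoImplicit false

namespace Pool.Agent.H192R2.CW

open Classical

variable {V : Type}

/-- The walk along a sequence of consecutively adjacent vertices. -/
lemma exists_walk (G : SimpleGraph V) (p : ℕ → V) (i d : ℕ)
    (h : ∀ t, i ≤ t → t < i + d → G.Adj (p t) (p (t + 1))) :
    ∃ w : G.Walk (p i) (p (i + d)), (∀ x, x ∈ w.support ↔ ∃ t, i ≤ t ∧ t ≤ i + d ∧ x = p t) ∧
      (∀ t, i ≤ t → t < i + d → s(p t, p (t + 1)) ∈ w.edges) ∧
      ((∀ s t, i ≤ s → s ≤ i + d → i ≤ t → t ≤ i + d → p s = p t → s = t) → w.IsPath) := by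
  induction d with
  | zero =>
    refine ⟨SimpleGraph.Walk.nil, ?_, ?_, ?_⟩
    · intro x
      simp only [SimpleGraph.Walk.support_nil, List.mem_cons, List.not_mem_nil, or_false, add_zero]
      constructor
      · intro h; exact ⟨i, le_rfl, le_rfl, h⟩
      · rintro ⟨t, h1, h2, rfl⟩
        have : t = i := le_antisymm h2 h1
        rw [this]
    · intro t h1 h2; omega
    · intro _; exact SimpleGraph.Walk.IsPath.nil
  | succ d ih =>
    obtain ⟨w, h1, h2, h3⟩ := ih (fun t ht1 ht2 => h t ht1 (by omega))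
    have hadj : G.Adj (p (i + d)) (p (i + (d + 1))) := h (i + d) (by omega) (by omega)
    refine ⟨w.concat hadj, ?_, ?_, ?_⟩
    · intro x
      rw [SimpleGraph.Walk.support_concat, List.mem_append, h1]
      constructor
      · rintro (⟨t, ht1, ht2, rfl⟩ | hx)
        · exact ⟨t, ht1, by omega, rfl⟩
        · simp only [List.mem_cons, List.not_mem_nil, or_false] at hx
          exact ⟨i + (d + 1), by omega, le_rfl, hx⟩
      · rintro ⟨t, ht1, ht2, rfl⟩
        rcases Nat.lt_or_ge t (i + (d + 1)) with h4 | h4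
        · exact Or.inl ⟨t, ht1, by omega, rfl⟩
        · have : t = i + (d + 1) := le_antisymm ht2 h4
          right; rw [this]; simp
    · intro t ht1 ht2
      rw [SimpleGraph.Walk.edges_concat, List.concat_eq_append, List.mem_append]
      rcases Nat.lt_or_ge t (i + d) with h4 | h4
      · exact Or.inl (h2 t ht1 h4)
      · have : t = i + d := by omega
        subst this
        right
        exact List.mem_singleton.2 rfl
    · intro hinj
      have hp := h3 (fun s t hs1 hs2 ht1 ht2 => hinj s t hs1 (by omega) ht1 (by omega))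
      rw [SimpleGraph.Walk.concat_isPath_iff]
      refine ⟨hp, ?_⟩
      rw [h1]
      rintro ⟨t, ht1, ht2, h4⟩
      have := hinj _ _ (by omega) le_rfl ht1 (by omega) h4
      omega

/-- Construct an induced topological minor from paths for the pairs `u < v`. -/
lemma ITM.of_lt {n : ℕ} {F : SimpleGraph (Fin n)} {G : SimpleGraph V} (f : Fin n → V)
    (hf : Function.Injective f) (A : Fin n → Fin n → Set V)
    (hcov : ∀ w, ∃ u v, u < v ∧ F.Adj u v ∧ (w = u ∨ w = v))
    (hQ : ∀ u v, u < v → F.Adj u v → ∃ w : G.Walk (f u) (f v), w.IsPath ∧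
      (∀ x, x ∈ w.support ↔ x ∈ A u v) ∧
      ∀ x ∈ A u v, ∀ y ∈ A u v, G.Adj x y → s(x, y) ∈ w.edges)
    (hbr : ∀ u v w, u < v → F.Adj u v → f w ∈ A u v → w = u ∨ w = v)
    (hdisj : ∀ u v u' v', u < v → F.Adj u v → u' < v' → F.Adj u' v' →
      (u ≠ u' ∨ v ≠ v') → ∀ x ∈ A u v, x ∈ A u' v' → ∃ w, x = f w)
    (hind : ∀ u v u' v', u < v → F.Adj u v → u' < v' → F.Adj u' v' →
      ∀ x ∈ A u v, ∀ y ∈ A u' v', G.Adj x y → ∃ a b, a < b ∧ F.Adj a b ∧ x ∈ A a b ∧ y ∈ A a b) :
    ITM F G := by
  choose Q hQ1 hQ2 hQ3 using hQ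
  let P : ∀ u v : Fin n, F.Adj u v → G.Walk (f u) (f v) := fun u v h =>
    if huv : u < v then Q u v huv h else
      (Q v u (lt_of_le_of_ne (not_lt.1 huv) h.ne.symm) h.symm).reverse
  have hP1 : ∀ u v (h : F.Adj u v) (huv : u < v), P u v h = Q u v huv h := by
    intro u v h huv
    simp only [P, dif_pos huv]
  have hP2 : ∀ u v (h : F.Adj u v) (huv : u < v), P v u h.symm = (Q u v huv h).reverse := by
    intro u v h huv
    simp only [P, dif_neg (not_lt.2 huv.le)]
  have hs1 : ∀ u v (h : F.Adj u v) (huv : u < v) x, x ∈ (P u v h).support ↔ x ∈ A u v := by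
    intro u v h huv x
    rw [hP1 u v h huv, hQ2]
  have hs2 : ∀ u v (h : F.Adj u v) (huv : u < v) x, x ∈ (P v u h.symm).support ↔ x ∈ A u v := by
    intro u v h huv x
    rw [hP2 u v h huv, SimpleGraph.Walk.support_reverse, List.mem_reverse, hQ2]
  -- supports in terms of ordered pairs
  have hs : ∀ u v (h : F.Adj u v), ∃ a b, a < b ∧ F.Adj a b ∧ s(u, v) = s(a, b) ∧
      ∀ x, x ∈ (P u v h).support ↔ x ∈ A a b := by
    intro u v h
    rcases lt_or_gt_of_ne h.ne with h1 | h1
    · exact ⟨u, v, h1, h, rfl, hs1 u v h h1⟩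
    · exact ⟨v, u, h1, h.symm, Sym2.eq_swap, hs2 v u h.symm h1⟩
  refine ⟨f, P, hf, ?_, ?_, ?_, ?_, ?_⟩
  · intro u v h
    rcases lt_or_gt_of_ne h.ne with h1 | h1
    · rw [hP1 u v h h1]; exact hQ1 _ _ _ _
    · rw [hP2 v u h.symm h1]; exact (hQ1 _ _ _ _).reverse
  · intro u v h
    rcases lt_or_gt_of_ne h.ne with h1 | h1
    · rw [hP1 u v h h1, hP2 u v h h1]
    · rw [hP2 v u h.symm h1, hP1 v u h.symm h1, SimpleGraph.Walk.reverse_reverse]
  · intro u v h w hw
    obtain ⟨a, b, hab, hF, hsab, hsup⟩ := hs u v h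
    have := hbr a b w hab hF ((hsup _).1 hw)
    rw [Sym2.eq_iff] at hsab
    rcases hsab with ⟨rfl, rfl⟩ | ⟨rfl, rfl⟩
    · exact this
    · exact this.symm
  · intro u v h u' v' h' hne x hx hx'
    obtain ⟨a, b, hab, hF, hsab, hsup⟩ := hs u v h
    obtain ⟨a', b', hab', hF', hsab', hsup'⟩ := hs u' v' h'
    refine hdisj a b a' b' hab hF hab' hF' ?_ x ((hsup _).1 hx) ((hsup' _).1 hx')
    by_contra hcon
    push Not at hcon
    obtain ⟨rfl, rfl⟩ := hcon
    exact hne (hsab.trans hsab'.symm)
  · intro x y hx hy hxy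
    have key : ∀ z, ((∃ w, z = f w) ∨ ∃ u v h, z ∈ (P u v h).support) →
        ∃ a b, a < b ∧ F.Adj a b ∧ z ∈ A a b := by
      rintro z (⟨w, rfl⟩ | ⟨u, v, h, hz⟩)
      · obtain ⟨u, v, huv, hF, hw⟩ := hcov w
        refine ⟨u, v, huv, hF, ?_⟩
        rw [← hs1 u v hF huv]
        rcases hw with rfl | rfl
        · exact SimpleGraph.Walk.start_mem_support _
        · exact SimpleGraph.Walk.end_mem_support _
      · obtain ⟨a, b, hab, hF, _, hsup⟩ := hs u v h
        exact ⟨a, b, hab, hF, (hsup _).1 hz⟩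
    obtain ⟨a, b, hab, hF, hxa⟩ := key x hx
    obtain ⟨a', b', hab', hF', hya⟩ := key y hy
    obtain ⟨c, d, hcd, hFc, hxc, hyc⟩ := hind a b a' b' hab hF hab' hF' x hxa y hya hxy
    refine ⟨c, d, hFc, ?_⟩
    rw [hP1 c d hFc hcd]
    exact hQ3 _ _ _ _ x hxc y hyc hxy

/-! ### Links -/

/-- `p 0, …, p m` is a walk from `a` to `b` with interior in `X`. -/
def Link (G : SimpleGraph V) (X : Set V) (a b : V) (m : ℕ) (p : ℕ → V) : Prop :=
  p 0 = a ∧ p m = b ∧ (∀ i, i < m → G.Adj (p i) (p (i + 1))) ∧ ∀ i, 0 < i → i < m → p i ∈ X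

/-- A link which is an induced path, up to a possible edge between its ends. -/
def ILink (G : SimpleGraph V) (X : Set V) (a b : V) (m : ℕ) (p : ℕ → V) : Prop :=
  2 ≤ m ∧ Link G X a b m p ∧ ∀ i j, i < j → j ≤ m → ¬ (i = 0 ∧ j = m) →
    p i ≠ p j ∧ (G.Adj (p i) (p j) → j = i + 1)

/-- Shortcut of a sequence. -/
def cut (p : ℕ → V) (i d : ℕ) : ℕ → V := fun t => if t ≤ i then p t else p (t + d)

lemma exists_ilink {G : SimpleGraph V} {X : Set V} {a b : V} (hab : a ≠ b) (ha : a ∉ X)
    (hb : b ∉ X) (h : ∃ m p, 2 ≤ m ∧ Link G X a b m p) : ∃ m p, ILink G X a b m p := by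
  have hex : ∃ m, ∃ p, 2 ≤ m ∧ Link G X a b m p := h
  obtain ⟨m, ⟨p, hm, hp⟩, hmin⟩ : ∃ m, (∃ p, 2 ≤ m ∧ Link G X a b m p) ∧
      ∀ m' < m, ¬ ∃ p, 2 ≤ m' ∧ Link G X a b m' p :=
    ⟨Nat.find hex, Nat.find_spec hex, fun m' hm' => Nat.find_min hex hm'⟩
  refine ⟨m, p, hm, hp, ?_⟩
  intro i j hij hjm hne
  obtain ⟨h0, hmb, hadj, hint⟩ := hp
  constructor
  · intro heq
    -- shortcut of length `m - (j - i)`
    have hlen : 2 ≤ m - (j - i) := by
      by_contra hcon
      have h1 : m - (j - i) = 0 ∨ m - (j - i) = 1 := by omega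
      rcases h1 with h1 | h1
      · omega
      · have h2 : (i = 0 ∧ j = m - 1) ∨ (i = 1 ∧ j = m) := by omega
        rcases h2 with ⟨rfl, rfl⟩ | ⟨rfl, rfl⟩
        · apply ha
          rw [← h0, heq]
          exact hint _ (by omega) (by omega)
        · apply hb
          rw [← hmb, ← heq]
          exact hint _ (by omega) (by omega)
    apply hmin (m - (j - i)) (by omega)
    refine ⟨cut p i (j - i), hlen, ?_, ?_, ?_, ?_⟩
    · simp only [cut, Nat.zero_le, if_true]; exact h0
    · unfold cut
      split_ifs with h1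
      · have : m = j := by omega
        have h3 : m - (j - i) = i := by omega
        rw [h3, heq, ← this]; exact hmb
      · have : m - (j - i) + (j - i) = m := by omega
        rw [this]; exact hmb
    · intro t ht
      unfold cut
      by_cases h1 : t + 1 ≤ i
      · rw [if_pos (by omega), if_pos h1]; exact hadj t (by omega)
      · rw [if_neg h1]
        by_cases h2 : t ≤ i
        · have : t = i := by omega
          subst this
          rw [if_pos le_rfl, heq]
          have h3 : t + 1 + (j - t) = j + 1 := by omega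
          rw [h3]
          exact hadj j (by omega)
        · rw [if_neg h2]
          have h3 : t + 1 + (j - i) = t + (j - i) + 1 := by omega
          rw [h3]
          exact hadj _ (by omega)
    · intro t ht1 ht2
      unfold cut
      split_ifs with h1
      · exact hint t ht1 (by omega)
      · exact hint _ (by omega) (by omega)
  · intro hA
    by_contra hcon
    have hlen : 2 ≤ m - (j - i) + 1 := by omega
    apply hmin (m - (j - i) + 1) (by omega)
    refine ⟨cut p i (j - i - 1), hlen, ?_, ?_, ?_, ?_⟩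
    · simp only [cut, Nat.zero_le, if_true]; exact h0
    · unfold cut
      rw [if_neg (by omega)]
      have : m - (j - i) + 1 + (j - i - 1) = m := by omega
      rw [this]; exact hmb
    · intro t ht
      unfold cut
      by_cases h1 : t + 1 ≤ i
      · rw [if_pos (by omega), if_pos h1]; exact hadj t (by omega)
      · rw [if_neg h1]
        by_cases h2 : t ≤ i
        · have : t = i := by omega
          subst this
          rw [if_pos le_rfl]
          have h3 : t + 1 + (j - t - 1) = j := by omega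
          rw [h3]
          exact hA
        · rw [if_neg h2]
          have h3 : t + 1 + (j - i - 1) = t + (j - i - 1) + 1 := by omega
          rw [h3]
          exact hadj _ (by omega)
    · intro t ht1 ht2
      unfold cut
      split_ifs with h1
      · exact hint t ht1 (by omega)
      · exact hint _ (by omega) (by omega)

/-- In a connected set, walks between any two vertices. -/
lemma Conn.exists_walk {G : SimpleGraph V} {X : Set V} (h : Conn G X) {a b : V} (ha : a ∈ X)
    (hb : b ∈ X) : ∃ (m : ℕ) (p : ℕ → V), p 0 = a ∧ p m = b ∧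
      (∀ i, i < m → G.Adj (p i) (p (i + 1))) ∧ ∀ i, i ≤ m → p i ∈ X := by
  let T : Set V := {y | y ∈ X ∧ ∃ (m : ℕ) (p : ℕ → V), p 0 = a ∧ p m = y ∧
      (∀ i, i < m → G.Adj (p i) (p (i + 1))) ∧ ∀ i, i ≤ m → p i ∈ X}
  have hT : T = X := by
    apply h T (fun y hy => hy.1)
    · exact ⟨a, ha, 0, fun _ => a, rfl, rfl, fun i hi => by omega, fun i _ => ha⟩
    · rintro x ⟨hx, m, p, h1, h2, h3, h4⟩ y hy hxy
      refine ⟨hy, m + 1, fun t => if t ≤ m then p t else y, ?_, ?_, ?_, ?_⟩
      · simp only [Nat.zero_le, if_true]; exact h1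
      · simp
      · intro i hi
        by_cases h5 : i + 1 ≤ m
        · simp only [h5, if_true, (by omega : i ≤ m)]
          exact h3 i (by omega)
        · have : i = m := by omega
          subst this
          simp only [le_rfl, if_true, h5, if_false, h2]
          exact hxy
      · intro i hi
        by_cases h5 : i ≤ m
        · simp only [h5, if_true]; exact h4 i h5
        · simp only [h5, if_false]; exact hy
  rw [← hT] at hb
  exact hb.2

/-- A connected set with neighbours of both `a` and `b` contains an induced path between them. -/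
lemma Conn.exists_ilink {G : SimpleGraph V} {X : Set V} (h : Conn G X) {a b : V} (hab : a ≠ b)
    (ha : a ∉ X) (hb : b ∉ X) (hna : ∃ x ∈ X, G.Adj a x) (hnb : ∃ x ∈ X, G.Adj b x) :
    ∃ m p, ILink G X a b m p := by
  obtain ⟨x, hx, hax⟩ := hna
  obtain ⟨y, hy, hby⟩ := hnb
  obtain ⟨m, p, h1, h2, h3, h4⟩ := h.exists_walk hx hy
  apply CW.exists_ilink hab ha hb
  refine ⟨m + 2, fun t => if t = 0 then a else if t ≤ m + 1 then p (t - 1) else b, by omega,
    ?_, ?_, ?_, ?_⟩
  · simp
  · simp
  · intro i hi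
    by_cases h5 : i = 0
    · subst h5
      have : (0 + 1) ≤ m + 1 := by omega
      simp only [if_true, Nat.zero_add, Nat.one_ne_zero, if_false, (by omega : 1 ≤ m + 1),
        Nat.sub_self, h1]
      exact hax
    · by_cases h6 : i + 1 ≤ m + 1
      · have h7 : i ≤ m + 1 := by omega
        have h8 : i + 1 ≠ 0 := by omega
        simp only [h5, if_false, h7, if_true, h8, h6]
        have h9 : i + 1 - 1 = (i - 1) + 1 := by omega
        rw [h9]
        exact h3 (i - 1) (by omega)
      · have h7 : i = m + 1 := by omega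
        subst h7
        have h8 : m + 1 + 1 ≠ 0 := by omega
        simp only [Nat.succ_ne_zero, if_false, le_rfl, if_true, h6, Nat.add_sub_cancel, h2]
        exact hby.symm
  · intro i hi1 hi2
    have h7 : i ≤ m + 1 := by omega
    have h5 : i ≠ 0 := by omega
    simp only [h5, if_false, h7, if_true]
    exact h4 _ (by omega)

end Pool.Agent.H192R2.CW
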