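import Pool.Agent.H192R2.CW.Theta
import Pool.Agent.H192R2.CW.Small3

set_option autoImplicit false

namespace Pool.Agent.H192R2.CW

open Classical

variable {V : Type}

lemma exists_walk' (G : SimpleGraph V) (p : ℕ → V) (i j : ℕ) (hij : i ≤ j) (x y : V)
    (hx : p i = x) (hy : p j = y) (h : ∀ t, i ≤ t → t < j → G.Adj (p t) (p (t + 1))) :
    ∃ w : G.Walk x y, (∀ z, z ∈ w.support ↔ ∃ t, i ≤ t ∧ t ≤ j ∧ z = p t) ∧
      (∀ t, i ≤ t → t < j → s(p t, p (t + 1)) ∈ w.edges) ∧
      ((∀ s t, i ≤ s → s ≤ j → i ≤ t → t ≤ j → p s = p t → s = t) → w.IsPath) := by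
  obtain ⟨d, rfl⟩ := Nat.exists_eq_add_of_le hij
  subst hx
  subst hy
  exact exists_walk G p i d h

section

variable {G : SimpleGraph V} {X : Set V} {a b : V} {m : ℕ} {p : ℕ → V}

lemma ILink.mem (h : ILink G X a b m p) {t : ℕ} (ht : t ≤ m) :
    p t = a ∨ p t = b ∨ p t ∈ X := by
  obtain ⟨hm, ⟨h0, h1, h2, h3⟩, h4⟩ := h
  rcases Nat.eq_zero_or_pos t with rfl | hpos
  · exact Or.inl h0
  · rcases Nat.lt_or_ge t m with h | h
    · exact Or.inr (Or.inr (h3 t hpos h))
    · have : t = m := le_antisymm ht h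
      subst this
      exact Or.inr (Or.inl h1)

lemma ILink.mem' (h : ILink G X a b m p) {t : ℕ} (ht1 : 1 ≤ t) (ht : t ≤ m) :
    p t = b ∨ p t ∈ X := by
  obtain ⟨hm, ⟨h0, h1, h2, h3⟩, h4⟩ := h
  rcases Nat.lt_or_ge t m with h | h
  · exact Or.inr (h3 t ht1 h)
  · have : t = m := le_antisymm ht h
    subst this
    exact Or.inl h1

lemma ILink.inj (h : ILink G X a b m p) (hab : a ≠ b) {s t : ℕ} (hs : s ≤ m) (ht : t ≤ m)
    (hst : p s = p t) : s = t := by
  obtain ⟨hm, ⟨h0, h1, h2, h3⟩, h4⟩ := h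
  by_contra hne
  rcases lt_or_gt_of_ne hne with h | h
  · by_cases h5 : s = 0 ∧ t = m
    · obtain ⟨rfl, rfl⟩ := h5
      exact hab (h0.symm.trans (hst.trans h1))
    · exact (h4 s t h ht h5).1 hst
  · by_cases h5 : t = 0 ∧ s = m
    · obtain ⟨rfl, rfl⟩ := h5
      exact hab (h0.symm.trans (hst.symm.trans h1))
    · exact (h4 t s h hs h5).1 hst.symm

/-- Walk from `b` to `p 1`. -/
lemma ILink.exists_tail (h : ILink G X a b m p) (hab : a ≠ b) :
    ∃ w : G.Walk b (p 1), w.IsPath ∧ (∀ x, x ∈ w.support ↔ ∃ t, 1 ≤ t ∧ t ≤ m ∧ x = p t) ∧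
      (∀ x y, (∃ t, 1 ≤ t ∧ t ≤ m ∧ x = p t) → (∃ t, 1 ≤ t ∧ t ≤ m ∧ y = p t) →
        G.Adj x y → s(x, y) ∈ w.edges) := by
  have hm := h.1
  obtain ⟨w, h1, h2, h3⟩ := exists_walk' G p 1 m (by omega) (p 1) b rfl h.2.1.2.1
    (fun t ht1 ht2 => h.2.1.2.2.1 t ht2)
  refine ⟨w.reverse, ?_, ?_, ?_⟩
  · exact (h3 (fun s t _ hs _ ht hst => h.inj hab hs ht hst)).reverse
  · intro x
    rw [SimpleGraph.Walk.support_reverse, List.mem_reverse, h1]
  · rintro x y ⟨s, hs1, hs2, rfl⟩ ⟨t, ht1, ht2, rfl⟩ hadj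
    rw [SimpleGraph.Walk.edges_reverse, List.mem_reverse]
    rcases lt_trichotomy s t with hst | hst | hst
    · have := (h.2.2 s t hst ht2 (by omega)).2 hadj
      subst this
      exact h2 s hs1 (by omega)
    · subst hst; exact absurd hadj (G.loopless.irrefl _)
    · have := (h.2.2 t s hst hs2 (by omega)).2 hadj.symm
      subst this
      rw [Sym2.eq_swap]
      exact h2 t ht1 (by omega)

/-- Walk from `a` to `b`, in the case that `a` and `b` are not adjacent. -/
lemma ILink.exists_full (h : ILink G X a b m p) (hab : a ≠ b) (hnadj : ¬ G.Adj a b) :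
    ∃ w : G.Walk a b, w.IsPath ∧ (∀ x, x ∈ w.support ↔ ∃ t, t ≤ m ∧ x = p t) ∧
      (∀ x y, (∃ t, t ≤ m ∧ x = p t) → (∃ t, t ≤ m ∧ y = p t) →
        G.Adj x y → s(x, y) ∈ w.edges) := by
  have hm := h.1
  obtain ⟨w, h1, h2, h3⟩ := exists_walk' G p 0 m (by omega) a b h.2.1.1 h.2.1.2.1
    (fun t ht1 ht2 => h.2.1.2.2.1 t ht2)
  refine ⟨w, ?_, ?_, ?_⟩
  · exact h3 (fun s t _ hs _ ht hst => h.inj hab hs ht hst)
  · intro x
    rw [h1]
    constructor
    · rintro ⟨t, _, ht, rfl⟩; exact ⟨t, ht, rfl⟩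
    · rintro ⟨t, ht, rfl⟩; exact ⟨t, Nat.zero_le _, ht, rfl⟩
  · have key : ∀ s t, s < t → t ≤ m → G.Adj (p s) (p t) → t = s + 1 := by
      intro s t hst ht hadj
      by_cases h5 : s = 0 ∧ t = m
      · obtain ⟨rfl, rfl⟩ := h5
        rw [h.2.1.1, h.2.1.2.1] at hadj
        exact absurd hadj hnadj
      · exact (h.2.2 s t hst ht h5).2 hadj
    rintro x y ⟨s, hs2, rfl⟩ ⟨t, ht2, rfl⟩ hadj
    rcases lt_trichotomy s t with hst | hst | hst
    · have := key s t hst ht2 hadj
      subst this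
      exact h2 s (Nat.zero_le _) (by omega)
    · subst hst; exact absurd hadj (G.loopless.irrefl _)
    · have := key t s hst hs2 hadj.symm
      subst this
      rw [Sym2.eq_swap]
      exact h2 t (Nat.zero_le _) (by omega)

/-- A single edge as a walk. -/
lemma exists_edge_walk (h : G.Adj a b) :
    ∃ w : G.Walk a b, w.IsPath ∧ (∀ x, x ∈ w.support ↔ x ∈ ({a, b} : Set V)) ∧
      (∀ x ∈ ({a, b} : Set V), ∀ y ∈ ({a, b} : Set V), G.Adj x y → s(x, y) ∈ w.edges) := by
  refine ⟨SimpleGraph.Walk.cons h SimpleGraph.Walk.nil, ?_, ?_, ?_⟩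
  · simp [h.ne]
  · intro x; simp
  · intro x hx y hy hxy
    simp only [Set.mem_insert_iff, Set.mem_singleton_iff] at hx hy
    rcases hx with rfl | rfl <;> rcases hy with rfl | rfl
    · exact absurd hxy (G.loopless.irrefl _)
    · simp
    · simp
    · exact absurd hxy (G.loopless.irrefl _)

end

/-- Disjoint vertex sets without edges in between. -/
def Anti (G : SimpleGraph V) (X Y : Set V) : Prop := ∀ x ∈ X, ∀ y ∈ Y, x ≠ y ∧ ¬ G.Adj x y

lemma Anti.symm {G : SimpleGraph V} {X Y : Set V} (h : Anti G X Y) : Anti G Y X :=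
  fun x hx y hy => ⟨(h y hy x hx).1.symm, fun h' => (h y hy x hx).2 h'.symm⟩

lemma Anti.mono {G : SimpleGraph V} {X Y X' Y' : Set V} (h : Anti G X Y) (hX : X' ⊆ X)
    (hY : Y' ⊆ Y) : Anti G X' Y' :=
  fun x hx y hy => h x (hX hx) y (hY hy)

theorem theta_aux {G : SimpleGraph V} {a b : V} (hab : a ≠ b) {X1 X2 X3 : Set V} {m1 m2 : ℕ}
    {p1 p2 : ℕ → V} (h1 : ILink G X1 a b m1 p1) (h2 : ILink G X2 a b m2 p2)
    (h12 : Anti G X1 X2) (h13 : Anti G X1 X3) (h23 : Anti G X2 X3)
    (ha1 : a ∉ X1) (hb1 : b ∉ X1) (ha2 : a ∉ X2) (hb2 : b ∉ X2)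
    {A3 : Set V} (hA3 : ∀ x ∈ A3, x = a ∨ x = b ∨ x ∈ X3) (haA : a ∈ A3) (hbA : b ∈ A3)
    (w3 : ∃ w : G.Walk a b, w.IsPath ∧ (∀ x, x ∈ w.support ↔ x ∈ A3) ∧
      (∀ x ∈ A3, ∀ y ∈ A3, G.Adj x y → s(x, y) ∈ w.edges)) :
    ITM diamond G := by
  set c := p1 1 with hc
  set d := p2 1 with hd
  have hm1 := h1.1
  have hm2 := h2.1
  have hcX : c ∈ X1 := h1.2.1.2.2.2 1 (by omega) (by omega)
  have hdX : d ∈ X2 := h2.2.1.2.2.2 1 (by omega) (by omega)
  have hac : a ≠ c := fun h => ha1 (h ▸ hcX)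
  have hbc : b ≠ c := fun h => hb1 (h ▸ hcX)
  have had : a ≠ d := fun h => ha2 (h ▸ hdX)
  have hbd : b ≠ d := fun h => hb2 (h ▸ hdX)
  have hcd : c ≠ d := (h12 c hcX d hdX).1
  have adjac : G.Adj a c := by
    have := h1.2.1.2.2.1 0 (by omega)
    rw [h1.2.1.1] at this
    exact this
  have adjad : G.Adj a d := by
    have := h2.2.1.2.2.1 0 (by omega)
    rw [h2.2.1.1] at this
    exact this
  let B1 : Set V := {x | ∃ t, 1 ≤ t ∧ t ≤ m1 ∧ x = p1 t}
  let B2 : Set V := {x | ∃ t, 1 ≤ t ∧ t ≤ m2 ∧ x = p2 t}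
  have hB1 : ∀ x ∈ B1, x = b ∨ x ∈ X1 := by
    rintro x ⟨t, ht1, ht2, rfl⟩; exact h1.mem' ht1 ht2
  have hB2 : ∀ x ∈ B2, x = b ∨ x ∈ X2 := by
    rintro x ⟨t, ht1, ht2, rfl⟩; exact h2.mem' ht1 ht2
  have hbB1 : b ∈ B1 := ⟨m1, by omega, le_rfl, h1.2.1.2.1.symm⟩
  have hbB2 : b ∈ B2 := ⟨m2, by omega, le_rfl, h2.2.1.2.1.symm⟩
  have hcB1 : c ∈ B1 := ⟨1, le_rfl, by omega, rfl⟩
  have hdB2 : d ∈ B2 := ⟨1, le_rfl, by omega, rfl⟩
  let A : Fin 4 → Fin 4 → Set V :=
    ![![∅, A3, {a, c}, {a, d}], ![∅, ∅, B1, B2], ![∅, ∅, ∅, ∅], ![∅, ∅, ∅, ∅]]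
  let f : Fin 4 → V := ![a, b, c, d]
  have hX12 : ∀ x, x ∈ X1 → x ∈ X2 → False := fun x hx hx' => (h12 x hx x hx').1 rfl
  have hX13 : ∀ x, x ∈ X1 → x ∈ X3 → False := fun x hx hx' => (h13 x hx x hx').1 rfl
  have hX23 : ∀ x, x ∈ X2 → x ∈ X3 → False := fun x hx hx' => (h23 x hx x hx').1 rfl
  have hcA3 : c ∉ A3 := by
    intro h
    rcases hA3 c h with h | h | h
    · exact hac h.symm
    · exact hbc h.symm
    · exact hX13 c hcX h
  have hdA3 : d ∉ A3 := by
    intro h
    rcases hA3 d h with h | h | h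
    · exact had h.symm
    · exact hbd h.symm
    · exact hX23 d hdX h
  have haB1 : a ∉ B1 := by
    intro h
    rcases hB1 a h with h | h
    · exact hab h
    · exact ha1 h
  have haB2 : a ∉ B2 := by
    intro h
    rcases hB2 a h with h | h
    · exact hab h
    · exact ha2 h
  have hcB2 : c ∉ B2 := by
    intro h
    rcases hB2 c h with h | h
    · exact hbc h.symm
    · exact hX12 c hcX h
  have hdB1 : d ∉ B1 := by
    intro h
    rcases hB1 d h with h | h
    · exact hbd h.symm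
    · exact hX12 d h hdX
  -- adjacency on the first two routes
  have route : ∀ {X : Set V} {m : ℕ} {p : ℕ → V}, ILink G X a b m p → ∀ x y,
      (x = a ∨ ∃ t, 1 ≤ t ∧ t ≤ m ∧ x = p t) → (y = a ∨ ∃ t, 1 ≤ t ∧ t ≤ m ∧ y = p t) →
      G.Adj x y → (x ∈ A3 ∧ y ∈ A3) ∨ (x ∈ ({a, p 1} : Set V) ∧ y ∈ ({a, p 1} : Set V)) ∨
        ((∃ t, 1 ≤ t ∧ t ≤ m ∧ x = p t) ∧ (∃ t, 1 ≤ t ∧ t ≤ m ∧ y = p t)) := by
    intro X m p h x y hx hy hadj
    have hm := h.1
    have aux : ∀ t, 1 ≤ t → t ≤ m → G.Adj a (p t) → t = 1 ∨ p t = b := by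
      intro t ht1 ht2 hadj
      by_cases h5 : t = m
      · right; rw [h5]; exact h.2.1.2.1
      · left
        rw [← h.2.1.1] at hadj
        have := (h.2.2 0 t (by omega) ht2 (by omega)).2 hadj
        omega
    rcases hx with rfl | hx
    · rcases hy with rfl | ⟨t, ht1, ht2, rfl⟩
      · exact absurd hadj (G.loopless.irrefl _)
      · rcases aux t ht1 ht2 hadj with rfl | h6
        · right; left; simp
        · left; exact ⟨haA, h6 ▸ hbA⟩
    · rcases hy with rfl | hy
      · obtain ⟨t, ht1, ht2, rfl⟩ := hx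
        rcases aux t ht1 ht2 hadj.symm with rfl | h6
        · right; left; simp
        · left; exact ⟨h6 ▸ hbA, haA⟩
      · exact Or.inr (Or.inr ⟨hx, hy⟩)
  refine ITM.of_lt f ?_ A ?_ ?_ ?_ ?_ ?_
  · intro i j hij
    fin_cases i <;> fin_cases j <;> simp_all [f]
  · intro w
    fin_cases w
    · exact ⟨0, 1, by decide, by decide, by decide⟩
    · exact ⟨0, 1, by decide, by decide, by decide⟩
    · exact ⟨0, 2, by decide, by decide, by decide⟩
    · exact ⟨0, 3, by decide, by decide, by decide⟩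
  · intro u v huv hF
    obtain ⟨t1, k1, k2, k3⟩ := h1.exists_tail hab
    obtain ⟨t2, k4, k5, k6⟩ := h2.exists_tail hab
    fin_cases u <;> fin_cases v <;> first
      | exact absurd huv (by decide)
      | exact absurd hF (by decide)
      | exact w3
      | exact exists_edge_walk adjac
      | exact exists_edge_walk adjad
      | exact ⟨t1, k1, k2, fun x hx y hy => k3 x y hx hy⟩
      | exact ⟨t2, k4, k5, fun x hx y hy => k6 x y hx hy⟩
  · intro u v w huv hF hw
    fin_cases u <;> fin_cases v <;> first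
      | exact absurd huv (by decide)
      | exact absurd hF (by decide)
      | (fin_cases w <;> first
          | decide
          | (exfalso; exact hcA3 hw)
          | (exfalso; exact hdA3 hw)
          | (exfalso; exact haB1 hw)
          | (exfalso; exact haB2 hw)
          | (exfalso; exact hcB2 hw)
          | (exfalso; exact hdB1 hw)
          | (exfalso
             rcases hw with hw | hw <;> first
              | exact hab hw | exact hab hw.symm | exact hbc hw | exact hbc hw.symm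
              | exact had hw | exact had hw.symm | exact hbd hw | exact hbd hw.symm
              | exact hcd hw | exact hcd hw.symm | exact hac hw | exact hac hw.symm))
  · have r2 : ∀ x y : V, x ∈ ({a, y} : Set V) → (y = a ∨ y = b ∨ y = c ∨ y = d) →
        ∃ w, x = f w := by
      intro x y hx hy
      rcases hx with rfl | hx
      · exact ⟨0, rfl⟩
      · rw [Set.mem_singleton_iff] at hx
        subst hx
        rcases hy with rfl | rfl | rfl | rfl
        · exact ⟨0, rfl⟩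
        · exact ⟨1, rfl⟩
        · exact ⟨2, rfl⟩
        · exact ⟨3, rfl⟩
    have r1 : ∀ x, x = a ∨ x = b → ∃ w, x = f w := by
      rintro x (rfl | rfl)
      · exact ⟨0, rfl⟩
      · exact ⟨1, rfl⟩
    have q1 : ∀ x, x ∈ A3 → x ∈ B1 → ∃ w, x = f w := by
      intro x hx hx'
      apply r1
      rcases hA3 x hx with h | h | h
      · exact Or.inl h
      · exact Or.inr h
      · rcases hB1 x hx' with h' | h'
        · exact Or.inr h'
        · exact absurd h (fun h => hX13 x h' h)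
    have q2 : ∀ x, x ∈ A3 → x ∈ B2 → ∃ w, x = f w := by
      intro x hx hx'
      apply r1
      rcases hA3 x hx with h | h | h
      · exact Or.inl h
      · exact Or.inr h
      · rcases hB2 x hx' with h' | h'
        · exact Or.inr h'
        · exact absurd h (fun h => hX23 x h' h)
    have q3 : ∀ x, x ∈ B1 → x ∈ B2 → ∃ w, x = f w := by
      intro x hx hx'
      apply r1
      rcases hB1 x hx with h | h
      · exact Or.inr h
      · rcases hB2 x hx' with h' | h'
        · exact Or.inr h'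
        · exact absurd h' (fun h' => hX12 x h h')
    intro u v u' v' huv hF huv' hF' hne x hx hx'
    fin_cases u <;> fin_cases v <;> first
      | exact absurd huv (by decide)
      | exact absurd hF (by decide)
      | exact r2 x c hx (by simp)
      | exact r2 x d hx (by simp)
      | (fin_cases u' <;> fin_cases v' <;> first
          | exact absurd huv' (by decide)
          | exact absurd hF' (by decide)
          | exact absurd hne (by decide)
          | exact r2 x c hx' (by simp)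
          | exact r2 x d hx' (by simp)
          | exact q1 x hx hx'
          | exact q1 x hx' hx
          | exact q2 x hx hx'
          | exact q2 x hx' hx
          | exact q3 x hx hx'
          | exact q3 x hx' hx)
  · -- everything lies on one of three routes
    have cov : ∀ u v, u < v → diamond.Adj u v → ∀ x ∈ A u v,
        (x = a ∨ x ∈ B1) ∨ (x = a ∨ x ∈ B2) ∨ x ∈ A3 := by
      intro u v huv hF x hx
      fin_cases u <;> fin_cases v <;> first
        | exact absurd huv (by decide)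
        | exact absurd hF (by decide)
        | exact Or.inr (Or.inr hx)
        | exact Or.inl (Or.inr hx)
        | exact Or.inr (Or.inl (Or.inr hx))
        | (rcases hx with hx | hx
           · exact Or.inl (Or.inl hx)
           · exact Or.inl (Or.inr (by rw [Set.mem_singleton_iff.1 hx]; exact hcB1)))
        | (rcases hx with hx | hx
           · exact Or.inl (Or.inl hx)
           · exact Or.inr (Or.inl (Or.inr (by rw [Set.mem_singleton_iff.1 hx]; exact hdB2))))
    have fin1 : ∀ x y, (x = a ∨ x ∈ B1) → (y = a ∨ y ∈ B1) → G.Adj x y →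
        ∃ u v, u < v ∧ diamond.Adj u v ∧ x ∈ A u v ∧ y ∈ A u v := by
      intro x y hx hy hadj
      rcases route h1 x y hx hy hadj with ⟨h, h'⟩ | ⟨h, h'⟩ | ⟨h, h'⟩
      · exact ⟨0, 1, by decide, by decide, h, h'⟩
      · exact ⟨0, 2, by decide, by decide, h, h'⟩
      · exact ⟨1, 2, by decide, by decide, h, h'⟩
    have fin2 : ∀ x y, (x = a ∨ x ∈ B2) → (y = a ∨ y ∈ B2) → G.Adj x y →
        ∃ u v, u < v ∧ diamond.Adj u v ∧ x ∈ A u v ∧ y ∈ A u v := by
      intro x y hx hy hadj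
      rcases route h2 x y hx hy hadj with ⟨h, h'⟩ | ⟨h, h'⟩ | ⟨h, h'⟩
      · exact ⟨0, 1, by decide, by decide, h, h'⟩
      · exact ⟨0, 3, by decide, by decide, h, h'⟩
      · exact ⟨1, 3, by decide, by decide, h, h'⟩
    have fin3 : ∀ x y, x ∈ A3 → y ∈ A3 → G.Adj x y →
        ∃ u v, u < v ∧ diamond.Adj u v ∧ x ∈ A u v ∧ y ∈ A u v := by
      intro x y hx hy _
      exact ⟨0, 1, by decide, by decide, hx, hy⟩
    -- classification
    have cl1 : ∀ x, (x = a ∨ x ∈ B1) → (x = a ∨ x = b) ∨ x ∈ X1 := by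
      rintro x (h | h)
      · exact Or.inl (Or.inl h)
      · rcases hB1 x h with h | h
        · exact Or.inl (Or.inr h)
        · exact Or.inr h
    have cl2 : ∀ x, (x = a ∨ x ∈ B2) → (x = a ∨ x = b) ∨ x ∈ X2 := by
      rintro x (h | h)
      · exact Or.inl (Or.inl h)
      · rcases hB2 x h with h | h
        · exact Or.inl (Or.inr h)
        · exact Or.inr h
    have cl3 : ∀ x, x ∈ A3 → (x = a ∨ x = b) ∨ x ∈ X3 := by
      intro x h
      rcases hA3 x h with h | h | h
      · exact Or.inl (Or.inl h)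
      · exact Or.inl (Or.inr h)
      · exact Or.inr h
    have e1 : ∀ x, (x = a ∨ x = b) → (x = a ∨ x ∈ B1) := by
      rintro x (h | h)
      · exact Or.inl h
      · exact Or.inr (h ▸ hbB1)
    have e2 : ∀ x, (x = a ∨ x = b) → (x = a ∨ x ∈ B2) := by
      rintro x (h | h)
      · exact Or.inl h
      · exact Or.inr (h ▸ hbB2)
    have e3 : ∀ x, (x = a ∨ x = b) → x ∈ A3 := by
      rintro x (h | h)
      · exact h ▸ haA
      · exact h ▸ hbA
    intro u v u' v' huv hF huv' hF' x hx y hy hadj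
    rcases cov u v huv hF x hx with hx | hx | hx <;>
      rcases cov u' v' huv' hF' y hy with hy | hy | hy
    · exact fin1 x y hx hy hadj
    · rcases cl1 x hx with h | h
      · exact fin2 x y (e2 x h) hy hadj
      · rcases cl2 y hy with h' | h'
        · exact fin1 x y hx (e1 y h') hadj
        · exact absurd hadj (h12 x h y h').2
    · rcases cl1 x hx with h | h
      · exact fin3 x y (e3 x h) hy hadj
      · rcases cl3 y hy with h' | h'
        · exact fin1 x y hx (e1 y h') hadj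
        · exact absurd hadj (h13 x h y h').2
    · rcases cl2 x hx with h | h
      · exact fin1 x y (e1 x h) hy hadj
      · rcases cl1 y hy with h' | h'
        · exact fin2 x y hx (e2 y h') hadj
        · exact absurd hadj.symm (h12 y h' x h).2
    · exact fin2 x y hx hy hadj
    · rcases cl2 x hx with h | h
      · exact fin3 x y (e3 x h) hy hadj
      · rcases cl3 y hy with h' | h'
        · exact fin2 x y hx (e2 y h') hadj
        · exact absurd hadj (h23 x h y h').2
    · rcases cl3 x hx with h | h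
      · exact fin1 x y (e1 x h) hy hadj
      · rcases cl1 y hy with h' | h'
        · exact fin3 x y hx (e3 y h') hadj
        · exact absurd hadj.symm (h13 y h' x h).2
    · rcases cl3 x hx with h | h
      · exact fin2 x y (e2 x h) hy hadj
      · rcases cl2 y hy with h' | h'
        · exact fin3 x y hx (e3 y h') hadj
        · exact absurd hadj.symm (h23 y h' x h).2
    · exact fin3 x y hx hy hadj

/-- A set attached to both `a` and `b`. -/
def Att (G : SimpleGraph V) (X : Set V) (a b : V) : Prop :=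
  Conn G X ∧ a ∉ X ∧ b ∉ X ∧ (∃ x ∈ X, G.Adj a x) ∧ ∃ x ∈ X, G.Adj b x

/-- Adjacent `a`, `b` and two connected sets. -/
theorem theta_adj {G : SimpleGraph V} {a b : V} (hadj : G.Adj a b) {X1 X2 : Set V}
    (h1 : Att G X1 a b) (h2 : Att G X2 a b) (h12 : Anti G X1 X2) : ITM diamond G := by
  obtain ⟨c1, a1, b1, n1, n1'⟩ := h1
  obtain ⟨c2, a2, b2, n2, n2'⟩ := h2
  obtain ⟨m1, p1, l1⟩ := c1.exists_ilink hadj.ne a1 b1 n1 n1'
  obtain ⟨m2, p2, l2⟩ := c2.exists_ilink hadj.ne a2 b2 n2 n2'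
  exact theta_aux hadj.ne l1 l2 h12 (X3 := ∅) (fun _ _ _ h => h.elim) (fun _ _ _ h => h.elim)
    a1 b1 a2 b2 (A3 := {a, b}) (by
      rintro x (h | h)
      · exact Or.inl h
      · exact Or.inr (Or.inl h)) (by simp) (by simp) (exists_edge_walk hadj)

/-- Nonadjacent `a`, `b` and three connected sets. -/
theorem theta_nonadj {G : SimpleGraph V} {a b : V} (hab : a ≠ b) (hadj : ¬ G.Adj a b)
    {X1 X2 X3 : Set V} (h1 : Att G X1 a b) (h2 : Att G X2 a b) (h3 : Att G X3 a b)
    (h12 : Anti G X1 X2) (h13 : Anti G X1 X3) (h23 : Anti G X2 X3) : ITM diamond G := by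
  obtain ⟨c1, a1, b1, n1, n1'⟩ := h1
  obtain ⟨c2, a2, b2, n2, n2'⟩ := h2
  obtain ⟨c3, a3, b3, n3, n3'⟩ := h3
  obtain ⟨m1, p1, l1⟩ := c1.exists_ilink hab a1 b1 n1 n1'
  obtain ⟨m2, p2, l2⟩ := c2.exists_ilink hab a2 b2 n2 n2'
  obtain ⟨m3, p3, l3⟩ := c3.exists_ilink hab a3 b3 n3 n3'
  obtain ⟨w, k1, k2, k3⟩ := l3.exists_full hab hadj
  refine theta_aux hab l1 l2 h12 (X3 := X3) h13 h23
    a1 b1 a2 b2 (A3 := {x | ∃ t, t ≤ m3 ∧ x = p3 t}) ?_ ?_ ?_ ⟨w, k1, k2, ?_⟩
  · rintro x ⟨t, ht, rfl⟩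
    exact l3.mem ht
  · exact ⟨0, Nat.zero_le _, l3.2.1.1.symm⟩
  · exact ⟨m3, le_rfl, l3.2.1.2.1.symm⟩
  · intro x hx y hy
    exact k3 x y hx hy

end Pool.Agent.H192R2.CW
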