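import Pool.Agent.H192R2.CW.Net

set_option autoImplicit false

namespace Pool.Agent.H192R2.CW

open Finset

/-! ### Three independent vertices -/

theorem not_bounded_3K1 : ¬ BoundedCliqueWidth (⊥ : SimpleGraph (Fin 3)) := by
  refine not_bounded_of (T := fun n => Fin n × Fin n) (fun n hn => ?_) (fun n => (grid n)ᶜ)
    (fun n h => ?_) (fun n k hn h => grid_lower hn h)
  · exact ⟨(⟨0, by omega⟩, ⟨0, by omega⟩)⟩
  · obtain ⟨M⟩ := h.model
    have key : ∀ i j : Fin 3, i ≠ j → (grid n).Adj (M.f i) (M.f j) := by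
      intro i j hij
      by_contra hcon
      exact M.nonadj hij (by simp) ⟨fun h => hij (M.inj h), hcon⟩
    have h1 := gridSide_ne (key 0 1 (by decide))
    have h2 := gridSide_ne (key 0 2 (by decide))
    have h3 := gridSide_ne (key 1 2 (by decide))
    generalize gridSide n (M.f 0) = a at *
    generalize gridSide n (M.f 1) = b at *
    generalize gridSide n (M.f 2) = c at *
    revert h1 h2 h3
    revert a b c
    decide

/-! ### Split graphs -/

lemma splitGrid_walk {n : ℕ} {u v : Fin n × Fin n} (w : (splitGrid n).Walk u v) (h : ¬ w.Nil) :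
    ∃ x ∈ w.support, gridSide n x = true := by
  have h1 := w.adj_snd h
  have h2 : w.snd ∈ w.support := w.getVert_mem_support 1
  rcases h1.2 with h3 | h3
  · have h4 := gridSide_ne h3
    by_cases h5 : gridSide n u = true
    · exact ⟨u, w.start_mem_support, h5⟩
    · refine ⟨w.snd, h2, ?_⟩
      revert h4 h5
      generalize gridSide n u = a
      generalize gridSide n w.snd = b
      revert a b
      decide
  · exact ⟨u, w.start_mem_support, h3.1⟩

/-- For two disjoint edges of `F`, an edge of `F` between them has both branch vertices in the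
clique. -/
lemma splitGrid_cross {n : ℕ} {W : Type} {F : SimpleGraph W} (M : Model F (splitGrid n))
    {a b c d : W} (hab : F.Adj a b) (hcd : F.Adj c d) (hac : a ≠ c) (had : a ≠ d) (hbc : b ≠ c)
    (hbd : b ≠ d) :
    ∃ w w', (w = a ∨ w = b) ∧ (w' = c ∨ w' = d) ∧ F.Adj w w' ∧ gridSide n (M.f w) = true ∧
      gridSide n (M.f w') = true := by
  obtain ⟨x, hx, hxs⟩ := splitGrid_walk (M.P a b hab) (M.not_nil hab)
  obtain ⟨y, hy, hys⟩ := splitGrid_walk (M.P c d hcd) (M.not_nil hcd)
  have hne : s(a, b) ≠ s(c, d) := by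
    intro h
    rw [Sym2.eq_iff] at h
    rcases h with ⟨h, _⟩ | ⟨h, _⟩
    · exact hac h
    · exact had h
  have hxy : x ≠ y := by
    rintro rfl
    obtain ⟨w, _, h1, h2⟩ := M.common hne hx hy
    rcases h1 with rfl | rfl <;> rcases h2 with h2 | h2
    · exact hac h2
    · exact had h2
    · exact hbc h2
    · exact hbd h2
  obtain ⟨p, q, hpq, he⟩ := M.ind x y (Or.inr ⟨a, b, hab, hx⟩) (Or.inr ⟨c, d, hcd, hy⟩)
    ⟨hxy, Or.inr ⟨hxs, hys⟩⟩
  have hx' := (M.P p q hpq).fst_mem_support_of_mem_edges he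
  have hy' := (M.P p q hpq).snd_mem_support_of_mem_edges he
  have n1 : s(a, b) ≠ s(p, q) := by
    intro h
    have h' : s(p, q) ≠ s(c, d) := h ▸ hne
    obtain ⟨w, _, h1, h2⟩ := M.common h' hy' hy
    have h3 : w ∈ s(p, q) := by rw [Sym2.mem_iff]; exact h1
    rw [← h, Sym2.mem_iff] at h3
    rcases h3 with rfl | rfl <;> rcases h2 with h2 | h2
    · exact hac h2
    · exact had h2
    · exact hbc h2
    · exact hbd h2
  have n2 : s(c, d) ≠ s(p, q) := by
    intro h
    have h' : s(p, q) ≠ s(a, b) := h ▸ hne.symm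
    obtain ⟨w, _, h1, h2⟩ := M.common h' hx' hx
    have h3 : w ∈ s(p, q) := by rw [Sym2.mem_iff]; exact h1
    rw [← h, Sym2.mem_iff] at h3
    rcases h3 with rfl | rfl <;> rcases h2 with h2 | h2
    · exact hac h2.symm
    · exact hbc h2.symm
    · exact had h2.symm
    · exact hbd h2.symm
  obtain ⟨w, rfl, h1, h2⟩ := M.common n1 hx hx'
  obtain ⟨w', rfl, h3, h4⟩ := M.common n2 hy hy'
  refine ⟨w, w', h1, h3, ?_, hxs, hys⟩
  have hww : w ≠ w' := fun h => hxy (by rw [h])
  rcases h2 with rfl | rfl <;> rcases h4 with rfl | rfl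
  · exact absurd rfl hww
  · exact hpq
  · exact hpq.symm
  · exact absurd rfl hww

lemma splitGrid_clique {n : ℕ} {W : Type} {F : SimpleGraph W} (M : Model F (splitGrid n))
    {w w' : W} (hne : w ≠ w') (h : ¬ F.Adj w w') (h1 : gridSide n (M.f w) = true)
    (h2 : gridSide n (M.f w') = true) : False :=
  M.nonadj hne h ⟨fun h => hne (M.inj h), Or.inr ⟨h1, h2⟩⟩

/-- Two disjoint edges. -/
def twoK2 : SimpleGraph (Fin 4) := SimpleGraph.fromEdgeSet {s(0, 1), s(2, 3)}

/-- The cycle of length four. -/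
def cyc4 : SimpleGraph (Fin 4) := SimpleGraph.fromEdgeSet {s(0, 1), s(1, 2), s(2, 3), s(0, 3)}

/-- The cycle of length five. -/
def cyc5 : SimpleGraph (Fin 5) :=
  SimpleGraph.fromEdgeSet {s(0, 1), s(1, 2), s(2, 3), s(3, 4), s(0, 4)}

/-- A triangle and an isolated vertex. -/
def triIso : SimpleGraph (Fin 4) := SimpleGraph.fromEdgeSet {s(0, 1), s(1, 2), s(0, 2)}

/-- The gem: a path `0, 1, 2, 3` and a vertex `4` adjacent to all its vertices. -/
def gem : SimpleGraph (Fin 5) :=
  SimpleGraph.fromEdgeSet {s(0, 1), s(1, 2), s(2, 3), s(0, 4), s(1, 4), s(2, 4), s(3, 4)}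

instance : DecidableRel twoK2.Adj := by unfold twoK2; infer_instance
instance : DecidableRel cyc4.Adj := by unfold cyc4; infer_instance
instance : DecidableRel cyc5.Adj := by unfold cyc5; infer_instance
instance : DecidableRel triIso.Adj := by unfold triIso; infer_instance
instance : DecidableRel gem.Adj := by unfold gem; infer_instance
instance : DecidableRel paw.Adj := by unfold paw; infer_instance
instance : DecidableRel diamond.Adj := by unfold diamond; infer_instance

theorem not_bounded_twoK2 : ¬ BoundedCliqueWidth twoK2 := by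
  refine not_bounded_of (T := fun n => Fin n × Fin n) (fun n hn => ?_) (fun n => splitGrid n)
    (fun n h => ?_) (fun n k hn h => splitGrid_lower hn h)
  · exact ⟨(⟨0, by omega⟩, ⟨0, by omega⟩)⟩
  · obtain ⟨M⟩ := h.model
    obtain ⟨w, w', h1, h2, h3, _⟩ := splitGrid_cross M (a := 0) (b := 1) (c := 2) (d := 3)
      (by decide) (by decide) (by decide) (by decide) (by decide) (by decide)
    have key : ∀ w w' : Fin 4, (w = 0 ∨ w = 1) → (w' = 2 ∨ w' = 3) → ¬ twoK2.Adj w w' := by
      decide
    exact key w w' h1 h2 h3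

theorem not_bounded_cyc4 : ¬ BoundedCliqueWidth cyc4 := by
  refine not_bounded_of (T := fun n => Fin n × Fin n) (fun n hn => ?_) (fun n => splitGrid n)
    (fun n h => ?_) (fun n k hn h => splitGrid_lower hn h)
  · exact ⟨(⟨0, by omega⟩, ⟨0, by omega⟩)⟩
  · obtain ⟨M⟩ := h.model
    obtain ⟨w, w', h1, h2, h3, s1, s2⟩ := splitGrid_cross M (a := 0) (b := 1) (c := 2) (d := 3)
      (by decide) (by decide) (by decide) (by decide) (by decide) (by decide)
    obtain ⟨v, v', h4, h5, h6, s3, s4⟩ := splitGrid_cross M (a := 1) (b := 2) (c := 0) (d := 3)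
      (by decide) (by decide) (by decide) (by decide) (by decide) (by decide)
    have key : ∀ w w' v v' : Fin 4, (w = 0 ∨ w = 1) → (w' = 2 ∨ w' = 3) → cyc4.Adj w w' →
        (v = 1 ∨ v = 2) → (v' = 0 ∨ v' = 3) → cyc4.Adj v v' →
        (w ≠ v ∧ ¬ cyc4.Adj w v) ∨ (w ≠ v' ∧ ¬ cyc4.Adj w v') ∨ (w' ≠ v ∧ ¬ cyc4.Adj w' v) ∨
        (w' ≠ v' ∧ ¬ cyc4.Adj w' v') := by
      decide
    rcases key w w' v v' h1 h2 h3 h4 h5 h6 with h | h | h | h
    · exact splitGrid_clique M h.1 h.2 s1 s3
    · exact splitGrid_clique M h.1 h.2 s1 s4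
    · exact splitGrid_clique M h.1 h.2 s2 s3
    · exact splitGrid_clique M h.1 h.2 s2 s4

theorem not_bounded_cyc5 : ¬ BoundedCliqueWidth cyc5 := by
  refine not_bounded_of (T := fun n => Fin n × Fin n) (fun n hn => ?_) (fun n => splitGrid n)
    (fun n h => ?_) (fun n k hn h => splitGrid_lower hn h)
  · exact ⟨(⟨0, by omega⟩, ⟨0, by omega⟩)⟩
  · obtain ⟨M⟩ := h.model
    obtain ⟨w, w', h1, h2, h3, s1, s2⟩ := splitGrid_cross M (a := 0) (b := 1) (c := 2) (d := 3)
      (by decide) (by decide) (by decide) (by decide) (by decide) (by decide)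
    obtain ⟨v, v', h4, h5, h6, s3, s4⟩ := splitGrid_cross M (a := 0) (b := 1) (c := 3) (d := 4)
      (by decide) (by decide) (by decide) (by decide) (by decide) (by decide)
    have key : ∀ w w' v v' : Fin 5, (w = 0 ∨ w = 1) → (w' = 2 ∨ w' = 3) → cyc5.Adj w w' →
        (v = 0 ∨ v = 1) → (v' = 3 ∨ v' = 4) → cyc5.Adj v v' →
        (w ≠ v' ∧ ¬ cyc5.Adj w v') := by
      decide
    have h := key w w' v v' h1 h2 h3 h4 h5 h6
    exact splitGrid_clique M h.1 h.2 s1 s4

/-! ### The net and its complement -/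

theorem not_bounded_gem : ¬ BoundedCliqueWidth gem := by
  refine not_bounded_of (T := fun n => Fin n × Fin n × Fin 6) (fun n hn => ?_) (fun n => net n)
    (fun n h => ?_) (fun n k hn h => net_lower hn h)
  · exact ⟨(⟨0, by omega⟩, ⟨0, by omega⟩, 0)⟩
  · obtain ⟨M⟩ := h.model
    have a0 : gem.Adj 4 0 := by decide
    have a1 : gem.Adj 4 1 := by decide
    have a2 : gem.Adj 4 2 := by decide
    have a3 : gem.Adj 4 3 := by decide
    have n01 := M.nbr_ne a0 a1 (by decide)
    have n02 := M.nbr_ne a0 a2 (by decide)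
    have n03 := M.nbr_ne a0 a3 (by decide)
    have n12 := M.nbr_ne a1 a2 (by decide)
    have n13 := M.nbr_ne a1 a3 (by decide)
    have n23 := M.nbr_ne a2 a3 (by decide)
    have := net_degree n (M.f 4) {M.nbr a0, M.nbr a1, M.nbr a2, M.nbr a3} (by
      intro a ha
      simp only [Finset.mem_insert, Finset.mem_singleton] at ha
      rcases ha with rfl | rfl | rfl | rfl
      · exact (M.adj_nbr a0).symm
      · exact (M.adj_nbr a1).symm
      · exact (M.adj_nbr a2).symm
      · exact (M.adj_nbr a3).symm)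
    rw [Finset.card_insert_of_notMem, Finset.card_insert_of_notMem,
      Finset.card_insert_of_notMem, Finset.card_singleton] at this
    · omega
    · simpa using n23
    · simp [n12, n13]
    · simp [n01, n02, n03]

/-- Every branch vertex of a `K₄`-model in the net is in a triangle of branch vertices. -/
lemma net_K4_triangle {n : ℕ} (M : Model (⊤ : SimpleGraph (Fin 4)) (net n)) (u : Fin 4) :
    ∃ i j : Fin 4, i ≠ j ∧ i ≠ u ∧ j ≠ u ∧ (net n).Adj (M.f u) (M.f i) ∧
      (net n).Adj (M.f u) (M.f j) ∧ (net n).Adj (M.f i) (M.f j) := by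
  -- adjacent neighbours are branch vertices
  have key : ∀ i j (hi : (⊤ : SimpleGraph (Fin 4)).Adj u i) (hj : (⊤ : SimpleGraph (Fin 4)).Adj u j),
      i ≠ j → (net n).Adj (M.nbr hi) (M.nbr hj) →
      ∃ i j : Fin 4, i ≠ j ∧ i ≠ u ∧ j ≠ u ∧ (net n).Adj (M.f u) (M.f i) ∧
      (net n).Adj (M.f u) (M.f j) ∧ (net n).Adj (M.f i) (M.f j) := by
    intro i j hi hj hij hadj
    obtain ⟨p, q, hpq, he⟩ := M.ind _ _ (Or.inr ⟨u, i, hi, M.nbr_mem hi⟩)
      (Or.inr ⟨u, j, hj, M.nbr_mem hj⟩) hadj
    have hx' := (M.P p q hpq).fst_mem_support_of_mem_edges he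
    have hy' := (M.P p q hpq).snd_mem_support_of_mem_edges he
    have hne : s(u, i) ≠ s(u, j) := by
      intro h
      rw [Sym2.eq_iff] at h
      rcases h with ⟨_, h⟩ | ⟨h, h'⟩
      · exact hij h
      · exact hi.ne (h'.symm)
    -- a vertex on both paths at `u` is `f u`
    have both : ∀ x, x ∈ (M.P u i hi).support → x ∈ (M.P u j hj).support → x = M.f u := by
      intro x h1 h2
      obtain ⟨w, rfl, h3, h4⟩ := M.common hne h1 h2
      rcases h3 with rfl | rfl
      · rfl
      · rcases h4 with rfl | rfl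
        · rfl
        · exact absurd rfl hij
    have supp_eq : ∀ (a b c d : Fin 4) (h1 : (⊤ : SimpleGraph (Fin 4)).Adj a b)
        (h2 : (⊤ : SimpleGraph (Fin 4)).Adj c d), s(a, b) = s(c, d) →
        ∀ x, x ∈ (M.P a b h1).support → x ∈ (M.P c d h2).support := by
      intro a b c d h1 h2 h x hx
      rw [Sym2.eq_iff] at h
      rcases h with ⟨rfl, rfl⟩ | ⟨rfl, rfl⟩
      · exact hx
      · rw [M.rev _ _ h2] at hx
        simpa using hx
    have n1 : s(u, i) ≠ s(p, q) := by
      intro h
      have := both _ (supp_eq _ _ _ _ hpq hi h.symm _ hy') (M.nbr_mem hj)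
      exact (M.adj_nbr hj).ne this.symm
    have n2 : s(u, j) ≠ s(p, q) := by
      intro h
      have := both _ (M.nbr_mem hi) (supp_eq _ _ _ _ hpq hj h.symm _ hx')
      exact (M.adj_nbr hi).ne this.symm
    obtain ⟨w, h1, h2, _⟩ := M.common n1 (M.nbr_mem hi) hx'
    obtain ⟨w', h3, h4, _⟩ := M.common n2 (M.nbr_mem hj) hy'
    have e1 : M.nbr hi = M.f i := by
      rcases h2 with rfl | rfl
      · exact absurd h1.symm (M.adj_nbr hi).ne
      · exact h1
    have e2 : M.nbr hj = M.f j := by
      rcases h4 with rfl | rfl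
      · exact absurd h3.symm (M.adj_nbr hj).ne
      · exact h3
    refine ⟨i, j, hij, hi.ne.symm, hj.ne.symm, ?_, ?_, ?_⟩
    · rw [← e1]; exact M.adj_nbr hi
    · rw [← e2]; exact M.adj_nbr hj
    · rw [← e1, ← e2]; exact hadj
  have hex : ∀ u : Fin 4, ∃ i j l : Fin 4, i ≠ u ∧ j ≠ u ∧ l ≠ u ∧ i ≠ j ∧ i ≠ l ∧ j ≠ l := by
    decide
  obtain ⟨i, j, l, hi, hj, hl, hij, hil, hjl⟩ := hex u
  have ai : (⊤ : SimpleGraph (Fin 4)).Adj u i := hi.symm
  have aj : (⊤ : SimpleGraph (Fin 4)).Adj u j := hj.symm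
  have al : (⊤ : SimpleGraph (Fin 4)).Adj u l := hl.symm
  rcases net_nbrs (M.adj_nbr ai) (M.adj_nbr aj) (M.adj_nbr al) (M.nbr_ne ai aj hij)
    (M.nbr_ne ai al hil) (M.nbr_ne aj al hjl) with h | h | h
  · exact key _ _ ai aj hij h
  · exact key _ _ ai al hil h
  · exact key _ _ aj al hjl h

theorem not_bounded_K4 : ¬ BoundedCliqueWidth (⊤ : SimpleGraph (Fin 4)) := by
  refine not_bounded_of (T := fun n => Fin n × Fin n × Fin 6) (fun n hn => ?_) (fun n => net n)
    (fun n h => ?_) (fun n k hn h => net_lower hn h)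
  · exact ⟨(⟨0, by omega⟩, ⟨0, by omega⟩, 0)⟩
  · obtain ⟨M⟩ := h.model
    obtain ⟨i, j, hij, hi, hj, h1, h2, h3⟩ := net_K4_triangle M 0
    have hex : ∀ i j : Fin 4, ∃ l : Fin 4, l ≠ 0 ∧ l ≠ i ∧ l ≠ j := by
      decide
    have hcov : ∀ i j l p : Fin 4, i ≠ j → i ≠ 0 → j ≠ 0 → l ≠ 0 → l ≠ i → l ≠ j → p ≠ l →
        (p = 0 ∨ p = i ∨ p = j) := by
      decide
    have hthird : ∀ l p q : Fin 4, ∃ r : Fin 4, r ≠ l ∧ r ≠ p ∧ r ≠ q := by
      decide
    obtain ⟨l, hl0, hli, hlj⟩ := hex i j
    obtain ⟨p, q, hpq, hp, hq, h4, h5, h6⟩ := net_K4_triangle M l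
    obtain ⟨r, hrl, hrp, hrq⟩ := hthird l p q
    have hp' := hcov i j l p hij hi hj hl0 hli hlj hp
    have hq' := hcov i j l q hij hi hj hl0 hli hlj hq
    have hr := hcov i j l r hij hi hj hl0 hli hlj hrl
    have adj : ∀ a b : Fin 4, (a = 0 ∨ a = i ∨ a = j) → (b = 0 ∨ b = i ∨ b = j) → a ≠ b →
        (net n).Adj (M.f a) (M.f b) := by
      rintro a b (rfl | rfl | rfl) (rfl | rfl | rfl) hab
      · exact absurd rfl hab
      · exact h1
      · exact h2
      · exact h1.symm
      · exact absurd rfl hab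
      · exact h3
      · exact h2.symm
      · exact h3.symm
      · exact absurd rfl hab
    have := net_common h6 h4.symm h5.symm (adj p r hp' hr hrp.symm) (adj q r hq' hr hrq.symm)
    exact hrl (M.inj this).symm

theorem not_bounded_triIso : ¬ BoundedCliqueWidth triIso := by
  refine not_bounded_of (T := fun n => Fin n × Fin n × Fin 6) (fun n hn => ?_)
    (fun n => (net n)ᶜ) (fun n h => ?_) (fun n k hn h => net_compl_lower hn h)
  · exact ⟨(⟨0, by omega⟩, ⟨0, by omega⟩, 0)⟩
  · obtain ⟨M⟩ := h.model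
    -- everything is adjacent in the net to the isolated vertex
    have iso : ∀ a b (hab : triIso.Adj a b), ∀ x ∈ (M.P a b hab).support, x ≠ M.f 3 →
        (net n).Adj (M.f 3) x := by
      intro a b hab x hx hne
      by_contra hcon
      obtain ⟨p, q, hpq, he⟩ := M.ind (M.f 3) x (Or.inl ⟨3, rfl⟩) (Or.inr ⟨a, b, hab, hx⟩)
        ⟨hne.symm, hcon⟩
      have h3 := M.branch _ _ _ _ ((M.P p q hpq).fst_mem_support_of_mem_edges he)
      have key : ∀ p q : Fin 4, (3 = p ∨ 3 = q) → ¬ triIso.Adj p q := by decide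
      exact key p q h3 hpq
    have ne3 : ∀ a b (hab : triIso.Adj a b), M.f 3 ∉ (M.P a b hab).support := by
      intro a b hab h3
      have key : ∀ p q : Fin 4, (3 = p ∨ 3 = q) → ¬ triIso.Adj p q := by decide
      exact key a b (M.branch _ _ _ _ h3) hab
    have main : ∀ a b c : Fin 4, (hab : triIso.Adj a b) → (hac : triIso.Adj a c) →
        (hbc : triIso.Adj b c) → ¬ (net n).Adj (M.f a) (M.f b) := by
      intro a b c hab hac hbc hadj
      have hx := M.nbr_mem hab
      have ha3 : (net n).Adj (M.f 3) (M.f a) :=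
        iso a b hab _ (M.P a b hab).start_mem_support (by
          intro h; exact ne3 a b hab (h ▸ (M.P a b hab).start_mem_support))
      have hb3 : (net n).Adj (M.f 3) (M.f b) :=
        iso a b hab _ (M.P a b hab).end_mem_support (by
          intro h; exact ne3 a b hab (h ▸ (M.P a b hab).end_mem_support))
      have hc3 : (net n).Adj (M.f 3) (M.f c) :=
        iso a c hac _ (M.P a c hac).end_mem_support (by
          intro h; exact ne3 a c hac (h ▸ (M.P a c hac).end_mem_support))
      have hx3 : (net n).Adj (M.f 3) (M.nbr hab) :=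
        iso a b hab _ hx (by intro h; exact ne3 a b hab (h ▸ hx))
      have h1 : M.nbr hab ≠ M.f a := (M.adj_nbr hab).ne.symm
      have h2 : M.nbr hab ≠ M.f b := by
        intro h
        have := M.adj_nbr hab
        rw [h] at this
        exact this.2 hadj
      have h3 : M.nbr hab ≠ M.f c := by
        intro h
        have := M.branch a b hab c (h ▸ hx)
        rcases this with rfl | rfl
        · exact hac.ne rfl
        · exact hbc.ne rfl
      have hab' : M.f a ≠ M.f b := fun h => hab.ne (M.inj h)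
      have hac' : M.f a ≠ M.f c := fun h => hac.ne (M.inj h)
      have hbc' : M.f b ≠ M.f c := fun h => hbc.ne (M.inj h)
      have := net_degree n (M.f 3) {M.nbr hab, M.f a, M.f b, M.f c} (by
        intro y hy
        simp only [Finset.mem_insert, Finset.mem_singleton] at hy
        rcases hy with rfl | rfl | rfl | rfl
        · exact hx3.symm
        · exact ha3.symm
        · exact hb3.symm
        · exact hc3.symm)
      rw [Finset.card_insert_of_notMem, Finset.card_insert_of_notMem,
        Finset.card_insert_of_notMem, Finset.card_singleton] at this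
      · omega
      · simpa using hbc'
      · simp [hab', hac']
      · simp [h1, h2, h3]
    have a01 : triIso.Adj 0 1 := by decide
    have a02 : triIso.Adj 0 2 := by decide
    have a12 : triIso.Adj 1 2 := by decide
    have f0 : (net n).Adj (M.f 3) (M.f 0) :=
      iso 0 1 a01 _ (M.P 0 1 a01).start_mem_support (fun h => by have := M.inj h; revert this; decide)
    have f1 : (net n).Adj (M.f 3) (M.f 1) :=
      iso 0 1 a01 _ (M.P 0 1 a01).end_mem_support (fun h => by have := M.inj h; revert this; decide)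
    have f2 : (net n).Adj (M.f 3) (M.f 2) :=
      iso 0 2 a02 _ (M.P 0 2 a02).end_mem_support (fun h => by have := M.inj h; revert this; decide)
    rcases net_nbrs f0 f1 f2 (fun h => a01.ne (M.inj h)) (fun h => a02.ne (M.inj h))
      (fun h => a12.ne (M.inj h)) with h | h | h
    · exact main 0 1 2 a01 a02 a12 h
    · exact main 0 2 1 a02 a01 a12.symm h
    · exact main 1 2 0 a12 a01.symm a02.symm h

end Pool.Agent.H192R2.CW
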