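import Pool.Agent.H192R2.CW.Basic

set_option autoImplicit false

namespace Pool.Agent.H192R2.CW

variable {V : Type}

/-- `D k E S l`: the graph with adjacency `E` on the vertex set `S`, with labels `l`, can be built
with `k` ordinary labels and one dead label `none` which is never used for joins. -/
inductive D (k : ℕ) : (V → V → Prop) → Set V → (V → Option (Fin k)) → Prop
  | vertex (E : V → V → Prop) (v : V) (i : Fin k) (l : V → Option (Fin k)) (hE : ¬ E v v)
      (hl : l v = some i) : D k E {v} l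
  | union (E : V → V → Prop) (S T : Set V) (l : V → Option (Fin k)) (hd : Disjoint S T)
      (hST : ∀ x ∈ S, ∀ y ∈ T, ¬ E x y ∧ ¬ E y x) (hS : D k E S l) (hT : D k E T l) :
      D k E (S ∪ T) l
  | join (E E' : V → V → Prop) (S : Set V) (l : V → Option (Fin k)) (i j : Fin k) (hij : i ≠ j)
      (h : ∀ x ∈ S, ∀ y ∈ S, (E' x y ↔ E x y ∨ (l x = some i ∧ l y = some j) ∨
        (l x = some j ∧ l y = some i))) (hS : D k E S l) : D k E' S l
  | relabel (E : V → V → Prop) (S : Set V) (l l' : V → Option (Fin k)) (i : Fin k)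
      (j : Option (Fin k)) (h : ∀ x ∈ S, l' x = if l x = some i then j else l x)
      (hS : D k E S l) : D k E S l'

variable {k : ℕ}

lemma D.congr {E E' : V → V → Prop} {S : Set V} {l l' : V → Option (Fin k)} (h : D k E S l)
    (hE : ∀ x ∈ S, ∀ y ∈ S, (E x y ↔ E' x y)) (hl : ∀ x ∈ S, l x = l' x) : D k E' S l' := by
  induction h generalizing E' l' with
  | vertex E v i l hE0 hl0 =>
    refine D.vertex E' v i l' ?_ ?_
    · rw [← hE v rfl v rfl]; exact hE0
    · rw [← hl v rfl]; exact hl0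
  | union E S T l hd hST hS hT ihS ihT =>
    refine D.union E' S T l' hd ?_ ?_ ?_
    · intro x hx y hy
      rw [← hE x (Or.inl hx) y (Or.inr hy), ← hE y (Or.inr hy) x (Or.inl hx)]
      exact hST x hx y hy
    · exact ihS (fun x hx y hy => hE x (Or.inl hx) y (Or.inl hy)) (fun x hx => hl x (Or.inl hx))
    · exact ihT (fun x hx y hy => hE x (Or.inr hx) y (Or.inr hy)) (fun x hx => hl x (Or.inr hx))
  | join E E₁ S l i j hij h hS ih =>
    refine D.join E E' S l' i j hij ?_ (ih (fun _ _ _ _ => Iff.rfl) hl)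
    intro x hx y hy
    rw [← hE x hx y hy, h x hx y hy, hl x hx, hl y hy]
  | relabel E S l l₁ i j h hS ih =>
    refine D.relabel E' S l l' i j ?_ (ih hE (fun _ _ => rfl))
    intro x hx
    rw [← hl x hx, h x hx]

lemma D.irrefl {E : V → V → Prop} {S : Set V} {l : V → Option (Fin k)} (h : D k E S l) :
    ∀ x ∈ S, ¬ E x x := by
  induction h with
  | vertex E v i l hE0 hl0 => rintro x rfl; exact hE0
  | union E S T l hd hST hS hT ihS ihT =>
    rintro x (hx | hx)
    · exact ihS x hx
    · exact ihT x hx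
  | join E E₁ S l i j hij h hS ih =>
    intro x hx
    rw [h x hx x hx]
    rintro (h1 | ⟨h1, h2⟩ | ⟨h1, h2⟩)
    · exact ih x hx h1
    · rw [h1] at h2; exact hij (Option.some.inj h2)
    · rw [h1] at h2; exact hij (Option.some.inj h2).symm
  | relabel E S l l₁ i j h hS ih => exact ih

/-- Encoding of the labels. -/
def enc (l : Option (Fin k)) : Fin (k + 1) :=
  match l with
  | none => Fin.last k
  | some i => i.castSucc

lemma enc_inj {a b : Option (Fin k)} (h : enc a = enc b) : a = b := by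
  rcases a with _ | a <;> rcases b with _ | b
  · rfl
  · exact absurd h.symm (Fin.castSucc_lt_last b).ne
  · exact absurd h (Fin.castSucc_lt_last a).ne
  · exact congrArg some (Fin.castSucc_injective k h)

lemma D.toExpr {E : V → V → Prop} {S : Set V} {l : V → Option (Fin k)} (h : D k E S l) :
    ∃ (e : Expr (k + 1)) (φ : e.Verts → V), Function.Injective φ ∧ Set.range φ = S ∧
      (∀ x y, e.Adj x y ↔ E (φ x) (φ y)) ∧ ∀ x, e.label x = enc (l (φ x)) := by
  induction h with
  | vertex E v i l hE0 hl0 =>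
    refine ⟨Expr.vertex i.castSucc, fun _ => v, ?_, ?_, ?_, ?_⟩
    · intro x y _
      cases x; cases y; rfl
    · ext x
      constructor
      · rintro ⟨_, rfl⟩; rfl
      · rintro rfl; exact ⟨(), rfl⟩
    · intro x y
      show False ↔ _
      simp [hE0]
    · intro x
      show i.castSucc = _
      rw [hl0]; rfl
  | union E S T l hd hST hS hT ihS ihT =>
    obtain ⟨a, φ, h1, h2, h3, h4⟩ := ihS
    obtain ⟨b, ψ, g1, g2, g3, g4⟩ := ihT
    have mS : ∀ x, φ x ∈ S := fun x => h2 ▸ ⟨x, rfl⟩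
    have mT : ∀ x, ψ x ∈ T := fun x => g2 ▸ ⟨x, rfl⟩
    let χ : (Expr.union a b).Verts → V := Sum.elim φ ψ
    refine ⟨Expr.union a b, χ, ?_, ?_, ?_, ?_⟩
    · rintro (x | x) (y | y) hxy
      · have : φ x = φ y := hxy
        exact congrArg Sum.inl (h1 this)
      · exfalso
        have : φ x = ψ y := hxy
        exact Set.disjoint_left.1 hd (mS x) (this ▸ mT y)
      · exfalso
        have : ψ x = φ y := hxy
        exact Set.disjoint_left.1 hd (mS y) (this ▸ mT x)
      · have : ψ x = ψ y := hxy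
        exact congrArg Sum.inr (g1 this)
    · rw [← h2, ← g2]
      exact Set.Sum.elim_range φ ψ
    · rintro (x | x) (y | y)
      · exact h3 x y
      · show False ↔ E (φ x) (ψ y)
        simp [(hST _ (mS x) _ (mT y)).1]
      · show False ↔ E (ψ x) (φ y)
        simp [(hST _ (mS y) _ (mT x)).2]
      · exact g3 x y
    · rintro (x | x)
      · exact h4 x
      · exact g4 x
  | join E E₁ S l i j hij h hS ih =>
    obtain ⟨a, φ, h1, h2, h3, h4⟩ := ih
    have mS : ∀ x, φ x ∈ S := fun x => h2 ▸ ⟨x, rfl⟩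
    refine ⟨Expr.join (enc (some i)) (enc (some j)) (fun h => hij (Option.some.inj (enc_inj h))) a,
      φ, h1, h2, ?_, h4⟩
    intro x y
    show (a.Adj x y ∨ (a.label x = enc (some i) ∧ a.label y = enc (some j)) ∨
      (a.label x = enc (some j) ∧ a.label y = enc (some i))) ↔ _
    rw [h (φ x) (mS x) (φ y) (mS y), h3, h4, h4]
    have e1 : ∀ u v : Option (Fin k), enc u = enc v ↔ u = v :=
      fun u v => ⟨enc_inj, fun h => by rw [h]⟩
    rw [e1, e1, e1, e1]
  | relabel E S l l₁ i j h hS ih =>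
    obtain ⟨a, φ, h1, h2, h3, h4⟩ := ih
    have mS : ∀ x, φ x ∈ S := fun x => h2 ▸ ⟨x, rfl⟩
    refine ⟨Expr.relabel (enc (some i)) (enc j) a, φ, h1, h2, h3, ?_⟩
    intro x
    show (if a.label x = enc (some i) then enc j else a.label x) = _
    rw [h (φ x) (mS x), h4]
    by_cases h5 : l (φ x) = some i
    · rw [if_pos h5, if_pos (by rw [h5])]
    · rw [if_neg h5, if_neg (fun h => h5 (enc_inj h))]

lemma D.cliqueWidthLE {G : SimpleGraph V} {l : V → Option (Fin k)}
    (h : D k G.Adj Set.univ l) : CliqueWidthLE G (k + 1) := by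
  obtain ⟨e, φ, h1, h2, h3, _⟩ := h.toExpr
  exact ⟨e, Equiv.ofBijective φ ⟨h1, Set.range_eq_univ.1 h2⟩, h3⟩

/-- Gluing a rooted graph at a vertex. -/
lemma D.glue [DecidableEq V] {E₁ : V → V → Prop} {S₁ : Set V} {l₁ : V → Option (Fin k)}
    (h : D k E₁ S₁ l₁) {c : V} (hc : c ∈ S₁) {E₂ : V → V → Prop} {S₂ : Set V} (hc2 : c ∈ S₂)
    (hS : ∀ x, x ∈ S₁ → x ∈ S₂ → x = c)
    (h2 : ∀ i : Fin k, D k E₂ S₂ (fun x => if x = c then some i else none))
    {E : V → V → Prop} (hE1 : ∀ x ∈ S₁, ∀ y ∈ S₁, (E x y ↔ E₁ x y))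
    (hE2 : ∀ x ∈ S₂, ∀ y ∈ S₂, (E x y ↔ E₂ x y))
    (hcross : ∀ x ∈ S₁, x ≠ c → ∀ y ∈ S₂, y ≠ c → ¬ E x y ∧ ¬ E y x)
    {l : V → Option (Fin k)} (hl : ∀ x ∈ S₁, l x = l₁ x) (hl2 : ∀ x ∈ S₂, x ≠ c → l x = none) :
    D k E (S₁ ∪ S₂) l := by
  induction h generalizing E l with
  | vertex E₁ v i l₁ hE0 hl0 =>
    obtain rfl : c = v := hc
    have hU : ({c} : Set V) ∪ S₂ = S₂ := Set.union_eq_self_of_subset_left (by simpa using hc2)
    rw [hU]
    refine (h2 i).congr (fun x hx y hy => (hE2 x hx y hy).symm) ?_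
    intro x hx
    by_cases hxc : x = c
    · subst hxc
      rw [if_pos rfl, hl x rfl, hl0]
    · rw [if_neg hxc, hl2 x hx hxc]
  | union E₁ S T l₁ hd hST hS' hT' ihS ihT =>
    rcases hc with hc | hc
    · have hcT : c ∉ T := fun h => Set.disjoint_left.1 hd hc h
      have hr : S ∪ T ∪ S₂ = (S ∪ S₂) ∪ T := by
        ext x; simp only [Set.mem_union]; tauto
      rw [hr]
      refine D.union E (S ∪ S₂) T l ?_ ?_ ?_ ?_
      · rw [Set.disjoint_left]
        rintro x (hx | hx) hxT
        · exact Set.disjoint_left.1 hd hx hxT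
        · exact hcT ((hS x (Or.inr hxT) hx) ▸ hxT)
      · rintro x (hx | hx) y hy
        · rw [hE1 x (Or.inl hx) y (Or.inr hy), hE1 y (Or.inr hy) x (Or.inl hx)]
          exact hST x hx y hy
        · have hyc : y ≠ c := fun h => hcT (h ▸ hy)
          by_cases hxc : x = c
          · subst hxc
            rw [hE1 x (Or.inl hc) y (Or.inr hy), hE1 y (Or.inr hy) x (Or.inl hc)]
            exact hST x hc y hy
          · exact (hcross y (Or.inr hy) hyc x hx hxc).symm
      · exact ihS hc (fun x hx hx2 => hS x (Or.inl hx) hx2)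
          (fun x hx y hy => hE1 x (Or.inl hx) y (Or.inl hy)) hE2
          (fun x hx => hcross x (Or.inl hx)) (fun x hx => hl x (Or.inl hx)) hl2
      · exact hT'.congr (fun x hx y hy => (hE1 x (Or.inr hx) y (Or.inr hy)).symm)
          (fun x hx => (hl x (Or.inr hx)).symm)
    · have hcS : c ∉ S := fun h => Set.disjoint_left.1 hd h hc
      have hr : S ∪ T ∪ S₂ = S ∪ (T ∪ S₂) := by
        ext x; simp only [Set.mem_union]; tauto
      rw [hr]
      refine D.union E S (T ∪ S₂) l ?_ ?_ ?_ ?_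
      · rw [Set.disjoint_left]
        rintro x hxS (hx | hx)
        · exact Set.disjoint_left.1 hd hxS hx
        · exact hcS ((hS x (Or.inl hxS) hx) ▸ hxS)
      · rintro x hx y (hy | hy)
        · rw [hE1 x (Or.inl hx) y (Or.inr hy), hE1 y (Or.inr hy) x (Or.inl hx)]
          exact hST x hx y hy
        · have hxc : x ≠ c := fun h => hcS (h ▸ hx)
          by_cases hyc : y = c
          · subst hyc
            rw [hE1 x (Or.inl hx) y (Or.inr hc), hE1 y (Or.inr hc) x (Or.inl hx)]
            exact hST x hx y hc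
          · exact hcross x (Or.inl hx) hxc y hy hyc
      · exact hS'.congr (fun x hx y hy => (hE1 x (Or.inl hx) y (Or.inl hy)).symm)
          (fun x hx => (hl x (Or.inl hx)).symm)
      · exact ihT hc (fun x hx hx2 => hS x (Or.inr hx) hx2)
          (fun x hx y hy => hE1 x (Or.inr hx) y (Or.inr hy)) hE2
          (fun x hx => hcross x (Or.inr hx)) (fun x hx => hl x (Or.inr hx)) hl2
  | join E₀ E₁ S l₁ i j hij h hS' ih =>
    let F : V → V → Prop := fun x y => (x ∈ S ∧ y ∈ S ∧ E₀ x y) ∨ (x ∈ S₂ ∧ y ∈ S₂ ∧ E₂ x y)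
    have irr0 : ¬ E₀ c c := hS'.irrefl c hc
    have irr2 : ¬ E₂ c c := (h2 i).irrefl c hc2
    have hF1 : ∀ x ∈ S, ∀ y ∈ S, (F x y ↔ E₀ x y) := by
      intro x hx y hy
      constructor
      · rintro (⟨_, _, h1⟩ | ⟨hx2, hy2, h1⟩)
        · exact h1
        · have ex := hS x hx hx2
          have ey := hS y hy hy2
          subst ex
          rw [ey] at h1
          exact absurd h1 irr2
      · intro h1; exact Or.inl ⟨hx, hy, h1⟩
    have hF2 : ∀ x ∈ S₂, ∀ y ∈ S₂, (F x y ↔ E₂ x y) := by
      intro x hx y hy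
      constructor
      · rintro (⟨hx2, hy2, h1⟩ | ⟨_, _, h1⟩)
        · have ex := hS x hx2 hx
          have ey := hS y hy2 hy
          subst ex
          rw [ey] at h1
          exact absurd h1 irr0
        · exact h1
      · intro h1; exact Or.inr ⟨hx, hy, h1⟩
    have hF3 : ∀ x ∈ S, x ≠ c → ∀ y ∈ S₂, y ≠ c → ¬ F x y ∧ ¬ F y x := by
      intro x hx hxc y hy hyc
      have hx2 : x ∉ S₂ := fun h => hxc (hS x hx h)
      have hy1 : y ∉ S := fun h => hyc (hS y h hy)
      constructor
      · rintro (⟨_, h1, _⟩ | ⟨h1, _, _⟩)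
        · exact hy1 h1
        · exact hx2 h1
      · rintro (⟨h1, _, _⟩ | ⟨_, h1, _⟩)
        · exact hy1 h1
        · exact hx2 h1
    refine D.join F E (S ∪ S₂) l i j hij ?_ (ih hc hS hF1 hF2 hF3 hl hl2)
    have lab : ∀ x ∈ S ∪ S₂, ∀ t : Fin k, l x = some t → x ∈ S := by
      rintro x (hx | hx) t ht
      · exact hx
      · by_cases hxc : x = c
        · rw [hxc]; exact hc
        · rw [hl2 x hx hxc] at ht
          exact absurd ht (by simp)
    intro x hx y hy
    by_cases hx1 : x ∈ S <;> by_cases hy1 : y ∈ S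
    · rw [hE1 x hx1 y hy1, h x hx1 y hy1, hF1 x hx1 y hy1, hl x hx1, hl y hy1]
    · have hy2 : y ∈ S₂ := hy.resolve_left hy1
      have hyc : y ≠ c := fun h => hy1 (h ▸ hc)
      have hly : l y = none := hl2 y hy2 hyc
      rw [hly]
      simp only [reduceCtorEq, and_false, false_and, or_false]
      by_cases hxc : x = c
      · subst hxc
        rw [hE2 x hc2 y hy2, hF2 x hc2 y hy2]
      · have a1 := (hcross x hx1 hxc y hy2 hyc).1
        have a2 := (hF3 x hx1 hxc y hy2 hyc).1
        exact ⟨fun h => absurd h a1, fun h => absurd h a2⟩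
    · have hx2 : x ∈ S₂ := hx.resolve_left hx1
      have hxc : x ≠ c := fun h => hx1 (h ▸ hc)
      have hlx : l x = none := hl2 x hx2 hxc
      rw [hlx]
      simp only [reduceCtorEq, false_and, or_false]
      by_cases hyc : y = c
      · subst hyc
        rw [hE2 x hx2 y hc2, hF2 x hx2 y hc2]
      · have a1 := (hcross y hy1 hyc x hx2 hxc).2
        have a2 := (hF3 y hy1 hyc x hx2 hxc).2
        exact ⟨fun h => absurd h a1, fun h => absurd h a2⟩
    · have hx2 : x ∈ S₂ := hx.resolve_left hx1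
      have hxc : x ≠ c := fun h => hx1 (h ▸ hc)
      have hlx : l x = none := hl2 x hx2 hxc
      have hy2 : y ∈ S₂ := hy.resolve_left hy1
      rw [hlx]
      simp only [reduceCtorEq, false_and, or_false]
      rw [hE2 x hx2 y hy2, hF2 x hx2 y hy2]
  | relabel E₁ S l₁ l₂ i j h hS' ih =>
    classical
    refine D.relabel E (S ∪ S₂) (fun x => if x ∈ S then l₁ x else none) l i j ?_ ?_
    · rintro x hx
      by_cases hx1 : x ∈ S
      · simp only [if_pos hx1]
        rw [hl x hx1, h x hx1]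
      · simp only [if_neg hx1]
        have hx2 : x ∈ S₂ := hx.resolve_left hx1
        have hxc : x ≠ c := fun h => hx1 (h ▸ hc)
        rw [hl2 x hx2 hxc]
        simp
    · refine ih hc hS hE1 hE2 hcross ?_ ?_
      · intro x hx
        simp only [if_pos hx]
      · intro x hx hxc
        have hx1 : x ∉ S := fun h => hxc (hS x h hx)
        simp only [if_neg hx1]

end Pool.Agent.H192R2.CW
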